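import Mathlib

/-!
# Geometric sums modulo prime powers
-/

namespace Pool.Agent.TH79.CA

/-- geometric sum -/
def gs (b : ℤ) (j : ℕ) : ℤ := ∑ l ∈ Finset.range j, b ^ l

theorem gs_zero (b : ℤ) : gs b 0 = 0 := by simp [gs]

theorem gs_succ (b : ℤ) (j : ℕ) : gs b (j + 1) = gs b j + b ^ j := by
  simp [gs, Finset.sum_range_succ]

theorem gs_add (b : ℤ) (i j : ℕ) : gs b (i + j) = gs b i + b ^ i * gs b j := by
  induction j with
  | zero => simp [gs_zero]
  | succ j ih => rw [← add_assoc, gs_succ, ih, gs_succ, pow_add]; ring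

theorem gs_mul (b : ℤ) (m n : ℕ) : gs b (m * n) = gs b m * gs (b ^ m) n := by
  induction n with
  | zero => simp [gs_zero]
  | succ n ih => rw [Nat.mul_succ, gs_add, ih, gs_succ, pow_mul]; ring

/-- the modulus: `p` for odd `p`, and `4` for `p = 2` -/
def qq (p : ℕ) : ℕ := if p = 2 then 4 else p

theorem p_dvd_qq (p : ℕ) : (p : ℤ) ∣ (qq p : ℤ) := by
  unfold qq
  split_ifs with h
  · subst h; norm_num
  · exact dvd_rfl

theorem pow_one_add (p : ℕ) {b : ℤ} (hb : (qq p : ℤ) ∣ b - 1) (l : ℕ) :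
    (qq p : ℤ) ∣ b ^ l - 1 := by
  have h := sub_dvd_pow_sub_pow b 1 l
  rw [one_pow] at h
  exact hb.trans h

theorem gs_mod_p {p : ℕ} {b : ℤ} (hb : (p : ℤ) ∣ b - 1) (t : ℕ) : (p : ℤ) ∣ gs b t - t := by
  induction t with
  | zero => simp [gs_zero]
  | succ t ih =>
    rw [gs_succ]
    have h1 : (p : ℤ) ∣ b ^ t - 1 := by
      have h := sub_dvd_pow_sub_pow b 1 t
      rw [one_pow] at h
      exact hb.trans h
    have h2 := dvd_add ih h1
    have e : gs b t + b ^ t - ((t + 1 : ℕ) : ℤ) = (gs b t - t) + (b ^ t - 1) := by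
      push_cast; ring
    rw [e]; exact h2

theorem gs_p {p : ℕ} [hp : Fact p.Prime] {b : ℤ} (hb : (qq p : ℤ) ∣ b - 1) :
    ∃ k : ℤ, gs b p = p * (1 + p * k) := by
  by_cases h2 : p = 2
  · subst h2
    obtain ⟨m, hm⟩ := hb
    have hb' : b = 1 + 4 * m := by
      have : (qq 2 : ℤ) = 4 := by simp [qq]
      rw [this] at hm
      linarith
    refine ⟨m, ?_⟩
    have e : gs b 2 = 1 + b := by simp [gs, Finset.sum_range_succ]
    rw [e, hb']
    push_cast
    ring
  · have hq : (qq p : ℤ) = p := by simp [qq, h2]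
    rw [hq] at hb
    obtain ⟨m, hm⟩ := hb
    have hb' : b = 1 + p * m := by linarith
    have h1 : ∀ l : ℕ, ((p : ℤ) * p) ∣ b ^ l - (1 + l * (p * m)) := by
      intro l
      induction l with
      | zero => simp
      | succ l ih =>
        have e : b ^ (l + 1) - (1 + ((l + 1 : ℕ) : ℤ) * (p * m)) =
            (b ^ l - (1 + l * (p * m))) * b + (p * p) * (l * m * m) := by
          rw [pow_succ, hb']; push_cast; ring
        rw [e]
        exact dvd_add (Dvd.dvd.mul_right ih b) (Dvd.intro _ rfl)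
    have h3 : ((p : ℤ) * p) ∣ gs b p - ∑ l ∈ Finset.range p, (1 + (l : ℤ) * (p * m)) := by
      unfold gs
      rw [← Finset.sum_sub_distrib]
      exact Finset.dvd_sum (fun l _ => h1 l)
    have h4 : ∑ l ∈ Finset.range p, (1 + (l : ℤ) * (p * m)) =
        p + (∑ l ∈ Finset.range p, (l : ℤ)) * (p * m) := by
      rw [Finset.sum_add_distrib, Finset.sum_mul]
      simp
    have h5 : (p : ℤ) ∣ ∑ l ∈ Finset.range p, (l : ℤ) := by
      have h6 : (∑ l ∈ Finset.range p, (l : ℤ)) * 2 = p * (p - 1) := by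
        have := Finset.sum_range_id_mul_two p
        have h7 : ((∑ l ∈ Finset.range p, l : ℕ) : ℤ) * 2 = (p * (p - 1) : ℕ) := by
          exact_mod_cast this
        rw [Nat.cast_mul, Nat.cast_sub hp.out.one_le] at h7
        push_cast at h7
        exact h7
      have h8 : (p : ℤ) ∣ (∑ l ∈ Finset.range p, (l : ℤ)) * 2 := by
        rw [h6]; exact Dvd.intro _ rfl
      rcases (Nat.prime_iff_prime_int.1 hp.out).dvd_or_dvd h8 with h | h
      · exact h
      · exfalso
        have h' : p ∣ 2 := by exact_mod_cast h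
        exact h2 ((Nat.prime_dvd_prime_iff_eq hp.out Nat.prime_two).1 h')
    obtain ⟨s, hs⟩ := h5
    obtain ⟨r, hr⟩ := h3
    refine ⟨r + s * m, ?_⟩
    rw [h4, hs] at hr
    linear_combination hr

theorem gs_pp {p : ℕ} [hp : Fact p.Prime] (m : ℕ) :
    ∀ {b : ℤ}, (qq p : ℤ) ∣ b - 1 → ∃ k : ℤ, gs b (p ^ m) = p ^ m * (1 + p * k) := by
  induction m with
  | zero =>
    intro b _
    exact ⟨0, by simp [gs]⟩
  | succ m ih =>
    intro b hb
    obtain ⟨k, hk⟩ := gs_p hb
    obtain ⟨k', hk'⟩ := ih (pow_one_add p hb p)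
    refine ⟨k + k' + p * k * k', ?_⟩
    rw [pow_succ', gs_mul, hk, hk']
    ring

/-- geometric sums represent everything modulo `p ^ m` -/
theorem gs_surj {p : ℕ} [hp : Fact p.Prime] {b : ℤ} (hb : (qq p : ℤ) ∣ b - 1) (m : ℕ) (n : ℤ) :
    ∃ j : ℕ, ((p : ℤ) ^ m) ∣ gs b j - n := by
  induction m with
  | zero => exact ⟨0, by simp⟩
  | succ m ih =>
    obtain ⟨j, s, hs⟩ := ih
    obtain ⟨k, hk⟩ := gs_pp (p := p) m hb
    set t : ℕ := ((-s) % p).toNat with ht
    have hp0 : (p : ℤ) ≠ 0 := by exact_mod_cast hp.out.ne_zero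
    have ht' : (t : ℤ) = (-s) % p := Int.toNat_of_nonneg (Int.emod_nonneg _ hp0)
    have hts : (p : ℤ) ∣ (t : ℤ) + s := by
      rw [ht']
      have := Int.emod_add_mul_ediv (-s) p
      refine ⟨-((-s) / p), ?_⟩
      linarith
    refine ⟨j + p ^ m * t, ?_⟩
    have hpb : (p : ℤ) ∣ b - 1 := (p_dvd_qq p).trans hb
    have hbp : (p : ℤ) ∣ b ^ (p ^ m) - 1 := (p_dvd_qq p).trans (pow_one_add p hb _)
    obtain ⟨l, hl⟩ := gs_mod_p hbp t
    obtain ⟨v, hv⟩ := (p_dvd_qq p).trans (pow_one_add p hb j)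
    obtain ⟨r, hr⟩ := hts
    rw [gs_add, gs_mul, hk]
    have hl' : gs (b ^ p ^ m) t = t + p * l := by linarith
    have hv' : b ^ j = 1 + p * v := by linarith
    rw [hl', hv']
    have hgs : gs b j = n + (p : ℤ) ^ m * s := by linarith
    have ht2 : (t : ℤ) = p * r - s := by linarith
    rw [hgs, ht2]
    refine ⟨r + (1 + p * v) * (1 + p * k) * l + (v + k + p * v * k) * (p * r - s), ?_⟩
    ring

end Pool.Agent.TH79.CA
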