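import Pool.Agent.TH79.CA.Reduce
import Pool.Agent.TH79.CA.GeomSum

/-!
# The converse direction of the classification
-/

namespace Pool.Agent.TH79.CA

open Subgroup
open scoped commutatorElement IsMulCommutative

universe u v

namespace Fr

variable {G : Type u} {M : Type v} [Group G] [AddCommGroup M] (F : Fr G M)

theorem δ_pow_self (y : G) (n : ℕ) : F.δ y (y ^ n) = 0 := by
  apply F.δ_eq
  rw [F.ι_zero]
  have : y⁻¹ * y ^ n * y = y ^ n := by
    rw [mul_assoc, ← pow_succ, pow_succ']; group
  rw [this, mul_inv_cancel]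

/-- `δ x (y ^ j)` when `y` acts by multiplication by `b` on `δ x y` -/
theorem δ_geom {x y : G} {b : ℤ} (hb : F.act y (F.δ x y) = b • F.δ x y) (j : ℕ) :
    F.δ x (y ^ j) = gs b j • F.δ x y := by
  have hpow : ∀ j : ℕ, F.act (y ^ j) (F.δ x y) = b ^ j • F.δ x y := by
    intro j
    induction j with
    | zero => simp
    | succ j ih => rw [pow_succ, F.act_mul, hb, map_zsmul, ih, smul_smul, pow_succ, mul_comm]
  induction j with
  | zero => simp [F.δ_one, gs_zero]
  | succ j ih => rw [pow_succ, F.δ_mul, ih, hpow, gs_succ, add_smul]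

/-- the cyclic case: all pairs are simultaneously conjugate -/
theorem cyclic_inner {p : ℕ} [hp : Fact p.Prime] (hG : IsPGroup p G) {x y : G} {c : M}
    (hgen : ∀ u : M, ∃ n : ℤ, u = n • c)
    (hact : ∀ (u : M) (g : G), ∃ v : M, F.act g u - u = (qq p : ℤ) • v)
    (hc1 : ∀ u : M, ∃ n : ℤ, u = n • F.δ x y) (u v : M) :
    ∃ g, F.δ x g = u ∧ F.δ y g = v := by
  obtain ⟨m, hm⟩ := hG (F.ι c)
  have hkill : ∀ (n : ℤ) (w : M), ((p : ℤ) ^ m) ∣ n → n • w = 0 := by
    rintro n w ⟨k, rfl⟩
    obtain ⟨l, rfl⟩ := hgen w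
    have h1 : ((p : ℤ) ^ m) • c = 0 := by
      apply F.ι_eq_one.1
      rw [F.ι_zsmul]
      exact_mod_cast hm
    rw [smul_smul]
    have : (p : ℤ) ^ m * k * l = (k * l) * (p : ℤ) ^ m := by ring
    rw [this, mul_smul, h1, smul_zero]
  have hscal : ∀ (w : M) (_ : ∀ u : M, ∃ n : ℤ, u = n • w) (g : G),
      ∃ b : ℤ, (qq p : ℤ) ∣ b - 1 ∧ F.act g w = b • w := by
    intro w hw g
    obtain ⟨v, hv⟩ := hact w g
    obtain ⟨n, hn⟩ := hw v
    refine ⟨1 + qq p * n, ⟨n, by ring⟩, ?_⟩
    rw [add_smul, one_smul, mul_smul, ← hn, ← hv]; abel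
  have hc2 : ∀ u : M, ∃ n : ℤ, u = n • F.δ y x := by
    intro u
    obtain ⟨n, hn⟩ := hc1 (F.act (y⁻¹ * x)⁻¹ u)
    refine ⟨-n, ?_⟩
    rw [F.δ_swap]
    have h1 := congrArg (F.act (y⁻¹ * x)) hn
    rw [F.act_act_inv, map_zsmul] at h1
    rw [h1]; module
  obtain ⟨b, hb1, hb2⟩ := hscal _ hc1 y
  obtain ⟨a, ha1, ha2⟩ := hscal _ hc2 x
  obtain ⟨n, hn⟩ := hc1 u
  obtain ⟨j, hj⟩ := gs_surj hb1 m n
  obtain ⟨n', hn'⟩ := hc2 (F.act (y ^ j)⁻¹ v)
  obtain ⟨i, hi⟩ := gs_surj ha1 m n'
  refine ⟨y ^ j * x ^ i, ?_, ?_⟩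
  · rw [F.δ_mul, F.δ_pow_self, map_zero, add_zero, F.δ_geom hb2, hn]
    have := hkill _ (F.δ x y) hj
    rw [sub_smul] at this
    exact sub_eq_zero.1 this
  · rw [F.δ_mul, F.δ_pow_self, zero_add, F.δ_geom ha2]
    have := hkill _ (F.δ y x) hi
    rw [sub_smul] at this
    rw [sub_eq_zero.1 this, ← hn', F.act_act_inv]

end Fr

section

variable {G : Type u} [Group G]

/-- converse, cyclic case -/
theorem backward_cyclic {p : ℕ} [hp : Fact p.Prime] [Finite G] (hG : IsPGroup p G) {x : Fin 2 → G}
    (hx : closure (Set.range x) = ⊤) {c : G} (hcc : c ∈ commutator G)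
    (hc : ∀ u ∈ commutator G, ∃ n : ℤ, u = c ^ n)
    (h4 : p = 2 → ∀ t ∈ g3 G, ∃ u ∈ commutator G, t = u ^ 4) :
    Nat.card (autC G) = Nat.card (commutator G) ^ 2 := by
  have hxy : closure {x 0, x 1} = ⊤ := by
    rw [← hx]
    congr 1
    ext g
    constructor
    · rintro (rfl | rfl)
      · exact ⟨0, rfl⟩
      · exact ⟨1, rfl⟩
    · rintro ⟨i, rfl⟩
      fin_cases i
      · left; rfl
      · right; rfl
  have hab : ∀ a ∈ commutator G, ∀ b ∈ commutator G, a * b = b * a := by
    intro a ha b hb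
    obtain ⟨n, rfl⟩ := hc a ha
    obtain ⟨m, rfl⟩ := hc b hb
    rw [← zpow_add, ← zpow_add, add_comm]
  obtain ⟨M, _, ⟨F⟩⟩ := exists_frame G hab
  obtain ⟨γ, rfl⟩ := F.exists_of_mem hcc
  have hgen : ∀ u : M, ∃ n : ℤ, u = n • γ := by
    intro u
    obtain ⟨n, hn⟩ := hc _ (F.ι_mem u)
    exact ⟨n, F.inj (by rw [hn, F.ι_zsmul])⟩
  -- `δ x y` generates
  have hc1 : ∀ u : M, ∃ n : ℤ, u = n • F.δ (x 0) (x 1) := by
    set d := F.δ (x 0) (x 1) with hd
    haveI hKn : (zpowers (F.ι d)).Normal := by
      constructor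
      rintro _ ⟨k, rfl⟩ g
      obtain ⟨m, hm⟩ := hgen d
      obtain ⟨r, hr⟩ := hgen (F.act g γ)
      refine ⟨r * k, ?_⟩
      simp only
      rw [← F.ι_zsmul, ← F.ι_zsmul, F.act_spec, map_zsmul, hm, map_zsmul, hr]
      congr 1
      module
    have hxy' : closure {(x 0)⁻¹, x 1} = ⊤ := by
      apply closure_pair hxy
      · have : (x 0)⁻¹ ∈ closure ({(x 0)⁻¹, x 1} : Set G) := subset_closure (by simp)
        simpa using inv_mem this
      · exact subset_closure (by simp)
    have hle : commutator G ≤ zpowers (F.ι d) := by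
      apply comm_le_of_pair hxy'
      have : ⁅(x 0)⁻¹, x 1⁆ = F.ι d := by
        rw [hd, F.δ_spec, commutatorElement_def]; group
      rw [this]; exact mem_zpowers _
    intro u
    obtain ⟨n, hn⟩ := hle (F.ι_mem u)
    refine ⟨n, F.inj ?_⟩
    rw [F.ι_zsmul]; exact hn.symm
  have hact : ∀ (u : M) (g : G), ∃ v : M, F.act g u - u = (qq p : ℤ) • v := by
    intro u g
    by_cases h2 : p = 2
    · obtain ⟨w, hw, e⟩ := h4 h2 _ (F.ι_act_sub_mem u g)
      obtain ⟨v, rfl⟩ := F.exists_of_mem hw
      refine ⟨v, F.inj ?_⟩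
      rw [e, F.ι_zsmul]
      simp [qq, h2]
    · have hq : (qq p : ℤ) = p := by simp [qq, h2]
      rw [hq]
      obtain ⟨n, hn⟩ := hgen (F.act g γ - γ)
      obtain ⟨k, hk⟩ := hgen u
      by_cases hpn : (p : ℤ) ∣ n
      · obtain ⟨n', rfl⟩ := hpn
        refine ⟨(n' * k) • γ, ?_⟩
        have : F.act g u - u = k • (F.act g γ - γ) := by
          rw [hk, map_zsmul]; module
        rw [this, hn]; module
      · -- then everything lies in the third term
        have h5 : F.ι γ ∈ g3 G := by
          apply pow_coprime_mem hG hpn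
          rw [← F.ι_zsmul, ← hn]
          exact F.ι_act_sub_mem γ g
        have h6 : commutator G ≤ g3 G := by
          intro w hw
          obtain ⟨m, rfl⟩ := hc w hw
          exact zpow_mem h5 m
        haveI := hG.isNilpotent
        have h7 : commutator G = ⊥ := by
          by_contra hne
          exact comm_ne hne (le_antisymm g3_le h6)
        have h8 : ∀ w : M, w = 0 := by
          intro w
          apply F.ι_eq_one.1
          have := F.ι_mem w
          rw [h7, mem_bot] at this
          exact this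
        exact ⟨0, by rw [h8 (F.act g u - u), smul_zero]⟩
  apply card_of_tuple x hx
  intro a ha
  obtain ⟨u, hu⟩ := F.exists_of_mem (ha 0)
  obtain ⟨v, hv⟩ := F.exists_of_mem (ha 1)
  obtain ⟨g, hg1, hg2⟩ := F.cyclic_inner hG hgen hact hc1 u v
  refine ⟨MulAut.conj g, fun h => isConj_iff.2 ⟨g, rfl⟩, ?_⟩
  intro i
  fin_cases i
  · show g * x 0 * g⁻¹ = x 0 * a 0
    rw [F.δ_conj, hg1, hu]
  · show g * x 1 * g⁻¹ = x 1 * a 1
    rw [F.δ_conj, hg2, hv]

/-! ### Central automorphisms -/

/-- homomorphisms to an abelian group with prescribed values on a generating tuple -/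
theorem exists_hom {A : Type v} [CommGroup A] {d : ℕ} {x : Fin d → G}
    (hx : closure (Set.range x) = ⊤) (a : Fin d → A)
    (h : ∀ n : Fin d → ℤ, ∏ i, Abelianization.of (x i) ^ n i = 1 → ∏ i, a i ^ n i = 1) :
    ∃ f : G →* A, (∀ i, f (x i) = a i) ∧
      ∀ (g : G) (n : Fin d → ℤ), Abelianization.of g = ∏ i, Abelianization.of (x i) ^ n i →
        f g = ∏ i, a i ^ n i := by
  classical
  let φ : Multiplicative (Fin d → ℤ) →* Abelianization G :=
    { toFun := fun n => ∏ i, Abelianization.of (x i) ^ (n.toAdd i)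
      map_one' := by simp
      map_mul' := by
        intro n m
        simp only [toAdd_mul, Pi.add_apply, zpow_add, Finset.prod_mul_distrib] }
  let ψ : Multiplicative (Fin d → ℤ) →* A :=
    { toFun := fun n => ∏ i, a i ^ (n.toAdd i)
      map_one' := by simp
      map_mul' := by
        intro n m
        simp only [toAdd_mul, Pi.add_apply, zpow_add, Finset.prod_mul_distrib] }
  have hφ : Function.Surjective φ := by
    intro q
    obtain ⟨g, rfl⟩ := QuotientGroup.mk_surjective q
    obtain ⟨n, hn⟩ := exists_exps hx g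
    exact ⟨Multiplicative.ofAdd n, hn.symm⟩
  have hker : φ.ker ≤ ψ.ker := by
    intro n hn
    rw [MonoidHom.mem_ker] at hn ⊢
    exact h n.toAdd hn
  let F := MonoidHom.liftOfSurjective φ hφ ⟨ψ, hker⟩
  have hF : ∀ n, F (φ n) = ψ n := by
    intro n
    exact MonoidHom.liftOfRightInverse_comp_apply φ _ _ ⟨ψ, hker⟩ n
  have key : ∀ (g : G) (n : Fin d → ℤ),
      Abelianization.of g = ∏ i, Abelianization.of (x i) ^ n i →
        (F.comp Abelianization.of) g = ∏ i, a i ^ n i := by
    intro g n hn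
    have h1 : Abelianization.of g = φ (Multiplicative.ofAdd n) := hn
    rw [MonoidHom.comp_apply, h1, hF]
    rfl
  refine ⟨F.comp Abelianization.of, ?_, key⟩
  intro i
  rw [key (x i) (fun j => if j = i then 1 else 0)]
  · rw [Finset.prod_eq_single i]
    · simp
    · intro j _ hj; simp [hj]
    · intro h; exact absurd (Finset.mem_univ i) h
  · rw [Finset.prod_eq_single i]
    · simp
    · intro j _ hj; simp [hj]
    · intro h; exact absurd (Finset.mem_univ i) h

theorem hom_kills {A : Type v} [CommGroup A] (f : G →* A) {g : G} (hg : g ∈ commutator G) :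
    f g = 1 := by
  have hk : commutator G ≤ f.ker := by
    rw [commutator_def, commutator_le]
    intro a _ b _
    rw [MonoidHom.mem_ker, map_commutatorElement, commutatorElement_eq_one_iff_mul_comm]
    exact mul_comm _ _
  exact hk hg

theorem central_aut [Finite G] (f : G →* center G)
    (hf : ∀ g, (f g : G) ∈ commutator G) : ∃ α : G ≃* G, ∀ g, α g = g * f g := by
  let φ : G →* G :=
    { toFun := fun g => g * f g
      map_one' := by simp
      map_mul' := by
        intro g h
        have h1 := mem_center_iff.1 (f g).2 h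
        simp only [map_mul, Subgroup.coe_mul]
        rw [mul_assoc, ← mul_assoc h, h1]
        group }
  have hinj : Function.Injective φ := by
    rw [injective_iff_map_eq_one]
    intro g hg
    have h1 : g * f g = 1 := hg
    have h2 : g ∈ commutator G := by
      rw [mul_eq_one_iff_eq_inv.1 h1]
      exact inv_mem (hf g)
    have h3 := hom_kills f h2
    rw [h3] at h1
    simpa using h1
  have hbij : Function.Bijective φ := Finite.injective_iff_bijective.1 hinj
  exact ⟨MulEquiv.ofBijective φ hbij, fun g => rfl⟩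

/-- converse, class at most two -/
theorem backward_central {p : ℕ} [hp : Fact p.Prime] [Finite G] (hG : IsPGroup p G)
    (hcen : commutator G ≤ center G)
    (hcam : ∀ x, x ∉ frattini G → ∀ c ∈ commutator G, IsConj x (x * c)) :
    Nat.card (autC G) = Nat.card (commutator G) ^ Group.rank G := by
  obtain ⟨x, hx⟩ := exists_tuple (G := G)
  apply card_of_tuple x hx
  intro a ha
  -- relations among the generators
  have hpow : ∀ (h t c : G), t * h * t⁻¹ = h * c → c ∈ center G → ∀ n : ℕ,
      t * h ^ n * t⁻¹ = h ^ n * c ^ n := by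
    intro h t c e hc n
    rw [← conj_pow, e]
    exact (show Commute h c from mem_center_iff.1 hc h).mul_pow n
  have hrel : ∀ n : Fin (Group.rank G) → ℤ, ∏ i, Abelianization.of (x i) ^ n i = 1 →
      ∀ i, ∀ c ∈ commutator G, c ^ n i = 1 := by
    intro n hn
    have hstep : ∀ k : ℕ, (∀ i, ((p : ℤ) ^ k) ∣ n i) ∨
        (∀ i, ∀ c ∈ commutator G, c ^ n i = 1) := by
      intro k
      induction k with
      | zero => left; intro i; simp
      | succ k ih =>
        rcases ih with ih | ih
        · choose m hm using ih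
          obtain ⟨h, hh⟩ : ∃ h : G, Abelianization.of h = ∏ i, Abelianization.of (x i) ^ m i :=
            QuotientGroup.mk_surjective _
          have h1 : h ^ (p ^ k) ∈ commutator G := by
            have h2 : (Abelianization.of (h ^ (p ^ k)) : Abelianization G) = 1 := by
              rw [map_pow, hh, ← Finset.prod_pow, ← hn]
              apply Finset.prod_congr rfl
              intro i _
              rw [hm i, mul_comm, zpow_mul]
              exact_mod_cast rfl
            rw [← Abelianization.ker_of G]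
            exact h2
          by_cases hfr : h ∈ frattini G
          · left
            intro i
            obtain ⟨s, hs⟩ := indep hG rfl hx hfr hh i
            exact ⟨s, by rw [hm i, hs, pow_succ]; ring⟩
          · right
            intro i c hc
            obtain ⟨t, ht⟩ := isConj_iff.1 (hcam h hfr c hc)
            have h3 := hpow h t c ht (hcen hc) (p ^ k)
            have h4 : t * h ^ (p ^ k) * t⁻¹ = h ^ (p ^ k) := by
              rw [mem_center_iff.1 (hcen h1) t, mul_inv_cancel_right]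
            rw [h4] at h3
            have h5 : c ^ (p ^ k) = 1 := (left_eq_mul.1 h3)
            rw [hm i, zpow_mul]
            have h6 : c ^ ((p : ℤ) ^ k) = 1 := by exact_mod_cast h5
            rw [h6, one_zpow]
        · right; exact ih
    obtain ⟨e, he⟩ := (IsPGroup.iff_card).1 hG
    rcases hstep e with h | h
    · intro i c _
      obtain ⟨s, hs⟩ := h i
      rw [hs, zpow_mul]
      have h6 : c ^ ((p : ℤ) ^ e) = 1 := by
        have : c ^ (p ^ e) = 1 := by rw [← he]; exact pow_card_eq_one'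
        exact_mod_cast this
      rw [h6, one_zpow]
    · exact h
  obtain ⟨f, hf1, hf2⟩ := exists_hom hx (fun i => (⟨a i, hcen (ha i)⟩ : center G)) (by
    intro n hn
    apply Finset.prod_eq_one
    intro i _
    apply Subtype.ext
    exact hrel n hn i (a i) (ha i))
  have hfc : ∀ g, (f g : G) ∈ commutator G := by
    intro g
    refine closure_induct hx (P := fun g => (f g : G) ∈ commutator G) ?_ ?_ ?_ g
    · rintro _ ⟨i, rfl⟩
      rw [hf1]; exact ha i
    · rw [map_one]; exact one_mem _
    · intro g h hg hh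
      rw [map_mul]; exact mul_mem hg hh
  obtain ⟨α, hα⟩ := central_aut f hfc
  refine ⟨α, ?_, fun i => by rw [hα, hf1]⟩
  intro g
  rw [hα]
  -- class preserving
  have hstep : ∀ k : ℕ, (∃ h : G, (Abelianization.of g : Abelianization G) =
      Abelianization.of h ^ (p ^ k)) ∨ IsConj g (g * f g) := by
    intro k
    induction k with
    | zero => left; exact ⟨g, by simp⟩
    | succ k ih =>
      rcases ih with ⟨h, hh⟩ | ih
      · by_cases hfr : h ∈ frattini G
        · left
          obtain ⟨n, hn⟩ := exists_exps hx h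
          obtain ⟨h', e, -⟩ := mem_frattini_of_exps hG hn (indep hG rfl hx hfr hn)
          refine ⟨h', ?_⟩
          rw [hh, e, ← pow_mul, pow_succ, mul_comm]
        · right
          obtain ⟨t, ht⟩ := isConj_iff.1 (hcam h hfr (f h) (hfc h))
          have h3 := hpow h t (f h) ht (hcen (hfc h)) (p ^ k)
          rw [← map_pow] at hh
          have h4 := of_eq_iff.1 hh.symm
          set u := (h ^ (p ^ k))⁻¹ * g with hu
          have h5 : g = h ^ (p ^ k) * u := by rw [hu]; group
          have h6 : f g = f h ^ (p ^ k) := by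
            rw [h5, map_mul, hom_kills f h4, mul_one, map_pow]
          refine isConj_iff.2 ⟨t, ?_⟩
          have h7 : t * u * t⁻¹ = u := by
            rw [mem_center_iff.1 (hcen h4) t, mul_inv_cancel_right]
          have h8 : t * g * t⁻¹ = (t * h ^ (p ^ k) * t⁻¹) * (t * u * t⁻¹) := by
            rw [h5]; group
          rw [h8, h3, h7, h6]
          have h9 : ((f h ^ (p ^ k) : center G) : G) = (f h : G) ^ (p ^ k) := by simp
          rw [h9]
          have h10 : (f h : G) ^ (p ^ k) * u = u * (f h : G) ^ (p ^ k) :=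
            mem_center_iff.1 (hcen h4) _
          calc h ^ (p ^ k) * (f h : G) ^ (p ^ k) * u
              = h ^ (p ^ k) * (u * (f h : G) ^ (p ^ k)) := by rw [mul_assoc, h10]
            _ = (h ^ (p ^ k) * u) * (f h : G) ^ (p ^ k) := (mul_assoc _ _ _).symm
            _ = g * (f h : G) ^ (p ^ k) := by rw [← h5]
      · right; exact ih
  obtain ⟨e, he⟩ := (IsPGroup.iff_card).1 hG
  rcases hstep e with ⟨h, hh⟩ | h
  · have h1 : (Abelianization.of g : Abelianization G) = 1 := by
      rw [hh, ← map_pow]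
      have : h ^ (p ^ e) = 1 := by rw [← he]; exact pow_card_eq_one'
      rw [this, map_one]
    have h2 : g ∈ commutator G := by
      rw [← Abelianization.ker_of G]; exact h1
    rw [hom_kills f h2]
    have h3 : g * ((1 : center G) : G) = g := by simp
    rw [h3]
  · exact h

/-! ### The exceptional case `p = 2` -/

namespace Fr

variable {M : Type v} [AddCommGroup M] (F : Fr G M)

/-- in the exceptional case every class off the Frattini subgroup is a full coset -/
theorem exc_cam [Finite G] {x y : G} (hxy : closure {x, y} = ⊤)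
    (h2 : ∀ u : M, (2 : ℤ) • u = 0)
    (hfix : ∀ u g h, F.act h (F.act g u - u) = F.act g u - u) :
    (∀ u : M, ∃ g, F.δ x g = u) ∧
      ∀ u : M, ∃ i : ℤ, ∀ g, F.act g (u - i • F.δ x y) = u - i • F.δ x y := by
  set c := F.δ x y with hc
  set z1 := F.act x c - c with hz1
  set z2 := F.act y c - c with hz2
  have hz1f : ∀ g, F.act g z1 = z1 := hfix c x
  have hz2f : ∀ g, F.act g z2 = z2 := hfix c y
  have hgc : ∀ g, ∃ i j : ℤ, F.act g c = c + i • z1 + j • z2 := by
    intro g
    refine closure_induct hxy (P := fun g => ∃ i j : ℤ,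
      F.act g c = c + i • z1 + j • z2) ?_ ?_ ?_ g
    · rintro g (rfl | rfl)
      · exact ⟨1, 0, by rw [hz1]; module⟩
      · exact ⟨0, 1, by rw [hz2]; module⟩
    · exact ⟨0, 0, by rw [F.act_one]; module⟩
    · rintro g h ⟨i, j, e⟩ ⟨i', j', f⟩
      refine ⟨i + i', j + j', ?_⟩
      rw [F.act_mul, f, map_add, map_add, map_zsmul, map_zsmul, hz1f, hz2f, e]
      module
  let K : Subgroup G :=
    { carrier := {g | ∃ i j k : ℤ, g = F.ι (i • c + j • z1 + k • z2)}
      mul_mem' := by
        rintro _ _ ⟨i, j, k, rfl⟩ ⟨i', j', k', rfl⟩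
        refine ⟨i + i', j + j', k + k', ?_⟩
        rw [← F.ι_add]; congr 1; module
      one_mem' := ⟨0, 0, 0, by rw [← F.ι_zero]; congr 1; module⟩
      inv_mem' := by
        rintro _ ⟨i, j, k, rfl⟩
        refine ⟨-i, -j, -k, ?_⟩
        rw [← F.ι_neg]; congr 1; module }
  haveI hKn : K.Normal := by
    constructor
    rintro _ ⟨i, j, k, rfl⟩ g
    obtain ⟨a, b, e⟩ := hgc g
    refine ⟨i, j + i * a, k + i * b, ?_⟩
    rw [F.act_spec, map_add, map_add, map_zsmul, map_zsmul, map_zsmul, hz1f, hz2f, e]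
    congr 1; module
  have hxy' : closure {x⁻¹, y} = ⊤ := by
    apply closure_pair hxy
    · have : x⁻¹ ∈ closure ({x⁻¹, y} : Set G) := subset_closure (by simp)
      simpa using inv_mem this
    · exact subset_closure (by simp)
  have hle : commutator G ≤ K := by
    apply comm_le_of_pair hxy'
    refine ⟨1, 0, 0, ?_⟩
    have : (1 : ℤ) • c + (0 : ℤ) • z1 + (0 : ℤ) • z2 = c := by module
    rw [this, hc, F.δ_spec, commutatorElement_def]; group
  have hrep : ∀ u : M, ∃ i j k : ℤ, u = i • c + j • z1 + k • z2 := by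
    intro u
    obtain ⟨i, j, k, e⟩ := hle (F.ι_mem u)
    exact ⟨i, j, k, F.inj e⟩
  constructor
  · intro u
    obtain ⟨i, j, k, e⟩ := hrep u
    have e1 : F.δ x (F.ι (j • c)) = j • z1 := by
      have hx : F.act x⁻¹ c = c - z1 := F.act_inv_of (hz1f x) (by rw [hz1]; abel)
      have h3 : j • z1 = j • z1 - j • ((2 : ℤ) • z1) := by rw [h2]; simp
      rw [F.δ_ι, map_zsmul, hx, h3]; module
    have hyy : ∀ k : ℤ, F.act ((y * y) ^ k) c = c := by
      intro k
      have h3 : F.act (y * y) c = c + 0 := by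
        rw [F.act_mul]
        calc F.act y (F.act y c) = F.act y (c + z2) := by rw [hz2]; congr 1; abel
          _ = F.act y c + z2 := by rw [map_add, hz2f]
          _ = c + (2 : ℤ) • z2 := by rw [hz2]; module
          _ = c + 0 := by rw [h2]
      have := F.act_pow (map_zero (F.act (y * y))) h3 k
      rw [this]; simp
    have e2 : ∀ k : ℤ, F.δ x ((y * y) ^ k) = k • z2 := by
      intro k
      have h3 : F.δ x (y * y) = z2 := by
        rw [F.δ_mul, ← hc]
        have : c + F.act y c = z2 + (2 : ℤ) • c := by rw [hz2]; module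
        rw [this, h2, add_zero]
      have hz2p : ∀ n : ℤ, F.act ((y * y) ^ n) z2 = z2 := fun n => hz2f _
      induction k using Int.induction_on with
      | zero => simp [F.δ_one]
      | succ n ih => rw [zpow_add_one, F.δ_mul, ih, h3, hz2f]; module
      | pred n ih =>
        rw [zpow_sub_one, F.δ_mul, ih, F.δ_inv, h3, map_neg, hz2f, hz2f]; module
    have e3 : ∃ g, F.δ x g = i • c := by
      rcases Int.even_or_odd i with ⟨i', hi'⟩ | ⟨i', hi'⟩
      · refine ⟨1, ?_⟩
        have : i • c = i' • ((2 : ℤ) • c) := by rw [hi']; module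
        rw [this, h2, smul_zero, F.δ_one]
      · refine ⟨y, ?_⟩
        have : i • c = i' • ((2 : ℤ) • c) + c := by rw [hi']; module
        rw [this, h2, smul_zero, zero_add]
    obtain ⟨g3, hg3⟩ := e3
    refine ⟨F.ι (j • c) * ((y * y) ^ k * g3), ?_⟩
    rw [F.δ_mul, F.δ_mul, e1, e2, hg3, map_zsmul, hyy, F.act_ι, e]
    abel
  · intro u
    obtain ⟨i, j, k, e⟩ := hrep u
    refine ⟨i, fun g => ?_⟩
    have : u - i • c = j • z1 + k • z2 := by rw [e]; abel
    rw [this, map_add, map_zsmul, map_zsmul, hz1f, hz2f]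

end Fr

/-- converse, exceptional case -/
theorem backward_exc [Finite G] (hG : IsPGroup 2 G) (hr : Group.rank G = 2)
    (hexp : ∀ u ∈ commutator G, u ^ 2 = 1) (h3 : g3 G ≤ center G) :
    Nat.card (autC G) = Nat.card (commutator G) ^ 2 := by
  haveI : Fact (Nat.Prime 2) := ⟨Nat.prime_two⟩
  obtain ⟨x, hx⟩ : ∃ x : Fin 2 → G, closure (Set.range x) = ⊤ := by
    have := exists_tuple (G := G)
    rwa [hr] at this
  obtain ⟨M, _, ⟨F⟩⟩ := exists_frame G (abelian_of_class_three h3)
  have h2 : ∀ u : M, (2 : ℤ) • u = 0 := by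
    intro u
    apply F.ι_eq_one.1
    rw [F.ι_zsmul]
    exact_mod_cast hexp _ (F.ι_mem u)
  have hfix : ∀ u g h, F.act h (F.act g u - u) = F.act g u - u := fun u g h =>
    F.fixed_of_central (h3 (F.ι_act_sub_mem u g)) h
  have hpair : ∀ x : Fin 2 → G, closure (Set.range x) = ⊤ → closure {x 0, x 1} = ⊤ := by
    intro x hx
    rw [← hx]
    congr 1
    ext g
    constructor
    · rintro (rfl | rfl)
      · exact ⟨0, rfl⟩
      · exact ⟨1, rfl⟩
    · rintro ⟨i, rfl⟩
      fin_cases i
      · left; rfl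
      · right; rfl
  have hxy := hpair x hx
  have hcam : ∀ g, g ∉ frattini G → ∀ u : M, IsConj g (g * F.ι u) := by
    intro g hg u
    obtain ⟨i, hi⟩ := extend_tuple hG hx hg
    have h4 := hpair _ hi
    have h5 : ∃ y : G, closure {g, y} = ⊤ := by
      fin_cases i
      · refine ⟨x 1, ?_⟩
        simpa using h4
      · refine ⟨x 0, ?_⟩
        rw [Set.pair_comm]
        simpa using h4
    obtain ⟨y, hy⟩ := h5
    obtain ⟨t, ht⟩ := (F.exc_cam hy h2 hfix).1 u
    exact isConj_iff.2 ⟨t, by rw [F.δ_conj, ht]⟩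
  apply card_of_tuple x hx
  intro a ha
  obtain ⟨u, hu⟩ := F.exists_of_mem (ha 0)
  obtain ⟨v, hv⟩ := F.exists_of_mem (ha 1)
  obtain ⟨i, hi⟩ := (F.exc_cam hxy h2 hfix).2 u
  obtain ⟨j, hj⟩ := (F.exc_cam hxy h2 hfix).2 v
  set c := F.δ (x 0) (x 1) with hc
  -- an inner automorphism which is right modulo fixed elements
  obtain ⟨g, hg0, hg1⟩ : ∃ g : G, (∀ k, F.act k (u - F.δ (x 0) g) = u - F.δ (x 0) g) ∧
      (∀ k, F.act k (v - F.δ (x 1) g) = v - F.δ (x 1) g) := by
    have e1 : ∀ (n : ℤ), n • c = 0 ∨ n • c = c := by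
      intro n
      rcases Int.even_or_odd n with ⟨n', hn'⟩ | ⟨n', hn'⟩
      · left
        have : n • c = n' • ((2 : ℤ) • c) := by rw [hn']; module
        rw [this, h2, smul_zero]
      · right
        have : n • c = n' • ((2 : ℤ) • c) + c := by rw [hn']; module
        rw [this, h2, smul_zero, zero_add]
    -- `δ y x ≡ c` modulo fixed elements
    have e2 : ∀ k, F.act k (c - F.δ (x 1) (x 0)) = c - F.δ (x 1) (x 0) := by
      intro k
      rw [F.δ_swap, ← hc]
      have h6 : c - -(F.act ((x 1)⁻¹ * x 0) c) =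
          (F.act ((x 1)⁻¹ * x 0) c - c) + (2 : ℤ) • c := by module
      rw [h6, h2, add_zero, hfix]
    have hfa : ∀ a b : M, (∀ k, F.act k a = a) → (∀ k, F.act k b = b) →
        ∀ k, F.act k (a - b) = a - b := by
      intro a b ha hb k
      rw [map_sub, ha, hb]
    rcases e1 i with h1 | h1 <;> rcases e1 j with h1' | h1' <;> rw [h1] at hi <;> rw [h1'] at hj
    · exact ⟨1, by rw [F.δ_one]; exact hi, by rw [F.δ_one]; exact hj⟩
    · refine ⟨x 0, by rw [F.δ_self]; exact hi, ?_⟩
      intro k
      have h6 : v - F.δ (x 1) (x 0) = (v - c) + (c - F.δ (x 1) (x 0)) := by abel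
      rw [h6, map_add, hj, e2]
    · refine ⟨x 1, hi, ?_⟩
      rw [F.δ_self]; exact hj
    · refine ⟨x 1 * x 0, ?_, ?_⟩
      · rw [F.δ_mul, F.δ_self, map_zero, add_zero]; exact hi
      · intro k
        rw [F.δ_mul, F.δ_self, zero_add]
        have h6 : v - F.act (x 1) (F.δ (x 1) (x 0)) = (v - c) + (c - F.δ (x 1) (x 0)) -
            (F.act (x 1) (F.δ (x 1) (x 0)) - F.δ (x 1) (x 0)) := by abel
        rw [h6, map_sub, map_add, hj, e2, hfix]
  set s := u - F.δ (x 0) g with hs
  set t := v - F.δ (x 1) g with ht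
  have hcs : F.ι s ∈ center G := by
    rw [mem_center_iff]
    intro k
    exact (F.act_iff k s).1 (hg0 k)
  have hct : F.ι t ∈ center G := by
    rw [mem_center_iff]
    intro k
    exact (F.act_iff k t).1 (hg1 k)
  set b : Fin 2 → center G := ![⟨F.ι s, hcs⟩, ⟨F.ι t, hct⟩] with hb
  have hb2 : ∀ i, b i ^ (2 : ℤ) = 1 := by
    intro i
    apply Subtype.ext
    fin_cases i
    · show F.ι s ^ (2 : ℤ) = 1
      rw [← F.ι_zsmul, h2, F.ι_zero]
    · show F.ι t ^ (2 : ℤ) = 1
      rw [← F.ι_zsmul, h2, F.ι_zero]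
  have hbn : ∀ n : Fin 2 → ℤ, (∀ i, (2 : ℤ) ∣ n i) → ∏ i, b i ^ n i = 1 := by
    intro n hn
    apply Finset.prod_eq_one
    intro i _
    obtain ⟨m, hm⟩ := hn i
    rw [hm, zpow_mul, hb2, one_zpow]
  obtain ⟨f, hf1, hf2⟩ := exists_hom hx b (by
    intro n hn
    apply hbn
    intro i
    have := indep hG hr.symm hx (one_mem (frattini G)) (y := 1) (n := n) (by
      rw [map_one]; exact hn.symm) i
    exact_mod_cast this)
  have hfc : ∀ g, (f g : G) ∈ commutator G := by
    intro g
    refine closure_induct hx (P := fun g => (f g : G) ∈ commutator G) ?_ ?_ ?_ g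
    · rintro _ ⟨i, rfl⟩
      rw [hf1]
      fin_cases i
      · exact F.ι_mem s
      · exact F.ι_mem t
    · rw [map_one]; exact one_mem _
    · intro g h hg hh
      rw [map_mul]; exact mul_mem hg hh
  obtain ⟨α, hα⟩ := central_aut f hfc
  have hαc : ∀ h, IsConj h (α h) := by
    intro h
    rw [hα]
    by_cases hfr : h ∈ frattini G
    · obtain ⟨n, hn⟩ := exists_exps hx h
      have h6 : f h = 1 := by
        rw [hf2 h n hn]
        apply hbn
        intro i
        have := indep hG hr.symm hx hfr hn i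
        exact_mod_cast this
      rw [h6]
      have h7 : h * ((1 : center G) : G) = h := by simp
      rw [h7]
    · obtain ⟨w, hw⟩ := F.exists_of_mem (hfc h)
      rw [← hw]
      exact hcam h hfr w
  refine ⟨α.trans (MulAut.conj g), ?_, ?_⟩
  · intro h
    exact (hαc h).trans (isConj_iff.2 ⟨g, rfl⟩)
  · intro i
    fin_cases i
    · show g * α (x 0) * g⁻¹ = x 0 * a 0
      have h6 : (f (x 0) : G) = F.ι s := by rw [hf1]; rfl
      have h7 : g * (x 0 * F.ι s) * g⁻¹ = (g * x 0 * g⁻¹) * (g * F.ι s * g⁻¹) := by group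
      rw [hα, h6, h7, F.δ_conj, F.act_spec, hg0, mul_assoc, ← F.ι_add, ← hu]
      congr 2
      rw [hs]; abel
    · show g * α (x 1) * g⁻¹ = x 1 * a 1
      have h6 : (f (x 1) : G) = F.ι t := by rw [hf1]; rfl
      have h7 : g * (x 1 * F.ι t) * g⁻¹ = (g * x 1 * g⁻¹) * (g * F.ι t * g⁻¹) := by group
      rw [hα, h6, h7, F.δ_conj, F.act_spec, hg1, mul_assoc, ← F.ι_add, ← hv]
      congr 2
      rw [ht]; abel

end

end Pool.Agent.TH79.CA
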