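import Pool.Agent.TH79.CA.Reduce

/-!
# The class two case in terms of quotients
-/

namespace Pool.Agent.TH79.CA

open Subgroup
open scoped commutatorElement

universe u

variable {G : Type u} [Group G]

theorem mem_frattini_of_quot {N : Subgroup G} [N.Normal] (hN : N ≤ frattini G) {x : G}
    (hx : QuotientGroup.mk' N x ∈ frattini (G ⧸ N)) : x ∈ frattini G := by
  have hs := QuotientGroup.mk'_surjective N
  have key : ∀ M : Subgroup G, IsCoatom M → x ∈ M := by
    intro M hM
    have hNM : N ≤ M := hN.trans (frattini_le_coatom hM)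
    have hc : (M.map (QuotientGroup.mk' N)).comap (QuotientGroup.mk' N) = M := by
      rw [comap_map_eq, QuotientGroup.ker_mk', sup_eq_left]
      exact hNM
    have hco : IsCoatom (M.map (QuotientGroup.mk' N)) := by
      refine ⟨fun h => hM.1 ?_, fun K hK => ?_⟩
      · rw [← hc, h, comap_top]
      · have h1 : M < K.comap (QuotientGroup.mk' N) := by
          rw [← hc]
          exact (comap_lt_comap_of_surjective hs).2 hK
        have h2 := hM.2 _ h1
        rw [← map_comap_eq_self_of_surjective hs K, h2, map_top_of_surjective _ hs]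
    have h3 := frattini_le_coatom hco hx
    have h4 : x ∈ (M.map (QuotientGroup.mk' N)).comap (QuotientGroup.mk' N) := h3
    rwa [hc] at h4
  simp only [frattini, Order.radical, mem_iInf]
  exact key

theorem class_two_iff {p : ℕ} [hp : Fact p.Prime] [Finite G] (hG : IsPGroup p G)
    (hcen : commutator G ≤ center G) :
    (∀ x, x ∉ frattini G → ∀ c ∈ commutator G, IsConj x (x * c)) ↔
      ∀ (N : Subgroup G) [N.Normal], N < commutator G →
        (∀ K : Subgroup G, N < K → K ≤ commutator G → K = commutator G) →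
          center (G ⧸ N) ≤ frattini (G ⧸ N) := by
  have hfr := commutator_le_frattini' hG
  constructor
  · intro h N _ hN _ q hq
    obtain ⟨x, rfl⟩ := QuotientGroup.mk'_surjective N q
    by_contra hcon
    have hx : x ∉ frattini G := fun hx => hcon
      (frattini_le_comap_frattini_of_surjective (QuotientGroup.mk'_surjective N) hx)
    obtain ⟨c, hc, hcN⟩ := Set.exists_of_ssubset hN
    obtain ⟨t, ht⟩ := isConj_iff.1 (h x hx c hc)
    have h1 := congrArg (QuotientGroup.mk' N) ht
    rw [map_mul, map_mul, map_mul, mem_center_iff.1 hq, map_inv, mul_inv_cancel_right] at h1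
    exact hcN ((QuotientGroup.eq_one_iff c).1 (left_eq_mul.1 h1))
  · intro h x hx
    let S : Subgroup G :=
      { carrier := {s | ∃ t, s = x⁻¹ * t * x * t⁻¹}
        mul_mem' := by
          rintro _ _ ⟨t, rfl⟩ ⟨s, rfl⟩
          refine ⟨t * s, ?_⟩
          have h1 : x⁻¹ * s * x * s⁻¹ ∈ center G := hcen (Fr.mem_comm x s)
          have h2 := mem_center_iff.1 h1 t
          calc x⁻¹ * t * x * t⁻¹ * (x⁻¹ * s * x * s⁻¹)
              = x⁻¹ * t * x * t⁻¹ * ((x⁻¹ * s * x * s⁻¹) * t) * t⁻¹ := by group
            _ = x⁻¹ * t * x * t⁻¹ * (t * (x⁻¹ * s * x * s⁻¹)) * t⁻¹ := by rw [h2]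
            _ = x⁻¹ * (t * s) * x * (t * s)⁻¹ := by group
        one_mem' := ⟨1, by group⟩
        inv_mem' := by
          rintro _ ⟨t, rfl⟩
          refine ⟨t⁻¹, ?_⟩
          have h1 : x⁻¹ * t⁻¹ * x * t ∈ center G := by
            have := hcen (Fr.mem_comm x t⁻¹)
            rwa [inv_inv] at this
          have h2 := mem_center_iff.1 h1 t
          calc (x⁻¹ * t * x * t⁻¹)⁻¹ = t * (x⁻¹ * t⁻¹ * x * t) * t⁻¹ := by group
            _ = (x⁻¹ * t⁻¹ * x * t) * t * t⁻¹ := by rw [h2]
            _ = x⁻¹ * t⁻¹ * x * t⁻¹⁻¹ := by group }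
    have hS : S ≤ commutator G := by
      rintro _ ⟨t, rfl⟩
      exact Fr.mem_comm x t
    have hSeq : S = commutator G := by
      by_contra hne
      have hlt : S < commutator G := lt_of_le_of_ne hS hne
      obtain ⟨N, hN⟩ := (Set.toFinite {N : Subgroup G | S ≤ N ∧ N < commutator G}).exists_maximal
        ⟨S, le_rfl, hlt⟩
      have hN1 : S ≤ N := hN.1.1
      have hN2 : N < commutator G := hN.1.2
      haveI : N.Normal := by
        constructor
        intro n hn g
        rw [mem_center_iff.1 (hcen (hN2.le hn)) g, mul_inv_cancel_right]; exact hn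
      have h1 := h N hN2 (by
        intro K hK hKle
        by_contra hKne
        have h2 := hN.2 (y := K) ⟨hN1.trans hK.le, lt_of_le_of_ne hKle hKne⟩ hK.le
        exact absurd (lt_of_lt_of_le hK h2) (lt_irrefl _))
      apply hx
      apply mem_frattini_of_quot (N := N) (hN2.le.trans hfr)
      apply h1
      rw [mem_center_iff]
      intro q
      obtain ⟨t, rfl⟩ := QuotientGroup.mk'_surjective N q
      rw [← map_mul, ← map_mul, QuotientGroup.mk'_eq_mk']
      exact ⟨x⁻¹ * t⁻¹ * x * t⁻¹⁻¹, hN1 ⟨t⁻¹, rfl⟩, by group⟩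
    intro c hc
    rw [← hSeq] at hc
    obtain ⟨t, ht⟩ := hc
    refine isConj_iff.2 ⟨t, ?_⟩
    rw [ht]; group

end Pool.Agent.TH79.CA
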