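import Mathlib

/-!
# Class-preserving automorphisms: basic lemmas
-/

namespace Pool.Agent.TH79.CA

open Subgroup
open scoped commutatorElement

/-- The group of class-preserving automorphisms of `G`. -/
def autC (G : Type*) [Group G] : Subgroup (MulAut G) where
  carrier := {α | ∀ x, IsConj x (α x)}
  mul_mem' := by
    intro a b ha hb x
    exact (hb x).trans (ha (b x))
  one_mem' := fun x => IsConj.refl x
  inv_mem' := by
    intro a ha x
    have := ha (a⁻¹ x)
    have h2 : a (a⁻¹ x) = x := by
      rw [← MulAut.mul_apply, mul_inv_cancel, MulAut.one_apply]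
    rw [h2] at this
    exact this.symm

theorem mem_autC {G : Type*} [Group G] {α : MulAut G} : α ∈ autC G ↔ ∀ x, IsConj x (α x) :=
  Iff.rfl

variable {G : Type*} [Group G]

theorem conj_quot_mem (x y : G) (h : IsConj x y) : x⁻¹ * y ∈ commutator G := by
  obtain ⟨g, hg⟩ := isConj_iff.1 h
  have : x⁻¹ * y = ⁅x⁻¹, g⁆ := by
    rw [← hg, commutatorElement_def]; group
  rw [this]
  exact commutator_mem_commutator (mem_top _) (mem_top _)

/-- The extension property for `d`-tuples. -/
def EE (G : Type*) [Group G] (d : ℕ) : Prop :=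
  ∀ x : Fin d → G, Subgroup.closure (Set.range x) = ⊤ →
    ∀ a : Fin d → G, (∀ i, a i ∈ commutator G) →
      ∃ α : G ≃* G, (∀ g, IsConj g (α g)) ∧ ∀ i, α (x i) = x i * a i

/-- evaluation on a tuple -/
noncomputable def ev {d : ℕ} (x : Fin d → G) (α : autC G) : Fin d → commutator G :=
  fun i => ⟨(x i)⁻¹ * α.1 (x i), conj_quot_mem _ _ (α.2 (x i))⟩

theorem ev_injective {d : ℕ} (x : Fin d → G) (hx : Subgroup.closure (Set.range x) = ⊤) :
    Function.Injective (ev x) := by
  intro α β h
  have h1 : ∀ i, α.1 (x i) = β.1 (x i) := by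
    intro i
    have := congrFun h i
    simp only [ev, Subtype.mk.injEq] at this
    exact mul_left_cancel this
  apply Subtype.ext
  have h2 : (α.1 : G ≃* G).toMonoidHom = (β.1 : G ≃* G).toMonoidHom := by
    apply MonoidHom.eq_of_eqOn_dense hx
    rintro _ ⟨i, rfl⟩
    exact h1 i
  ext g
  exact DFunLike.congr_fun h2 g

theorem card_pow {d : ℕ} : Nat.card (Fin d → commutator G) = Nat.card (commutator G) ^ d := by
  rw [Nat.card_fun, Nat.card_fin]

theorem EE_of_card [Finite G] {d : ℕ}
    (h : Nat.card (autC G) = Nat.card (commutator G) ^ d) : EE G d := by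
  intro x hx a ha
  have hinj := ev_injective x hx
  have hbij : Function.Bijective (ev x) := by
    rw [Nat.bijective_iff_injective_and_card]
    exact ⟨hinj, by rw [h, card_pow]⟩
  obtain ⟨α, hα⟩ := hbij.2 (fun i => ⟨a i, ha i⟩)
  refine ⟨α.1, α.2, fun i => ?_⟩
  have := congrFun hα i
  simp only [ev, Subtype.mk.injEq] at this
  rw [← this]; group

theorem card_of_tuple [Finite G] {d : ℕ} (x : Fin d → G)
    (hx : Subgroup.closure (Set.range x) = ⊤)
    (h : ∀ a : Fin d → G, (∀ i, a i ∈ commutator G) →
      ∃ α : G ≃* G, (∀ g, IsConj g (α g)) ∧ ∀ i, α (x i) = x i * a i) :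
    Nat.card (autC G) = Nat.card (commutator G) ^ d := by
  have hinj := ev_injective x hx
  have hbij : Function.Bijective (ev x) := by
    refine ⟨hinj, fun a => ?_⟩
    obtain ⟨α, h1, h2⟩ := h (fun i => (a i).1) (fun i => (a i).2)
    refine ⟨⟨α, h1⟩, ?_⟩
    funext i
    apply Subtype.ext
    simp only [ev]
    rw [h2]; group
  rw [← card_pow]
  exact Nat.card_congr (Equiv.ofBijective _ hbij)

/-- existence of generating tuples -/
theorem exists_tuple [Group.FG G] : ∃ x : Fin (Group.rank G) → G,
    Subgroup.closure (Set.range x) = ⊤ := by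
  obtain ⟨S, hS, hS2⟩ := Group.rank_spec G
  have e : Fin (Group.rank G) ≃ S := (finCongr hS.symm).trans S.equivFin.symm
  refine ⟨fun i => (e i : G), ?_⟩
  rw [← hS2]
  congr 1
  ext g
  constructor
  · rintro ⟨i, rfl⟩
    exact (e i).2
  · intro hg
    exact ⟨e.symm ⟨g, hg⟩, by simp⟩

/-! ### Frattini facts for `p`-groups -/

section Frattini

variable {p : ℕ} [hp : Fact p.Prime] [Finite G]

theorem coatom_normal (hG : IsPGroup p G) {M : Subgroup G} (hM : IsCoatom M) : M.Normal := by
  haveI := hG.isNilpotent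
  exact Subgroup.NormalizerCondition.normal_of_coatom M
    Group.normalizerCondition_of_isNilpotent hM

omit [Finite G] in
theorem pow_coprime_mem {H : Subgroup G} (hG : IsPGroup p G) {g : G} {n : ℤ}
    (hn : ¬ (p : ℤ) ∣ n) (h : g ^ n ∈ H) : g ∈ H := by
  obtain ⟨k, hk⟩ := hG g
  have hco : IsCoprime n ((p : ℤ) ^ k) := by
    apply IsCoprime.pow_right
    rw [Int.isCoprime_iff_gcd_eq_one, Int.gcd_comm]
    have := (Nat.Prime.coprime_iff_not_dvd hp.out (n := n.natAbs)).2
      (by rwa [← Int.natCast_dvd])
    rw [Int.gcd_eq_natAbs]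
    simpa using this
  obtain ⟨a, b, hab⟩ := hco
  have : g = (g ^ n) ^ a * (g ^ (p ^ k)) ^ b := by
    have h1 : g ^ (n * a + (p : ℤ) ^ k * b) = g := by
      rw [show n * a + (p : ℤ) ^ k * b = a * n + b * (p : ℤ) ^ k by ring, hab, zpow_one]
    rw [zpow_add, zpow_mul, zpow_mul] at h1
    rw [← zpow_natCast g (p ^ k)]
    push_cast
    exact h1.symm
  rw [this, hk, one_zpow, mul_one]
  exact H.zpow_mem h a

theorem coatom_facts (hG : IsPGroup p G) {M : Subgroup G} (hM : IsCoatom M) :
    commutator G ≤ M ∧ ∀ g : G, g ^ p ∈ M := by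
  haveI hn : M.Normal := coatom_normal hG hM
  haveI : Nontrivial (G ⧸ M) := by
    rw [QuotientGroup.nontrivial_iff]
    exact hM.1
  have hQ : IsPGroup p (G ⧸ M) := hG.to_quotient M
  have hsimple : ∀ K : Subgroup (G ⧸ M), K ≠ ⊥ → K = ⊤ := by
    intro K hK
    have h1 : M ≤ K.comap (QuotientGroup.mk' M) := by
      intro m hm
      rw [mem_comap]
      have : (QuotientGroup.mk' M) m = 1 := (QuotientGroup.eq_one_iff m).2 hm
      rw [this]; exact K.one_mem
    rcases h1.eq_or_lt with h | h
    · exfalso
      apply hK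
      rw [eq_bot_iff]
      intro q hq
      obtain ⟨g, rfl⟩ := QuotientGroup.mk'_surjective M q
      have : g ∈ K.comap (QuotientGroup.mk' M) := hq
      rw [← h] at this
      rw [mem_bot]
      exact (QuotientGroup.eq_one_iff g).2 this
    · have h2 := hM.2 _ h
      rw [eq_top_iff]
      intro q _
      obtain ⟨g, rfl⟩ := QuotientGroup.mk'_surjective M q
      have : g ∈ K.comap (QuotientGroup.mk' M) := by rw [h2]; trivial
      exact this
  constructor
  · have hc : Subgroup.center (G ⧸ M) = ⊤ := hsimple _ (hQ.bot_lt_center).ne'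
    rw [← Subgroup.Normal.quotient_commutative_iff_commutator_le]
    refine ⟨⟨fun a b => ?_⟩⟩
    have : a ∈ Subgroup.center (G ⧸ M) := by rw [hc]; trivial
    exact (Subgroup.mem_center_iff.1 this b).symm
  · intro g
    by_contra hg
    have h1 : (QuotientGroup.mk' M g) ^ p ≠ 1 := by
      rw [← map_pow]
      intro h
      exact hg ((QuotientGroup.eq_one_iff _).1 h)
    have h2 : Subgroup.zpowers ((QuotientGroup.mk' M g) ^ p) = ⊤ := by
      apply hsimple
      rw [Ne, Subgroup.zpowers_eq_bot]
      exact h1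
    have h3 : QuotientGroup.mk' M g ∈ Subgroup.zpowers ((QuotientGroup.mk' M g) ^ p) := by
      rw [h2]; trivial
    obtain ⟨k, hk⟩ := h3
    have h4 : (QuotientGroup.mk' M g) ^ ((p : ℤ) * k - 1) ∈ (⊥ : Subgroup (G ⧸ M)) := by
      rw [mem_bot, zpow_sub, zpow_mul, zpow_natCast, zpow_one]
      rw [mul_inv_eq_one]
      exact hk
    have h5 : ¬ (p : ℤ) ∣ (p : ℤ) * k - 1 := by
      intro h
      have h6 : (p : ℤ) ∣ 1 := by
        have := dvd_sub (Dvd.intro k rfl : (p : ℤ) ∣ p * k) h
        simpa using this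
      have := Int.eq_one_of_dvd_one (by positivity) h6
      exact hp.out.one_lt.ne' (by exact_mod_cast this)
    have h6 := pow_coprime_mem hQ h5 h4
    rw [mem_bot] at h6
    rw [h6] at h1
    exact h1 (one_pow p)

theorem commutator_le_frattini' (hG : IsPGroup p G) : commutator G ≤ frattini G := by
  intro g hg
  simp only [frattini, Order.radical, mem_iInf]
  intro M hM
  exact (coatom_facts hG hM).1 hg

theorem pow_mem_frattini (hG : IsPGroup p G) (g : G) : g ^ p ∈ frattini G := by
  simp only [frattini, Order.radical, mem_iInf]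
  intro M hM
  exact (coatom_facts hG hM).2 g

theorem nongen {K : Subgroup G} (h : K ⊔ frattini G = ⊤) : K = ⊤ := frattini_nongenerating h

/-! ### Generating tuples -/

omit [Finite G] hp in
theorem exists_exps {d : ℕ} {x : Fin d → G} (hx : Subgroup.closure (Set.range x) = ⊤) (g : G) :
    ∃ n : Fin d → ℤ, Abelianization.of g = ∏ j, Abelianization.of (x j) ^ n j := by
  have h : Abelianization.of g ∈
      Subgroup.closure (Set.range (fun j => (Abelianization.of (x j) : Abelianization G))) := by
    have h1 : (Set.range (fun j => (Abelianization.of (x j) : Abelianization G)))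
        = Abelianization.of '' (Set.range x) := by
      rw [← Set.range_comp]; rfl
    rw [h1, ← MonoidHom.map_closure, hx]
    exact ⟨g, trivial, rfl⟩
  exact Subgroup.exists_of_mem_closure_range _ _ h

omit [Finite G] hp in
theorem of_eq_iff {g h : G} :
    (Abelianization.of g : Abelianization G) = Abelianization.of h ↔ g⁻¹ * h ∈ commutator G := by
  rw [← Abelianization.ker_of G, MonoidHom.mem_ker, map_mul, map_inv, inv_mul_eq_one]

omit [Finite G] hp in
theorem mem_of_of_mem {L : Subgroup G} (hL : commutator G ≤ L) {g : G}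
    (h : Abelianization.of g ∈ L.map Abelianization.of) : g ∈ L := by
  obtain ⟨l, hl, e⟩ := h
  have := of_eq_iff.1 e
  have h2 : g = l * (l⁻¹ * g) := by group
  rw [h2]
  exact L.mul_mem hl (hL this)

theorem gen_of_sup (hG : IsPGroup p G) {K : Subgroup G} (h : K ⊔ commutator G = ⊤) : K = ⊤ := by
  apply nongen
  rw [eq_top_iff, ← h]
  exact sup_le_sup_left (commutator_le_frattini' hG) K

theorem gen_replace (hG : IsPGroup p G) {d : ℕ} {x : Fin d → G}
    (hx : Subgroup.closure (Set.range x) = ⊤) {i : Fin d} {y : G} {n : Fin d → ℤ}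
    (hy : Abelianization.of y = ∏ j, Abelianization.of (x j) ^ n j)
    (hn : ¬ (p : ℤ) ∣ n i) :
    Subgroup.closure (Set.range (Function.update x i y)) = ⊤ := by
  set K := Subgroup.closure (Set.range (Function.update x i y)) with hK
  apply gen_of_sup hG
  set L := K ⊔ commutator G with hL
  have hcL : commutator G ≤ L := le_sup_right
  have hKL : K ≤ L := le_sup_left
  have hyL : y ∈ L := hKL (Subgroup.subset_closure ⟨i, by simp⟩)
  have hxL : ∀ j, j ≠ i → x j ∈ L := fun j hj =>
    hKL (Subgroup.subset_closure ⟨j, by simp [hj]⟩)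
  have hxi : x i ∈ L := by
    apply pow_coprime_mem hG hn
    apply mem_of_of_mem hcL
    rw [← Finset.mul_prod_erase Finset.univ _ (Finset.mem_univ i)] at hy
    rw [map_zpow, eq_mul_inv_iff_mul_eq.2 hy.symm]
    apply Subgroup.mul_mem
    · exact Subgroup.mem_map_of_mem _ hyL
    · apply Subgroup.inv_mem
      apply Subgroup.prod_mem
      intro j hj
      apply Subgroup.zpow_mem
      exact Subgroup.mem_map_of_mem _ (hxL j (Finset.ne_of_mem_erase hj))
  rw [eq_top_iff, ← hx, Subgroup.closure_le]
  rintro _ ⟨j, rfl⟩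
  by_cases hj : j = i
  · rw [hj]; exact hxi
  · exact hxL j hj

theorem mem_frattini_of_exps (hG : IsPGroup p G) {d : ℕ} {x : Fin d → G} {y : G} {n : Fin d → ℤ}
    (hy : Abelianization.of y = ∏ j, Abelianization.of (x j) ^ n j)
    (hn : ∀ i, (p : ℤ) ∣ n i) : ∃ h : G, Abelianization.of y = Abelianization.of h ^ p ∧
      y ∈ frattini G := by
  choose m hm using hn
  obtain ⟨h, hh⟩ : ∃ h : G, Abelianization.of h = ∏ j, Abelianization.of (x j) ^ m j :=
    QuotientGroup.mk_surjective _
  have e : Abelianization.of y = Abelianization.of h ^ p := by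
    rw [hy, hh, ← Finset.prod_pow]
    apply Finset.prod_congr rfl
    intro j _
    rw [hm j, mul_comm, zpow_mul, zpow_natCast]
  refine ⟨h, e, ?_⟩
  rw [← map_pow] at e
  have h2 := of_eq_iff.1 e.symm
  have h3 : y = h ^ p * ((h ^ p)⁻¹ * y) := by group
  rw [h3]
  exact (frattini G).mul_mem (pow_mem_frattini hG h) (commutator_le_frattini' hG h2)

theorem extend_tuple (hG : IsPGroup p G) {d : ℕ} {x : Fin d → G}
    (hx : Subgroup.closure (Set.range x) = ⊤) {y : G} (hy : y ∉ frattini G) :
    ∃ i, Subgroup.closure (Set.range (Function.update x i y)) = ⊤ := by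
  obtain ⟨n, hn⟩ := exists_exps hx y
  by_contra hcon
  push Not at hcon
  apply hy
  obtain ⟨_, _, h⟩ := mem_frattini_of_exps hG hn (fun i => by
    by_contra hi
    exact hcon i (gen_replace hG hx hn hi))
  exact h

theorem indep (hG : IsPGroup p G) {d : ℕ} (hd : d = Group.rank G) {x : Fin d → G}
    (hx : Subgroup.closure (Set.range x) = ⊤) {y : G} (hy : y ∈ frattini G) {n : Fin d → ℤ}
    (hn : Abelianization.of y = ∏ j, Abelianization.of (x j) ^ n j) (i : Fin d) :
    (p : ℤ) ∣ n i := by
  classical
  by_contra hi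
  have h1 := gen_replace hG hx hn hi
  set S : Finset G := (Finset.univ.erase i).image x with hS
  have h2 : Subgroup.closure (S : Set G) = ⊤ := by
    apply nongen
    rw [eq_top_iff, ← h1, Subgroup.closure_le]
    rintro _ ⟨j, rfl⟩
    by_cases hj : j = i
    · rw [hj, Function.update_self]
      exact (le_sup_right : frattini G ≤ _) hy
    · rw [Function.update_of_ne hj]
      apply (le_sup_left : Subgroup.closure (S : Set G) ≤ _)
      apply Subgroup.subset_closure
      rw [hS]
      simp only [Finset.coe_image, Set.mem_image, Finset.mem_coe]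
      exact ⟨j, Finset.mem_erase.2 ⟨hj, Finset.mem_univ j⟩, rfl⟩
  have h3 := Group.rank_le h2
  have h4 : S.card ≤ d - 1 := by
    refine Finset.card_image_le.trans ?_
    rw [Finset.card_erase_of_mem (Finset.mem_univ i), Finset.card_univ, Fintype.card_fin]
  have h5 : 0 < d := i.pos
  omega

/-! ### Quotients -/

theorem EE_quotient (hG : IsPGroup p G) {d : ℕ} (h : EE G d) (N : Subgroup G) [N.Normal]
    (hN : N ≤ commutator G) : EE (G ⧸ N) d := by
  intro x hx a ha
  choose y hy using fun i => QuotientGroup.mk'_surjective N (x i)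
  have hy' : Subgroup.closure (Set.range y) = ⊤ := by
    apply gen_of_sup hG
    have h1 : (Subgroup.closure (Set.range y)).map (QuotientGroup.mk' N) = ⊤ := by
      rw [MonoidHom.map_closure, ← Set.range_comp, ← hx]
      congr 2
      funext i
      exact hy i
    have h2 : (Subgroup.closure (Set.range y)) ⊔ N = ⊤ := by
      have := congrArg (Subgroup.comap (QuotientGroup.mk' N)) h1
      rw [Subgroup.comap_map_eq, QuotientGroup.ker_mk', Subgroup.comap_top] at this
      exact this
    rw [eq_top_iff, ← h2]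
    exact sup_le_sup_left hN _
  have hb : ∀ i, ∃ b ∈ commutator G, QuotientGroup.mk' N b = a i := by
    intro i
    have h1 := ha i
    have h2 : commutator (G ⧸ N) = (commutator G).map (QuotientGroup.mk' N) := by
      rw [commutator_def, commutator_def, Subgroup.map_commutator,
        Subgroup.map_top_of_surjective _ (QuotientGroup.mk'_surjective N)]
    rw [h2] at h1
    exact h1
  choose b hb1 hb2 using hb
  obtain ⟨α, h1, h2⟩ := h y hy' b hb1
  have hmap : ∀ n ∈ N, α n ∈ N := by
    intro n hn
    obtain ⟨g, hg⟩ := isConj_iff.1 (h1 n)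
    rw [← hg]
    exact Subgroup.Normal.conj_mem inferInstance n hn g
  have hmap2 : N.map (α : G →* G) = N := by
    apply Subgroup.eq_of_le_of_card_ge
    · rintro _ ⟨n, hn, rfl⟩
      exact hmap n hn
    · rw [Subgroup.card_map_of_injective α.injective]
  refine ⟨QuotientGroup.congr N N α hmap2, ?_, ?_⟩
  · intro q
    obtain ⟨g, rfl⟩ := QuotientGroup.mk'_surjective N q
    obtain ⟨k, hk⟩ := isConj_iff.1 (h1 g)
    refine isConj_iff.2 ⟨QuotientGroup.mk' N k, ?_⟩
    rw [← map_mul, ← map_inv, ← map_mul, hk]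
    rfl
  · intro i
    rw [← hy i, ← hb2 i, ← map_mul, ← h2 i]
    rfl

end Frattini

end Pool.Agent.TH79.CA
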