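import Pool.Agent.TH79.CA.ClassThree

/-!
# Class four is impossible for `p = 2`
-/

namespace Pool.Agent.TH79.CA

open Subgroup
open scoped commutatorElement

universe u v

namespace Fr

variable {G : Type u} {M : Type v} [Group G] [AddCommGroup M] (F : Fr G M)

include F in
theorem even_of {w : M} (hG : IsPGroup 2 G) (hw : w ≠ 0) {k : ℤ} (h : k • w = 0) :
    (2 : ℤ) ∣ k := by
  haveI : Fact (Nat.Prime 2) := ⟨Nat.prime_two⟩
  by_contra hk
  exact hw (F.smul_cancel hG (p := 2) (by exact_mod_cast hk) h)

theorem even_kill {w : M} (h2 : (2 : ℤ) • w = 0) {k : ℤ} (h : (2 : ℤ) ∣ k) : k • w = 0 := by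
  obtain ⟨m, rfl⟩ := h
  rw [mul_comm, mul_smul, h2, smul_zero]

section forms

variable [Finite G] (hG : IsPGroup 2 G) (hE : EE G 2) {x y : G} (hxy : closure {x, y} = ⊤)
  {c z1 z2 w : M} (hc : F.δ x y = c) (hw : w ≠ 0) (h2w : (2 : ℤ) • w = 0)
  (hwf : ∀ g, F.act g w = w) (hXc : F.act x c = c + z1) (hYc : F.act y c = c + z2)
  {e : ℤ} (h2c : (2 : ℤ) • c = e • w) (h2z1 : (2 : ℤ) • z1 = 0) (h2z2 : (2 : ℤ) • z2 = 0)

include hG hE hxy hc hw h2w hwf hXc hYc h2z1 h2z2

theorem formA (h11 : F.act x z1 = z1) (h12 : F.act y z1 = z1 + w) (h21 : F.act x z2 = z2 + w)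
    (h22 : F.act y z2 = z2) : False := by
  obtain ⟨α, h1, h3, h4⟩ := hE.pair hxy (F.ι_mem z1) (one_mem (commutator G))
  rw [mul_one] at h4
  obtain ⟨g, hg⟩ := isConj_iff.1 (h1 (F.ι c))
  have h5 : F.act g c = c + w := by
    apply F.inj
    rw [← F.act_spec, hg]
    have := F.map_δ (α : G →* G) x y
    change α (F.ι (F.δ x y)) = F.ι (F.δ (α x) (α y)) at this
    rw [h3, h4, F.δ_mul_left, hc, h12] at this
    rw [this]; congr 1; abel
  have hP : ∃ i j : ℤ, F.act g c = c + i • z1 + j • z2 + (i * j) • w ∧
      F.act g z1 = z1 + j • w ∧ F.act g z2 = z2 + i • w := by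
    refine closure_induct hxy (P := fun g => ∃ i j : ℤ,
      F.act g c = c + i • z1 + j • z2 + (i * j) • w ∧
      F.act g z1 = z1 + j • w ∧ F.act g z2 = z2 + i • w) ?_ ?_ ?_ g
    · rintro g (rfl | rfl)
      · exact ⟨1, 0, by simp [hXc], by simp [h11], by simp [h21]⟩
      · exact ⟨0, 1, by simp [hYc], by simp [h12], by simp [h22]⟩
    · exact ⟨0, 0, by simp, by simp, by simp⟩
    · rintro g h ⟨i, j, e1, e2, e3⟩ ⟨i', j', f1, f2, f3⟩
      refine ⟨i + i', j + j', ?_, ?_, ?_⟩
      · rw [F.act_mul, f1, map_add, map_add, map_add, map_zsmul, map_zsmul, map_zsmul, e1, e2, e3,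
          hwf]
        module
      · rw [F.act_mul, f2, map_add, map_zsmul, e2, hwf]
        module
      · rw [F.act_mul, f3, map_add, map_zsmul, e3, hwf]
        module
  obtain ⟨i, j, e1, -, -⟩ := hP
  rw [h5] at e1
  have e4 : w = i • z1 + j • z2 + (i * j) • w := by
    have := e1
    rw [add_assoc, add_assoc] at this
    rw [add_assoc]
    exact add_left_cancel this
  have e5 : i • w = 0 := by
    have h6 := congrArg (F.act y) e4
    rw [map_add, map_add, map_zsmul, map_zsmul, map_zsmul, hwf, h12, h22] at h6
    have h7 : i • w = (i • (z1 + w) + j • z2 + (i * j) • w) - (i • z1 + j • z2 + (i * j) • w) := by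
      module
    rw [h7, ← h6, ← e4, sub_self]
  have e6 : j • w = 0 := by
    have h6 := congrArg (F.act x) e4
    rw [map_add, map_add, map_zsmul, map_zsmul, map_zsmul, hwf, h11, h21] at h6
    have h7 : j • w = (i • z1 + j • (z2 + w) + (i * j) • w) - (i • z1 + j • z2 + (i * j) • w) := by
      module
    rw [h7, ← h6, ← e4, sub_self]
  have hi := F.even_of hG hw e5
  have hj := F.even_of hG hw e6
  rw [even_kill h2z1 hi, even_kill h2z2 hj, even_kill h2w (Dvd.dvd.mul_right hi j)] at e4
  exact hw (by simpa using e4)

include h2c in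
theorem formB (h11 : F.act x z1 = z1) (h12 : F.act y z1 = z1 + w) (h21 : F.act x z2 = z2 + w)
    (h22 : F.act y z2 = z2 + w) : False := by
  obtain ⟨α, h1, h3, h4⟩ := hE.pair hxy (one_mem (commutator G)) (F.ι_mem z2)
  rw [mul_one] at h3
  obtain ⟨g, hg⟩ := isConj_iff.1 (h1 (F.ι c * x * x))
  have h5 : α (F.ι c) = F.ι (c + w) := by
    have := F.map_δ (α : G →* G) x y
    change α (F.ι (F.δ x y)) = F.ι (F.δ (α x) (α y)) at this
    have hxinv : F.act x⁻¹ z2 = z2 - w := by
      apply F.act_inj x
      rw [F.act_act_inv, map_sub, h21, hwf]; abel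
    rw [h3, h4, F.δ_mul_right, hc, hxinv] at this
    rw [this]; congr 1
    have h6 : z2 - w - z2 = - w := by abel
    rw [h6, map_neg, hwf]
    have h7 : (2 : ℤ) • w = w + w := by module
    rw [h7] at h2w
    rw [neg_eq_of_add_eq_zero_left h2w]
  have h6 : F.act g c + F.act x (F.δ x g) + F.act x (F.act x (F.δ x g)) = c + w := by
    have h7 : g * (F.ι c * x * x) * g⁻¹ = F.ι (F.act g c) * (x * F.ι (F.δ x g)) *
        (x * F.ι (F.δ x g)) := by
      rw [← F.act_spec, ← F.δ_conj]; group
    rw [map_mul, map_mul, h5, h3, h7] at hg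
    have h8 : F.ι (F.act g c) * (x * F.ι (F.δ x g)) * (x * F.ι (F.δ x g)) =
        F.ι (F.act g c + F.act x (F.δ x g) + F.act x (F.act x (F.δ x g))) * x * x := by
      rw [F.ι_add, F.ι_add, ← F.act_spec x (F.act x (F.δ x g)), ← F.act_spec x (F.δ x g)]
      group
    rw [h8] at hg
    exact F.inj (mul_right_cancel (mul_right_cancel hg))
  have hP : ∃ i j k t l : ℤ, 2 * t = j * (j - 1) ∧
      F.δ x g = j • c + k • z1 + t • z2 + l • w ∧
      F.act g c = c + i • z1 + j • z2 + (i * j + t) • w ∧
      F.act g z1 = z1 + j • w ∧ F.act g z2 = z2 + (i + j) • w := by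
    refine closure_induct hxy (P := fun g => ∃ i j k t l : ℤ, 2 * t = j * (j - 1) ∧
      F.δ x g = j • c + k • z1 + t • z2 + l • w ∧
      F.act g c = c + i • z1 + j • z2 + (i * j + t) • w ∧
      F.act g z1 = z1 + j • w ∧ F.act g z2 = z2 + (i + j) • w) ?_ ?_ ?_ g
    · rintro g (rfl | rfl)
      · exact ⟨1, 0, 0, 0, 0, by ring, by simp [F.δ_self], by simp [hXc], by simp [h11],
          by simp [h21]⟩
      · exact ⟨0, 1, 0, 0, 0, by ring, by simp [hc], by simp [hYc], by simp [h12],
          by simp [h22]⟩
    · exact ⟨0, 0, 0, 0, 0, by ring, by simp [F.δ_one], by simp, by simp, by simp⟩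
    · rintro g h ⟨i, j, k, t, l, e0, e1, e2, e3, e4⟩ ⟨i', j', k', t', l', f0, f1, f2, f3, f4⟩
      refine ⟨i + i', j + j', k + k' + i * j', t + t' + j * j',
        l + l' + (i * j + t) * j' + k' * j + t' * (i + j), ?_, ?_, ?_, ?_, ?_⟩
      · linear_combination e0 + f0
      · rw [F.δ_mul, e1, f1, map_add, map_add, map_add, map_zsmul, map_zsmul, map_zsmul,
          map_zsmul, e2, e3, e4, hwf]
        module
      · rw [F.act_mul, f2, map_add, map_add, map_add, map_zsmul, map_zsmul, map_zsmul, e2, e3, e4,
          hwf]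
        module
      · rw [F.act_mul, f3, map_add, map_zsmul, e3, hwf]
        module
      · rw [F.act_mul, f4, map_add, map_zsmul, e4, hwf]
        module
  obtain ⟨i, j, k, t, l, e0, e1, e2, -, -⟩ := hP
  have e3 : w = (i + j) • z1 + j • z2 + (i * j + t + t + e * j) • w := by
    rw [e1, e2] at h6
    simp only [map_add, map_zsmul, hXc, h11, h21, hwf] at h6
    have h7 : c + i • z1 + j • z2 + (i * j + t) • w + (j • (c + z1) + k • z1 + t • (z2 + w) + l • w)
        + (j • (c + z1 + z1) + k • z1 + t • (z2 + w + w) + l • w)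
        = c + ((i + j) • z1 + j • z2 + (i * j + t + t + e * j) • w) +
          (j • ((2 : ℤ) • c - e • w) + (k + j) • ((2 : ℤ) • z1) + t • ((2 : ℤ) • z2) +
            (t + l) • ((2 : ℤ) • w)) := by
      module
    rw [h7, h2c, h2z1, h2z2, h2w, sub_self, smul_zero, smul_zero, smul_zero, smul_zero, add_zero,
      add_zero, add_zero, add_zero] at h6
    exact (add_left_cancel h6).symm
  have e5 : j • w = 0 := by
    have h7 := congrArg (F.act x) e3
    rw [map_add, map_add, map_zsmul, map_zsmul, map_zsmul, hwf, h11, h21] at h7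
    have h8 : j • w = ((i + j) • z1 + j • (z2 + w) + (i * j + t + t + e * j) • w) -
        ((i + j) • z1 + j • z2 + (i * j + t + t + e * j) • w) := by
      module
    rw [h8, ← h7, ← e3, sub_self]
  have e6 : (i + j + j) • w = 0 := by
    have h7 := congrArg (F.act y) e3
    rw [map_add, map_add, map_zsmul, map_zsmul, map_zsmul, hwf, h12, h22] at h7
    have h8 : (i + j + j) • w =
        ((i + j) • (z1 + w) + j • (z2 + w) + (i * j + t + t + e * j) • w) -
        ((i + j) • z1 + j • z2 + (i * j + t + t + e * j) • w) := by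
      module
    rw [h8, ← h7, ← e3, sub_self]
  have hj := F.even_of hG hw e5
  have hij := F.even_of hG hw e6
  have hi : (2 : ℤ) ∣ i := by omega
  have hk : (2 : ℤ) ∣ i * j + t + t + e * j := by
    have h9 : (2 : ℤ) ∣ i * j := Dvd.dvd.mul_right hi j
    have h10 : (2 : ℤ) ∣ e * j := Dvd.dvd.mul_left hj e
    omega
  rw [even_kill h2z1 (by omega : (2 : ℤ) ∣ i + j), even_kill h2z2 hj, even_kill h2w hk] at e3
  exact hw (by simpa using e3)

include h2c in
theorem formC (h11 : F.act x z1 = z1) (h12 : F.act y z1 = z1) (h21 : F.act x z2 = z2)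
    (h22 : F.act y z2 = z2 + w) (hz1w : z1 ≠ w) : False := by
  obtain ⟨g, hg⟩ := F.cam hE hxy w
  have hP : ∃ i j k t r : ℤ, 2 * t = j * (j - 1) ∧ 6 * r = j * (j - 1) * (j - 2) ∧
      F.δ x g = j • c + k • z1 + t • z2 + r • w ∧
      F.act g c = c + i • z1 + j • z2 + t • w ∧
      F.act g z1 = z1 ∧ F.act g z2 = z2 + j • w := by
    refine closure_induct hxy (P := fun g => ∃ i j k t r : ℤ, 2 * t = j * (j - 1) ∧
      6 * r = j * (j - 1) * (j - 2) ∧
      F.δ x g = j • c + k • z1 + t • z2 + r • w ∧
      F.act g c = c + i • z1 + j • z2 + t • w ∧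
      F.act g z1 = z1 ∧ F.act g z2 = z2 + j • w) ?_ ?_ ?_ g
    · rintro g (rfl | rfl)
      · exact ⟨1, 0, 0, 0, 0, by ring, by ring, by simp [F.δ_self], by simp [hXc], by simp [h11],
          by simp [h21]⟩
      · exact ⟨0, 1, 0, 0, 0, by ring, by ring, by simp [hc], by simp [hYc], by simp [h12],
          by simp [h22]⟩
    · exact ⟨0, 0, 0, 0, 0, by ring, by ring, by simp [F.δ_one], by simp, by simp, by simp⟩
    · rintro g h ⟨i, j, k, t, r, e0, e00, e1, e2, e3, e4⟩
        ⟨i', j', k', t', r', f0, f00, f1, f2, f3, f4⟩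
      refine ⟨i + i', j + j', k + k' + i * j', t + t' + j * j',
        r + r' + t * j' + t' * j, ?_, ?_, ?_, ?_, ?_, ?_⟩
      · linear_combination e0 + f0
      · linear_combination e00 + f00 + 3 * j' * e0 + 3 * j * f0
      · rw [F.δ_mul, e1, f1, map_add, map_add, map_add, map_zsmul, map_zsmul, map_zsmul,
          map_zsmul, e2, e3, e4, hwf]
        module
      · rw [F.act_mul, f2, map_add, map_add, map_add, map_zsmul, map_zsmul, map_zsmul, e2, e3, e4,
          hwf]
        module
      · rw [F.act_mul, f3, e3]
      · rw [F.act_mul, f4, map_add, map_zsmul, e4, hwf]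
        module
  obtain ⟨i, j, k, t, r, e0, e00, e1, -, -, -⟩ := hP
  rw [hg] at e1
  have e2 : j • z2 + t • w = 0 := by
    have h7 := congrArg (F.act y) e1
    rw [map_add, map_add, map_add, map_zsmul, map_zsmul, map_zsmul, map_zsmul, hwf, h12, h22,
      hYc] at h7
    have h8 : j • z2 + t • w = (j • (c + z2) + k • z1 + t • (z2 + w) + r • w) -
        (j • c + k • z1 + t • z2 + r • w) := by
      module
    rw [h8, ← h7, ← e1, sub_self]
  have e3 : j • w = 0 := by
    have h7 := congrArg (F.act y) e2
    rw [map_add, map_zsmul, map_zsmul, hwf, h22, map_zero] at h7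
    have h8 : j • w = (j • (z2 + w) + t • w) - (j • z2 + t • w) := by
      module
    rw [h8, h7, e2, sub_self]
  have hj := F.even_of hG hw e3
  rw [even_kill h2z2 hj, zero_add] at e2
  have ht := F.even_of hG hw e2
  obtain ⟨j', rfl⟩ := hj
  have ht2 : t = j' * (2 * j' - 1) := by
    have : (2 : ℤ) * t = 2 * (j' * (2 * j' - 1)) := by rw [e0]; ring
    exact mul_left_cancel₀ (by norm_num) this
  have hj' : (2 : ℤ) ∣ j' := by
    rw [ht2] at ht
    rcases Int.prime_two.dvd_or_dvd ht with h | h
    · exact h
    · omega
  obtain ⟨m, rfl⟩ := hj'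
  have hr : (2 : ℤ) ∣ r := by
    have h9 : 3 * r = 2 * (2 * m * (4 * m - 1) * (2 * m - 1)) := by
      have : (2 : ℤ) * (3 * r) = 2 * (2 * (2 * m * (4 * m - 1) * (2 * m - 1))) := by
        linear_combination e00
      exact mul_left_cancel₀ (by norm_num) this
    have h10 : (2 : ℤ) ∣ 3 * r := Dvd.intro _ h9.symm
    omega
  have hjc : (2 * (2 * m)) • c = 0 := by
    have : (2 * (2 * m)) • c = (2 * m) • ((2 : ℤ) • c) := by module
    rw [this, h2c, smul_smul, mul_assoc, even_kill h2w (Dvd.intro _ rfl)]
  rw [hjc, even_kill h2z2 ht, even_kill h2w hr, zero_add, add_zero, add_zero] at e1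
  rcases Int.even_or_odd k with ⟨k', hk'⟩ | ⟨k', hk'⟩
  · rw [even_kill h2z1 (by omega : (2 : ℤ) ∣ k)] at e1
    exact hw e1
  · apply hz1w
    rw [hk', add_smul, one_smul, even_kill h2z1 (by omega : (2 : ℤ) ∣ 2 * k'), zero_add] at e1
    exact e1.symm

end forms

/-- second difference -/
def β (c : M) (g h : G) : M := F.act h (F.act g c - c) - (F.act g c - c)

theorem β_eq (c : M) (g h : G) :
    F.β c g h = F.act h (F.act g c) - F.act g c - F.act h c + c := by
  unfold β
  rw [map_sub]; abel

theorem β_comm (c : M) (g h : G) : F.β c g h = F.β c h g := by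
  rw [F.β_eq, F.β_eq, F.act_comm]; abel

theorem β_act (c : M) (k g h : G) : F.β (F.act k c) g h = F.act k (F.β c g h) := by
  rw [F.β_eq, F.β_eq, map_add, map_sub, map_sub, F.act_comm g k, F.act_comm h k, F.act_comm h k]

theorem β_neg (c : M) (g h : G) : F.β (-c) g h = - F.β c g h := by
  rw [F.β_eq, F.β_eq, map_neg, map_neg, map_neg]; abel

theorem β_mul_left {c w : M} (hcls : ∀ u g h, ∃ k : ℤ, F.β u g h = k • w)
    (hwf : ∀ g, F.act g w = w) (g g' h : G) :
    F.β c (g * g') h = F.β c g h + F.β c g' h := by
  obtain ⟨k, hk⟩ := hcls c g' h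
  have h1 : F.β c (g * g') h = F.β c g h + F.act g (F.β c g' h) := by
    rw [F.β_eq, F.β_eq, F.β_eq, F.act_mul, map_add, map_sub, map_sub, F.act_comm h g,
      F.act_comm h g]
    abel
  rw [h1, hk, map_zsmul, hwf]

/-- the conclusion: class four is impossible -/
theorem L4_frame [Finite G] (hG : IsPGroup 2 G) (hE : EE G 2) {x y : G}
    (hxy : closure {x, y} = ⊤) {w : M} (hw : w ≠ 0) (h2w : (2 : ℤ) • w = 0)
    (hwf : ∀ g, F.act g w = w) (hcls : ∀ u g h, ∃ k : ℤ, F.β u g h = k • w)
    (h2 : ∀ u : M, ∃ e : ℤ, (2 : ℤ) • u = e • w) (hne : ∃ u g h, F.β u g h ≠ 0) : False := by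
  have hpar : ∀ k : ℤ, k • w = 0 ∨ k • w = w := by
    intro k
    rcases Int.even_or_odd k with ⟨k', hk'⟩ | ⟨k', hk'⟩
    · left; exact even_kill h2w (by omega)
    · right
      rw [hk', add_smul, one_smul, even_kill h2w (by omega : (2 : ℤ) ∣ 2 * k'), zero_add]
  have hβ : ∀ u g h, F.β u g h = 0 ∨ F.β u g h = w := by
    intro u g h
    obtain ⟨k, hk⟩ := hcls u g h
    rw [hk]; exact hpar k
  have hww : w + w = 0 := by rw [← two_smul ℤ]; exact h2w
  have hnegw : -w = w := neg_eq_of_add_eq_zero_left hww
  have hz : ∀ (c : M) (g : G), (2 : ℤ) • (F.act g c - c) = 0 := by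
    intro c g
    obtain ⟨e, he⟩ := h2 c
    rw [smul_sub, ← map_zsmul, he, map_zsmul, hwf, sub_self]
  -- the three canonical forms are impossible
  have core : ∀ x y : G, closure {x, y} = ⊤ → F.β (F.δ x y) x x = 0 →
      F.β (F.δ x y) y y = w → False := by
    intro x y hxy h11 h22
    set c := F.δ x y with hc
    obtain ⟨e, he⟩ := h2 c
    have hXc : F.act x c = c + (F.act x c - c) := by abel
    have hYc : F.act y c = c + (F.act y c - c) := by abel
    have a11 : F.act x (F.act x c - c) = F.act x c - c := by
      have := h11; unfold β at this; exact sub_eq_zero.1 this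
    have a22 : F.act y (F.act y c - c) = F.act y c - c + w := by
      have := h22; unfold β at this
      rw [← this]; abel
    rcases hβ c x y with h12 | h12
    · have a12 : F.act y (F.act x c - c) = F.act x c - c := by
        have := h12; unfold β at this; exact sub_eq_zero.1 this
      have a21 : F.act x (F.act y c - c) = F.act y c - c := by
        have := h12; rw [F.β_comm] at this; unfold β at this; exact sub_eq_zero.1 this
      by_cases hz1 : F.act x c - c = w
      · -- replace `x` by `x * (y * y)`
        have hx'y : closure ({x * (y * y), y} : Set G) = ⊤ := by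
          apply closure_pair hxy
          · have h1 : x * (y * y) ∈ closure ({x * (y * y), y} : Set G) :=
              subset_closure (by simp)
            have h2 : y ∈ closure ({x * (y * y), y} : Set G) := subset_closure (by simp)
            have h4 := mul_mem h1 (inv_mem (mul_mem h2 h2))
            rwa [mul_inv_cancel_right] at h4
          · exact subset_closure (by simp)
        have hyyc : F.act (y * y) c = c + w := by
          rw [F.act_mul]
          calc F.act y (F.act y c) = F.act y (c + (F.act y c - c)) := by congr 1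
            _ = F.act y c + (F.act y c - c + w) := by rw [map_add, a22]
            _ = c + w + (2 : ℤ) • (F.act y c - c) := by module
            _ = c + w := by rw [hz c y, add_zero]
        have hyyci : F.act (y * y)⁻¹ c = c + w := by
          apply F.act_inj (y * y)
          rw [F.act_act_inv, map_add, hwf, hyyc, add_assoc, hww, add_zero]
        have hc' : F.δ (x * (y * y)) y = c + w := by
          have h0 : F.δ (y * y) y = 0 := by
            apply F.δ_eq
            rw [F.ι_zero]; group
          rw [F.δ_mul_left', h0, add_zero, hyyci]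
        have hX' : F.act (x * (y * y)) (c + w) = (c + w) + 0 := by
          rw [F.act_mul, map_add, hwf, hyyc, add_assoc, hww, add_zero, add_zero, hXc, hz1]
        have hY' : F.act y (c + w) = (c + w) + (F.act y c - c) := by
          rw [map_add, hwf]; abel
        have he' : (2 : ℤ) • (c + w) = e • w := by
          rw [smul_add, he, h2w, add_zero]
        refine F.formC hG hE hx'y hc' hw h2w hwf hX' hY' he' (smul_zero _) (hz c y)
          (map_zero _) (map_zero _) ?_ a22 hw.symm
        rw [F.act_mul, F.act_mul, a22, map_add, a22, hwf, map_add, map_add, hwf, a21]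
        rw [add_assoc, hww, add_zero]
      · exact F.formC hG hE hxy hc.symm hw h2w hwf hXc hYc he (hz c x) (hz c y) a11 a12 a21 a22 hz1
    · have a12 : F.act y (F.act x c - c) = F.act x c - c + w := by
        have := h12; unfold β at this
        rw [← this]; abel
      have a21 : F.act x (F.act y c - c) = F.act y c - c + w := by
        have := h12; rw [F.β_comm] at this; unfold β at this
        rw [← this]; abel
      exact F.formB hG hE hxy hc.symm hw h2w hwf hXc hYc he (hz c x) (hz c y) a11 a12 a21 a22
  set c := F.δ x y with hc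
  rcases hβ c x x with h11 | h11
  · rcases hβ c y y with h22 | h22
    · rcases hβ c x y with h12 | h12
      · -- all zero
        have a11 : F.act x (F.act x c - c) = F.act x c - c := by
          have := h11; unfold β at this; exact sub_eq_zero.1 this
        have a22 : F.act y (F.act y c - c) = F.act y c - c := by
          have := h22; unfold β at this; exact sub_eq_zero.1 this
        have a12 : F.act y (F.act x c - c) = F.act x c - c := by
          have := h12; unfold β at this; exact sub_eq_zero.1 this
        have a21 : F.act x (F.act y c - c) = F.act y c - c := by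
          have := h12; rw [F.β_comm] at this; unfold β at this; exact sub_eq_zero.1 this
        have hfx : ∀ g, F.act g (F.act x c - c) = F.act x c - c := by
          intro g
          refine closure_induct hxy (P := fun g => F.act g (F.act x c - c) = F.act x c - c)
            ?_ ?_ ?_ g
          · rintro g (rfl | rfl)
            · exact a11
            · exact a12
          · exact F.act_one _
          · intro g h hg hh
            rw [F.act_mul, hh, hg]
        have hfy : ∀ g, F.act g (F.act y c - c) = F.act y c - c := by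
          intro g
          refine closure_induct hxy (P := fun g => F.act g (F.act y c - c) = F.act y c - c)
            ?_ ?_ ?_ g
          · rintro g (rfl | rfl)
            · exact a21
            · exact a22
          · exact F.act_one _
          · intro g h hg hh
            rw [F.act_mul, hh, hg]
        have hgc : ∀ g, ∃ i j : ℤ, F.act g c = c + i • (F.act x c - c) + j • (F.act y c - c) := by
          intro g
          refine closure_induct hxy (P := fun g => ∃ i j : ℤ,
            F.act g c = c + i • (F.act x c - c) + j • (F.act y c - c)) ?_ ?_ ?_ g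
          · rintro g (rfl | rfl)
            · exact ⟨1, 0, by module⟩
            · exact ⟨0, 1, by module⟩
          · exact ⟨0, 0, by rw [F.act_one]; module⟩
          · rintro g h ⟨i, j, e⟩ ⟨i', j', f⟩
            refine ⟨i + i', j + j', ?_⟩
            rw [F.act_mul, f, map_add, map_add, map_zsmul, map_zsmul, hfx, hfy, e]
            module
        have hβ0 : ∀ g h, F.β c g h = 0 := by
          intro g h
          obtain ⟨i, j, e⟩ := hgc g
          unfold β
          have : F.act g c - c = i • (F.act x c - c) + j • (F.act y c - c) := by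
            rw [e]; abel
          rw [this, map_add, map_zsmul, map_zsmul, hfx, hfy, sub_self]
        have hrep : ∀ g, ∃ (i : ℤ) (v : M), (∀ h, ∃ k : ℤ, F.act h v - v = k • w) ∧
            F.δ x g = i • c + v := by
          intro g
          refine closure_induct hxy (P := fun g => ∃ (i : ℤ) (v : M),
            (∀ h, ∃ k : ℤ, F.act h v - v = k • w) ∧ F.δ x g = i • c + v) ?_ ?_ ?_ g
          · rintro g (rfl | rfl)
            · exact ⟨0, 0, fun h => ⟨0, by simp⟩, by simp [F.δ_self]⟩
            · exact ⟨1, 0, fun h => ⟨0, by simp⟩, by simp [hc]⟩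
          · exact ⟨0, 0, fun h => ⟨0, by simp⟩, by simp [F.δ_one]⟩
          · rintro g h ⟨i, v, hv, e⟩ ⟨i', v', hv', f⟩
            refine ⟨i + i', v + i' • (F.act g c - c) + (F.act g v' - v') + v', ?_, ?_⟩
            · intro h'
              obtain ⟨k1, hk1⟩ := hv h'
              obtain ⟨k2, hk2⟩ := hv' g
              obtain ⟨k3, hk3⟩ := hv' h'
              have h0 := hβ0 g h'
              unfold β at h0
              refine ⟨k1 + k3, ?_⟩
              rw [hk2, map_add, map_add, map_add, map_zsmul, map_zsmul, hwf, sub_eq_zero.1 h0,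
                add_smul, ← hk1, ← hk3]
              abel
            · rw [F.δ_mul, e, f, map_add, map_zsmul]
              module
        obtain ⟨u, g, h, hugh⟩ := hne
        apply hugh
        obtain ⟨g', hg'⟩ := F.cam hE hxy u
        obtain ⟨i, v, hv, e⟩ := hrep g'
        rw [hg'] at e
        obtain ⟨k, hk⟩ := hv g
        have h0 := hβ0 g h
        unfold β at h0 ⊢
        have h1 : F.act g u - u = i • (F.act g c - c) + k • w := by
          rw [e, map_add, map_zsmul, ← hk]; module
        rw [h1, map_add, map_zsmul, map_zsmul, hwf, sub_eq_zero.1 h0, sub_self]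
      · -- form A
        have hXc : F.act x c = c + (F.act x c - c) := by abel
        have hYc : F.act y c = c + (F.act y c - c) := by abel
        have a11 : F.act x (F.act x c - c) = F.act x c - c := by
          have := h11; unfold β at this; exact sub_eq_zero.1 this
        have a22 : F.act y (F.act y c - c) = F.act y c - c := by
          have := h22; unfold β at this; exact sub_eq_zero.1 this
        have a12 : F.act y (F.act x c - c) = F.act x c - c + w := by
          have := h12; unfold β at this
          rw [← this]; abel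
        have a21 : F.act x (F.act y c - c) = F.act y c - c + w := by
          have := h12; rw [F.β_comm] at this; unfold β at this
          rw [← this]; abel
        exact F.formA hG hE hxy hc.symm hw h2w hwf hXc hYc (hz c x) (hz c y) a11 a12 a21 a22
    · exact core x y hxy h11 h22
  · rcases hβ c y y with h22 | h22
    · -- swap
      apply core y x (by rw [Set.pair_comm]; exact hxy)
      · rw [F.δ_swap, F.β_neg, F.β_act, ← hc, h22, map_zero, neg_zero]
      · rw [F.δ_swap, F.β_neg, F.β_act, ← hc, h11, hwf, hnegw]
    · -- replace `x` by `x * y`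
      have hx'y : closure ({x * y, y} : Set G) = ⊤ := by
        apply closure_pair hxy
        · have h1 : x * y ∈ closure ({x * y, y} : Set G) := subset_closure (by simp)
          have h2 : y ∈ closure ({x * y, y} : Set G) := subset_closure (by simp)
          have h4 := mul_mem h1 (inv_mem h2)
          rwa [mul_inv_cancel_right] at h4
        · exact subset_closure (by simp)
      have hc' : F.δ (x * y) y = F.act y⁻¹ c := by
        rw [F.δ_mul_left', F.δ_self, add_zero]
      apply core (x * y) y hx'y
      · have e1 : ∀ g, F.β c g (x * y) = F.β c g x + F.β c g y := by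
          intro g
          rw [F.β_comm, F.β_mul_left hcls hwf, F.β_comm c x g, F.β_comm c y g]
        rw [hc', F.β_act, F.β_mul_left hcls hwf, e1, e1, h11, h22, F.β_comm c y x]
        have : w + F.β c x y + (F.β c x y + w) = (w + w) + (2 : ℤ) • (F.β c x y) := by
          module
        rw [this, hww, zero_add]
        obtain ⟨k, hk⟩ := hcls c x y
        rw [hk, smul_comm, h2w, smul_zero, map_zero]
      · rw [hc', F.β_act, h22, hwf]

end Fr

end Pool.Agent.TH79.CA
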