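import Pool.Agent.TH79.CA.Frame

/-!
# The case of class three with two generators
-/

namespace Pool.Agent.TH79.CA

open Subgroup
open scoped commutatorElement

universe u v

/-- third term of the lower central series -/
abbrev g3 (G : Type*) [Group G] : Subgroup G := ⁅commutator G, (⊤ : Subgroup G)⁆

/-- fourth term of the lower central series -/
abbrev g4 (G : Type*) [Group G] : Subgroup G := ⁅g3 G, (⊤ : Subgroup G)⁆

/-- fifth term of the lower central series -/
abbrev g5 (G : Type*) [Group G] : Subgroup G := ⁅g4 G, (⊤ : Subgroup G)⁆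

theorem commute_of_central {G : Type*} [Group G] {v : G} (hv : ∀ g : G, ⁅v, g⁆ ∈ center G)
    {w : G} (hw : w ∈ commutator G) : v * w = w * v := by
  let f : G →* center G :=
    { toFun := fun g => ⟨⁅v, g⁆, hv g⟩
      map_one' := by
        apply Subtype.ext
        simp
      map_mul' := by
        intro g h
        apply Subtype.ext
        show ⁅v, g * h⁆ = ⁅v, g⁆ * ⁅v, h⁆
        have h1 := mem_center_iff.1 (hv h) g
        have h2 : ⁅v, g * h⁆ = ⁅v, g⁆ * (g * ⁅v, h⁆ * g⁻¹) := by
          simp only [commutatorElement_def]; group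
        rw [h2, h1, mul_inv_cancel_right] }
  have hk : commutator G ≤ f.ker := by
    rw [commutator_def, commutator_le]
    intro a _ b _
    rw [MonoidHom.mem_ker, map_commutatorElement, commutatorElement_eq_one_iff_mul_comm]
    apply Subtype.ext
    exact (mem_center_iff.1 (f a).2 (f b).1).symm
  have h1 : w ∈ f.ker := hk hw
  have h2 : ⁅v, w⁆ = 1 := congrArg Subtype.val (MonoidHom.mem_ker.1 h1)
  exact commutatorElement_eq_one_iff_mul_comm.1 h2

theorem abelian_of_class_three {G : Type*} [Group G] (hc : g3 G ≤ center G) :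
    ∀ a ∈ commutator G, ∀ b ∈ commutator G, a * b = b * a := by
  intro a ha b hb
  exact commute_of_central (fun g => hc (commutator_mem_commutator ha (mem_top g))) hb

theorem closure_pair {G : Type*} [Group G] {x y x' y' : G} (h : closure {x, y} = ⊤)
    (hx : x ∈ closure {x', y'}) (hy : y ∈ closure {x', y'}) :
    closure ({x', y'} : Set G) = ⊤ := by
  rw [eq_top_iff, ← h, closure_le]
  rintro g (rfl | rfl)
  · exact hx
  · exact hy

namespace Fr

variable {G : Type u} {M : Type v} [Group G] [AddCommGroup M] (F : Fr G M)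

include F in
theorem smul_cancel {p : ℕ} [Fact p.Prime] (hG : IsPGroup p G) {n : ℤ} {a : M}
    (hn : ¬ (p : ℤ) ∣ n) (h : n • a = 0) : a = 0 := by
  have h1 : F.ι a ^ n = 1 := by rw [← F.ι_zsmul, h, F.ι_zero]
  have h2 : F.ι a ∈ (⊥ : Subgroup G) := pow_coprime_mem hG hn (by rw [h1]; exact one_mem _)
  exact F.ι_eq_one.1 (mem_bot.1 h2)

theorem cam (hE : EE G 2) {x y : G} (hxy : closure {x, y} = ⊤) (u : M) : ∃ g, F.δ x g = u := by
  obtain ⟨α, h1, h2, _⟩ := hE.pair hxy (F.ι_mem u) (one_mem (commutator G))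
  obtain ⟨g, hg⟩ := isConj_iff.1 (h1 x)
  refine ⟨g, F.δ_eq ?_⟩
  rw [h2] at hg
  rw [mul_assoc, mul_assoc, ← mul_assoc g, hg]
  group

theorem δ_swap (x y : G) : F.δ y x = - F.act (y⁻¹ * x) (F.δ x y) := by
  apply F.δ_eq
  rw [F.ι_neg, ← F.act_spec, F.δ_spec]
  group

theorem δ_mul_left' (x y h : G) : F.δ (x * h) y =
    F.act h⁻¹ (F.δ x y) + F.δ h y := by
  apply F.δ_eq
  rw [F.ι_add, ← F.act_spec, F.δ_spec, F.δ_spec]
  group

/-- the key computation in class three -/
theorem L3_core {p : ℕ} [hp : Fact p.Prime] [Finite G] (hG : IsPGroup p G) {x y : G}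
    (hxy : closure {x, y} = ⊤) (hcam : ∀ u : M, ∃ g, F.δ x g = u) {c z : M} (hc : F.δ x y = c)
    (hz : z ≠ 0) (hpz : (p : ℤ) • z = 0) (hX : F.act x z = z) (hY : F.act y z = z)
    (hXc : F.act x c = c) (hYc : F.act y c = c + z) :
    (p = 2 ∧ ∀ u : M, (2 : ℤ) • u = 0) ∨
      ((∀ u : M, ∃ n : ℤ, u = n • c) ∧ ∃ u : M, z = ((if p = 2 then 4 else p : ℕ) : ℤ) • u) := by
  have hP : ∀ g, ∃ i k : ℤ, 2 * k = i * (i - 1) ∧ F.δ x g = i • c + k • z ∧
      F.act g c = c + i • z ∧ F.act g z = z := by
    intro g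
    refine closure_induct hxy (P := fun g => ∃ i k : ℤ, 2 * k = i * (i - 1) ∧
      F.δ x g = i • c + k • z ∧ F.act g c = c + i • z ∧ F.act g z = z) ?_ ?_ ?_ g
    · rintro g (rfl | rfl)
      · exact ⟨0, 0, by ring, by simp [F.δ_self], by simp [hXc], hX⟩
      · exact ⟨1, 0, by ring, by simp [hc], by simp [hYc], hY⟩
    · exact ⟨0, 0, by ring, by simp [F.δ_one], by simp [F.act_one], F.act_one z⟩
    · rintro g h ⟨i, k, e1, e2, e3, e4⟩ ⟨i', k', f1, f2, f3, f4⟩
      refine ⟨i + i', k + k' + i * i', ?_, ?_, ?_, ?_⟩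
      · linear_combination e1 + f1
      · rw [F.δ_mul, e2, f2, map_add, map_zsmul, map_zsmul, e3, e4]
        module
      · rw [F.act_mul, f3, map_add, map_zsmul, e3, e4]
        module
      · rw [F.act_mul, f4, e4]
  have hrep : ∀ u : M, ∃ i k : ℤ, 2 * k = i * (i - 1) ∧ u = i • c + k • z := by
    intro u
    obtain ⟨g, hg⟩ := hcam u
    obtain ⟨i, k, e1, e2, _⟩ := hP g
    exact ⟨i, k, e1, by rw [← hg, e2]⟩
  have hdiv : ∀ m n : ℤ, m • c = n • z → (p : ℤ) ∣ m := by
    intro m n h
    by_contra hm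
    have h2 := congrArg (F.act y) h
    rw [map_zsmul, map_zsmul, hYc, hY, smul_add, h] at h2
    have h3 : m • z = 0 := by simpa using h2
    exact hz (F.smul_cancel hG hm h3)
  obtain ⟨i, k, e1, e2⟩ := hrep z
  have hi : (p : ℤ) ∣ i := hdiv i (1 - k) (by
    rw [sub_smul, one_smul]
    exact eq_sub_of_add_eq e2.symm)
  obtain ⟨i', rfl⟩ := hi
  have hkill : ∀ n : ℤ, (p : ℤ) ∣ n → n • z = 0 := by
    rintro n ⟨n', rfl⟩
    rw [mul_comm, mul_smul, hpz, smul_zero]
  have hcyc : (∃ m : ℤ, z = m • c) → ∀ u : M, ∃ n : ℤ, u = n • c := by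
    rintro ⟨m, hm⟩ u
    obtain ⟨a, b, _, hu⟩ := hrep u
    refine ⟨a + b * m, ?_⟩
    rw [hu, add_smul, mul_smul, ← hm]
  by_cases h2 : p = 2
  · subst h2
    rw [if_pos rfl]
    have hk : k = i' * (2 * i' - 1) := by
      have : (2 : ℤ) * k = 2 * (i' * (2 * i' - 1)) := by
        rw [e1]; push_cast; ring
      exact mul_left_cancel₀ (by norm_num) this
    rcases Int.even_or_odd i' with ⟨j, hj⟩ | ⟨j, hj⟩
    · right
      have hk2 : k • z = 0 := by
        apply hkill
        refine ⟨j * (2 * i' - 1), ?_⟩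
        rw [hk, hj]; push_cast; ring
      have hz2 : z = ((4 : ℕ) : ℤ) • (j • c) := by
        rw [e2]
        rw [hk2, add_zero, smul_smul, hj]
        congr 1
        push_cast; ring
      refine ⟨hcyc ⟨4 * j, ?_⟩, j • c, hz2⟩
      rw [mul_smul]; exact_mod_cast hz2
    · left
      refine ⟨rfl, ?_⟩
      have hk2 : k • z = z := by
        have : k = 2 * (4 * j * j + 3 * j) + 1 := by rw [hk, hj]; ring
        rw [this, add_smul, one_smul, hkill _ (by exact_mod_cast Dvd.intro _ rfl), zero_add]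
      rw [hk2] at e2
      have h3 : i' • ((2 : ℤ) • c) = 0 := by
        rw [smul_smul, mul_comm]
        have := e2
        push_cast at this
        exact (left_eq_add.1 (by rw [add_comm]; exact this)) 
      have h4 : (2 : ℤ) • c = 0 := F.smul_cancel hG (by
        rw [hj]; push_cast; omega) h3
      intro u
      obtain ⟨a, b, _, hu⟩ := hrep u
      rw [hu, smul_add, smul_comm, h4, smul_zero, zero_add, smul_comm]
      have := hpz
      push_cast at this
      rw [this, smul_zero]
  · right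
    rw [if_neg h2]
    have hodd : ¬ (p : ℤ) ∣ 2 := by
      intro h
      have h' : p ∣ 2 := by exact_mod_cast h
      have := (Nat.prime_dvd_prime_iff_eq hp.out Nat.prime_two).1 h'
      exact h2 this
    have hk : (p : ℤ) ∣ k := by
      have h3 : (p : ℤ) ∣ 2 * k := by
        rw [e1]; exact Dvd.intro _ (by ring : (p : ℤ) * (i' * (p * i' - 1)) = p * i' * (p * i' - 1))
      rcases (Nat.prime_iff_prime_int.1 hp.out).dvd_or_dvd h3 with h | h
      · exact absurd h hodd
      · exact h
    have hz2 : z = (p : ℤ) • (i' • c) := by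
      conv_lhs => rw [e2, hkill k hk, add_zero, mul_smul]
    refine ⟨hcyc ⟨p * i', ?_⟩, i' • c, hz2⟩
    rw [mul_smul]; exact hz2

theorem act_inj (g : G) {a b : M} (h : F.act g a = F.act g b) : a = b := by
  rw [← F.act_inv_act g a, h, F.act_inv_act]

theorem act_inv_of {g : G} {c z : M} (hz : F.act g z = z) (hc : F.act g c = c + z) :
    F.act g⁻¹ c = c - z := by
  apply F.act_inj g
  rw [F.act_act_inv, map_sub, hc, hz, add_sub_cancel_right]

theorem act_pow {g : G} {c z : M} (hz : F.act g z = z) (hc : F.act g c = c + z) (n : ℤ) :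
    F.act (g ^ n) c = c + n • z := by
  induction n using Int.induction_on with
  | zero => simp [F.act_one]
  | succ n ih =>
    rw [zpow_add_one, F.act_mul, hc, map_add, ih]
    have : F.act (g ^ (n : ℤ)) z = z := by
      clear ih
      induction n with
      | zero => simp [F.act_one]
      | succ n ih => 
        push_cast
        rw [zpow_add_one, F.act_mul, hz, ih]
    rw [this]; module
  | pred n ih =>
    have h0 : F.act (g⁻¹) z = z := by
      apply F.act_inj g
      rw [F.act_act_inv, hz]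
    rw [zpow_sub_one, F.act_mul, F.act_inv_of hz hc, map_sub, ih]
    have : F.act (g ^ (-(n : ℤ))) z = z := by
      clear ih
      induction n with
      | zero => simp [F.act_one]
      | succ n ih => 
        push_cast
        rw [neg_add, zpow_add, zpow_neg_one, F.act_mul, h0, ih]
    rw [this]; module

theorem δ_zpow_self (y : G) (n : ℤ) : F.δ (y ^ n) y = 0 := by
  apply F.δ_eq
  rw [F.ι_zero]; group

theorem L3_frame {p : ℕ} [hp : Fact p.Prime] [Finite G] (hG : IsPGroup p G) (hE : EE G 2)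
    {x y : G} (hxy : closure {x, y} = ⊤) {z : M}
    (hz : z ≠ 0) (hpz : (p : ℤ) • z = 0) (hzf : ∀ g, F.act g z = z)
    (hs : ∀ u g, ∃ k : ℤ, F.act g u - u = k • z) (hne : ∃ u g, F.act g u ≠ u) :
    (p = 2 ∧ ∀ u : M, (2 : ℤ) • u = 0) ∨
      ∃ c : M, (∀ u : M, ∃ n : ℤ, u = n • c) ∧
        ∃ u : M, z = ((if p = 2 then 4 else p : ℕ) : ℤ) • u := by
  have hkill : ∀ n : ℤ, (p : ℤ) ∣ n → n • z = 0 := by
    rintro n ⟨n', rfl⟩
    rw [mul_comm, mul_smul, hpz, smul_zero]
  have key : ∀ x y : G, closure {x, y} = ⊤ → F.act y (F.δ x y) ≠ F.δ x y →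
      (p = 2 ∧ ∀ u : M, (2 : ℤ) • u = 0) ∨
      ∃ c : M, (∀ u : M, ∃ n : ℤ, u = n • c) ∧
        ∃ u : M, z = ((if p = 2 then 4 else p : ℕ) : ℤ) • u := by
    intro x y hxy hY
    set c := F.δ x y with hc
    obtain ⟨l, hl⟩ := hs c y
    obtain ⟨k, hk⟩ := hs c x
    have hlz : l • z ≠ 0 := by
      rw [← hl]; exact sub_ne_zero.2 hY
    have hpl : ¬ (p : ℤ) ∣ l := fun h => hlz (hkill l h)
    have hco : IsCoprime l (p : ℤ) := by
      rw [Int.isCoprime_iff_gcd_eq_one, Int.gcd_comm]
      have := (Nat.Prime.coprime_iff_not_dvd hp.out (n := l.natAbs)).2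
        (by rwa [← Int.natCast_dvd])
      rw [Int.gcd_eq_natAbs]
      simpa using this
    obtain ⟨a, b, hab⟩ := hco
    set z' := l • z with hz'
    have hzz' : z = a • z' := by
      have : (a * l + b * p) • z = z := by rw [hab, one_smul]
      rw [add_smul, mul_smul, mul_smul, hpz, smul_zero, add_zero] at this
      exact this.symm
    have hYc : F.act y c = c + z' := by rw [← hl]; abel
    have hXc : F.act x c = c + (k * a) • z' := by
      rw [mul_smul, ← hzz', ← hk]; abel
    have hz'f : ∀ g, F.act g z' = z' := by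
      intro g; rw [hz', map_zsmul, hzf]
    have hpz' : (p : ℤ) • z' = 0 := by rw [hz', smul_comm, hpz, smul_zero]
    set k' := k * a with hk'
    have hx'y : closure ({x * y ^ (-k'), y} : Set G) = ⊤ := by
      apply closure_pair hxy
      · have h1 : x * y ^ (-k') ∈ closure ({x * y ^ (-k'), y} : Set G) :=
          subset_closure (by simp)
        have h2 : y ∈ closure ({x * y ^ (-k'), y} : Set G) := subset_closure (by simp)
        have h3 : x * y ^ (-k') * y ^ k' = x := by group
        have h4 := mul_mem h1 (zpow_mem h2 k')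
        rwa [h3] at h4
      · exact subset_closure (by simp)
    have hc' : F.δ (x * y ^ (-k')) y = c + k' • z' := by
      rw [F.δ_mul_left', F.δ_zpow_self, add_zero, ← zpow_neg, neg_neg,
        F.act_pow (hz'f y) hYc]
    rcases F.L3_core hG hx'y (F.cam hE hx'y) hc' hlz hpz' (hz'f _) (hz'f _) (by
      rw [map_add, map_zsmul, hz'f, F.act_mul, F.act_pow (hz'f y) hYc, map_add, map_zsmul, hXc,
        hz'f]
      module) (by
      rw [map_add, map_zsmul, hz'f, hYc]; module) with h | ⟨h1, u, h2⟩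
    · left; exact h
    · right
      refine ⟨_, h1, a • u, ?_⟩
      rw [hzz', h2, smul_comm]
  by_cases hY : F.act y (F.δ x y) = F.δ x y
  · by_cases hX : F.act x (F.δ x y) = F.δ x y
    · exfalso
      have hfix : ∀ g, F.act g (F.δ x y) = F.δ x y := by
        intro g
        refine closure_induct hxy (P := fun g => F.act g (F.δ x y) = F.δ x y) ?_ ?_ ?_ g
        · rintro g (rfl | rfl)
          · exact hX
          · exact hY
        · exact F.act_one _
        · intro g h hg hh
          rw [F.act_mul, hh, hg]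
      have hrep : ∀ g, ∃ i : ℤ, F.δ x g = i • F.δ x y := by
        intro g
        refine closure_induct hxy (P := fun g => ∃ i : ℤ, F.δ x g = i • F.δ x y) ?_ ?_ ?_ g
        · rintro g (rfl | rfl)
          · exact ⟨0, by simp [F.δ_self]⟩
          · exact ⟨1, by simp⟩
        · exact ⟨0, by simp [F.δ_one]⟩
        · rintro g h ⟨i, hi⟩ ⟨j, hj⟩
          refine ⟨i + j, ?_⟩
          rw [F.δ_mul, hi, hj, map_zsmul, hfix, add_smul]
      obtain ⟨u, g, hug⟩ := hne
      apply hug
      obtain ⟨g', hg'⟩ := F.cam hE hxy u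
      obtain ⟨i, hi⟩ := hrep g'
      rw [← hg', hi, map_zsmul, hfix]
    · apply key y x
      · rw [Set.pair_comm]; exact hxy
      · intro h
        apply hX
        rw [F.δ_swap, map_neg, F.act_comm] at h
        exact F.act_inj _ (neg_injective h)
  · exact key x y hxy hY

end Fr

end Pool.Agent.TH79.CA
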