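import Pool.Agent.TH79.CA.Reduce

/-!
# The forward direction of the classification
-/

namespace Pool.Agent.TH79.CA

open Subgroup
open scoped commutatorElement

universe u

section

variable {G : Type u} [Group G]

theorem small_map {Q : Type u} [Group Q] {p : ℕ} (f : G →* Q) (hf : Function.Surjective f)
    (h4 : ∀ h ∈ g4 G, f h = 1) {t : G} (ht : t ∈ g3 G) (ht1 : f t ≠ 1) (htp : f t ^ p = 1)
    (hk : ∀ h ∈ g3 G, ∃ k : ℤ, f h = f t ^ k) : Small3 p Q (f t) where
  central := by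
    apply central_of_bot
    have : g4 Q = (g4 G).map f := map_g4 f hf
    change g4 Q = ⊥
    rw [this, eq_bot_iff]
    rintro _ ⟨h, hh, rfl⟩
    rw [mem_bot]; exact h4 h hh
  mem := by
    rw [map_g3 f hf]
    exact mem_map_of_mem f ht
  ne := ht1
  pow := htp
  gen := by
    rw [map_g3 f hf]
    rintro _ ⟨h, hh, rfl⟩
    exact hk h hh

/-- quotient with small third term -/
theorem exists_small {p d : ℕ} [Fact p.Prime] (hG : Good p d G) (h3 : g3 G ≠ ⊥) :
    ∃ (Q : Type u) (_ : Group Q) (f : G →* Q) (z : Q), Function.Surjective f ∧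
      f.ker ≤ g3 G ∧ Good p d Q ∧ Small3 p Q z := by
  haveI := hG.fin
  obtain ⟨N, hN, h1, h2, ⟨t, ht, htN⟩, h4, h5⟩ := reduce hG.pg (H := g3 G) inferInstance h3
  refine ⟨G ⧸ N, inferInstance, QuotientGroup.mk' N, QuotientGroup.mk' N t,
    QuotientGroup.mk'_surjective N, ?_, hG.quot N (h2.trans g3_le), ?_⟩
  · rw [QuotientGroup.ker_mk']; exact h2
  · apply small_map _ (QuotientGroup.mk'_surjective N) _ ht
    · intro h
      exact htN ((QuotientGroup.eq_one_iff t).1 h)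
    · rw [← map_pow]
      exact (QuotientGroup.eq_one_iff _).2 (h5 t ht)
    · intro h hh
      obtain ⟨k, hk⟩ := h4 t ht htN h hh
      refine ⟨-k, ?_⟩
      have : QuotientGroup.mk' N (h * t ^ k) = 1 := (QuotientGroup.eq_one_iff _).2 hk
      rw [map_mul, map_zpow] at this
      rw [zpow_neg]
      exact eq_inv_of_mul_eq_one_left this
    · intro h hh
      exact (QuotientGroup.eq_one_iff _).2 (h1 hh)

theorem d_le_two {p d : ℕ} [Fact p.Prime] (hG : Good p d G) (h3 : g3 G ≠ ⊥) : d ≤ 2 := by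
  by_contra hd
  obtain ⟨Q, _, f, z, -, -, hQ, hz⟩ := exists_small hG h3
  exact noThree (by omega) hQ hz

theorem comm_bot_of_le_one {d : ℕ} (hd : d ≤ 1) {x : Fin d → G}
    (hx : closure (Set.range x) = ⊤) : commutator G = ⊥ := by
  haveI : Subsingleton (Fin d) := by
    rcases Nat.le_one_iff_eq_zero_or_eq_one.1 hd with rfl | rfl <;> infer_instance
  have hcen : ∀ i, x i ∈ center G := by
    intro i
    rw [← centralizer_univ, ← coe_top, ← hx, centralizer_closure, mem_centralizer_iff]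
    rintro _ ⟨j, rfl⟩
    rw [Subsingleton.elim j i]
  have htop : center G = ⊤ := by
    rw [eq_top_iff, ← hx, closure_le]
    rintro _ ⟨i, rfl⟩
    exact hcen i
  rw [commutator_def]
  apply bot_of_central
  rw [htop]

theorem d_eq_two {p d : ℕ} [Fact p.Prime] (hG : Good p d G) (h3 : g3 G ≠ ⊥) : d = 2 := by
  have h1 := d_le_two hG h3
  by_contra hd
  obtain ⟨x, hx⟩ := hG.gen
  have h2 := comm_bot_of_le_one (by omega) hx
  apply h3
  unfold g3
  rw [h2, eq_bot_iff, commutator_le]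
  intro a ha g _
  rw [mem_bot] at ha
  rw [ha, commutatorElement_one_left]
  exact one_mem _

/-- cyclic case, `p = 2` -/
theorem cyclic_two (hG : Good 2 2 G) {c : G} (hcc : c ∈ commutator G)
    (hc : ∀ u ∈ commutator G, ∃ n : ℤ, u = c ^ n) :
    ∀ t ∈ g3 G, ∃ u ∈ commutator G, t = u ^ 4 := by
  haveI := hG.fin
  haveI : Fact (Nat.Prime 2) := ⟨Nat.prime_two⟩
  set N : Subgroup G := zpowers (c ^ 4) with hN
  have hNle : N ≤ commutator G := (zpowers_le).2 (pow_mem hcc 4)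
  haveI hNn : N.Normal := by
    constructor
    rintro _ ⟨k, rfl⟩ g
    obtain ⟨r, hr⟩ := hc (g * c * g⁻¹) (Subgroup.Normal.conj_mem inferInstance c hcc g)
    refine ⟨r * k, ?_⟩
    have e1 : g * (c ^ 4) ^ k * g⁻¹ = ((g * c * g⁻¹) ^ 4) ^ k := by
      rw [conj_pow, conj_zpow]
    show (c ^ 4) ^ (r * k) = g * (c ^ 4) ^ k * g⁻¹
    rw [e1, hr, zpow_mul]
    congr 1
    rw [← zpow_natCast, ← zpow_natCast, zpow_comm]
  suffices hsuff : g3 G ≤ N by
    intro t ht
    obtain ⟨k, hk⟩ := hsuff ht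
    refine ⟨c ^ k, zpow_mem hcc k, ?_⟩
    rw [← hk, ← zpow_natCast, ← zpow_natCast, zpow_comm]
  by_contra hcon
  obtain ⟨t, ht, htN⟩ := Set.not_subset.1 hcon
  have hQ := hG.quot N hNle
  set f := QuotientGroup.mk' N with hf
  have hfs : Function.Surjective f := QuotientGroup.mk'_surjective N
  set b := f c with hb
  have hb4 : b ^ 4 = 1 := by
    rw [hb, ← map_pow]
    exact (QuotientGroup.eq_one_iff _).2 (mem_zpowers _)
  have hbc : ∀ u ∈ commutator (G ⧸ N), ∃ n : ℤ, u = b ^ n := by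
    rw [map_comm' f hfs]
    rintro _ ⟨u, hu, rfl⟩
    obtain ⟨n, hn⟩ := hc u hu
    exact ⟨n, by rw [hn, map_zpow]⟩
  have hbm : b ∈ commutator (G ⧸ N) := by
    rw [map_comm' f hfs]; exact mem_map_of_mem f hcc
  have hz : f t ∈ g3 (G ⧸ N) := by
    rw [map_g3 f hfs]; exact mem_map_of_mem f ht
  have hz1 : f t ≠ 1 := fun h => htN ((QuotientGroup.eq_one_iff t).1 h)
  have hb1 : b ≠ 1 := by
    intro h
    obtain ⟨n, hn⟩ := hbc _ (g3_le hz)
    rw [h, one_zpow] at hn
    exact hz1 hn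
  have hodd : ∀ g : G ⧸ N, ∃ s : ℤ, g * b * g⁻¹ = b ^ (2 * s + 1) := by
    intro g
    obtain ⟨r, hr⟩ := hbc (g * b * g⁻¹) (Subgroup.Normal.conj_mem inferInstance b hbm g)
    rcases Int.even_or_odd r with ⟨s, hs⟩ | ⟨s, hs⟩
    · exfalso
      have e1 : g * b ^ 2 * g⁻¹ = 1 := by
        rw [← conj_pow, hr, hs, ← zpow_natCast, ← zpow_mul]
        have : (s + s) * ((2 : ℕ) : ℤ) = ((4 : ℕ) : ℤ) * s := by push_cast; ring
        rw [this, zpow_mul, zpow_natCast, hb4, one_zpow]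
      have e2 : b ^ 2 = 1 := by
        have := congrArg (fun q => g⁻¹ * q * g) e1
        simpa [mul_assoc] using this
      have e3 : g * b * g⁻¹ = 1 := by
        rw [hr, hs, ← two_mul, zpow_mul]
        have : b ^ (2 : ℤ) = 1 := by exact_mod_cast e2
        rw [this, one_zpow]
      have e4 : b = 1 := by
        have := congrArg (fun q => g⁻¹ * q * g) e3
        simpa [mul_assoc] using this
      exact hb1 e4
    · exact ⟨s, by rw [hr, hs]⟩
  have hb2c : b ^ 2 ∈ center (G ⧸ N) := by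
    rw [mem_center_iff]
    intro g
    obtain ⟨s, hs⟩ := hodd g
    have e1 : g * b ^ 2 * g⁻¹ = b ^ 2 := by
      rw [← conj_pow, hs, ← zpow_natCast, ← zpow_mul]
      have : (2 * s + 1) * ((2 : ℕ) : ℤ) = ((4 : ℕ) : ℤ) * s + ((2 : ℕ) : ℤ) := by
        push_cast; ring
      rw [this, zpow_add, zpow_mul, zpow_natCast, hb4, one_zpow, one_mul, zpow_natCast]
    exact mul_inv_eq_iff_eq_mul.1 e1
  have hg3 : g3 (G ⧸ N) ≤ zpowers (b ^ 2) := by
    unfold g3
    rw [commutator_le]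
    intro u hu g _
    obtain ⟨n, rfl⟩ := hbc u hu
    obtain ⟨s, hs⟩ := hodd g
    have e1 : ⁅g, b ^ n⁆ ∈ zpowers (b ^ 2) := by
      have e2 : ⁅g, b ^ n⁆ = (b ^ 2) ^ (s * n) := by
        rw [commutatorElement_def, ← conj_zpow, hs, ← zpow_natCast, ← zpow_mul, ← zpow_mul,
          ← zpow_neg, ← zpow_add]
        congr 1
        push_cast; ring
      rw [e2]
      exact ⟨_, rfl⟩
    rw [← commutatorElement_inv]
    exact inv_mem e1
  have hb24 : (b ^ 2) ^ 2 = 1 := by rw [← pow_mul]; exact hb4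
  have hz2 : f t = b ^ 2 := by
    obtain ⟨k, hk⟩ := hg3 hz
    simp only at hk
    rcases Int.even_or_odd k with ⟨s, hs⟩ | ⟨s, hs⟩
    · exfalso
      rw [hs, ← two_mul, zpow_mul] at hk
      have : (b ^ 2) ^ (2 : ℤ) = 1 := by exact_mod_cast hb24
      rw [this, one_zpow] at hk
      exact hz1 hk.symm
    · rw [hs, zpow_add, zpow_mul, zpow_one] at hk
      have : (b ^ 2) ^ (2 : ℤ) = 1 := by exact_mod_cast hb24
      rw [this, one_zpow, one_mul] at hk
      exact hk.symm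
  have hsm : Small3 2 (G ⧸ N) (f t) := by
    refine ⟨hg3.trans ((zpowers_le).2 hb2c), hz, hz1, by rw [hz2]; exact hb24, ?_⟩
    intro t' ht'
    obtain ⟨k, hk⟩ := hg3 ht'
    exact ⟨k, by rw [hz2]; exact hk.symm⟩
  rcases L3 hQ hsm with ⟨_, h1⟩ | ⟨_, v, hv, h1⟩
  · apply hz1
    rw [hz2]; exact h1 b hbm
  · rw [if_pos rfl] at h1
    obtain ⟨n, rfl⟩ := hbc v hv
    apply hz1
    rw [h1, ← zpow_natCast, zpow_comm, zpow_natCast, hb4, one_zpow]

/-- the noncyclic case forces `p = 2` and provides a small quotient of exponent two -/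
theorem noncyclic_quot {p : ℕ} [hp : Fact p.Prime] (hG : Good p 2 G)
    (hcyc : ¬ ∃ c ∈ commutator G, ∀ u ∈ commutator G, ∃ n : ℤ, u = c ^ n) :
    p = 2 ∧ ∃ (Q : Type u) (_ : Group Q) (f : G →* Q) (z : Q), Function.Surjective f ∧
      Good p 2 Q ∧ Small3 p Q z ∧ ∀ u ∈ commutator Q, u ^ 2 = 1 := by
  haveI := hG.fin
  obtain ⟨x, y, hxy⟩ := hG.pair
  have hpH : IsPGroup p (commutator G) := hG.pg.to_subgroup _
  set P : Subgroup G := (frattini (commutator G)).map (commutator G).subtype with hP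
  haveI hPn : P.Normal := ConjAct.normal_of_characteristic_of_normal
  have hPle : P ≤ commutator G := by
    rintro _ ⟨u, _, rfl⟩
    exact u.2
  have hng : ¬ g3 G ≤ P := by
    intro hle
    apply hcyc
    refine ⟨⁅x, y⁆, brk_mem x y, ?_⟩
    -- the derived subgroup is generated by `⁅x, y⁆` modulo `P`
    set K : Subgroup G := zpowers ⁅x, y⁆ ⊔ g3 G with hK
    have hKle : K ≤ commutator G := sup_le ((zpowers_le).2 (brk_mem x y)) g3_le
    haveI hKn : K.Normal := by
      constructor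
      intro n hn g
      have h2 : ⁅g, n⁆ ∈ K := by
        apply (le_sup_right : g3 G ≤ K)
        unfold g3
        rw [commutator_comm]
        exact commutator_mem_commutator (mem_top g) (hKle hn)
      have h3 : g * n * g⁻¹ = ⁅g, n⁆ * n := by
        rw [commutatorElement_def]; group
      rw [h3]
      exact K.mul_mem h2 hn
    have hcK : commutator G ≤ K := comm_le_of_pair hxy (mem_sup_left (mem_zpowers _))
    set c' : commutator G := ⟨⁅x, y⁆, brk_mem x y⟩ with hc'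
    have htop : zpowers c' ⊔ frattini (commutator G) = ⊤ := by
      rw [eq_top_iff]
      rintro ⟨u, hu⟩ _
      have h1 := hcK hu
      rw [hK, mem_sup_of_normal_right] at h1
      obtain ⟨_, ⟨i, rfl⟩, s, hs, e⟩ := h1
      obtain ⟨s', hs', e'⟩ := hle hs
      have h2 : (⟨u, hu⟩ : commutator G) = c' ^ i * s' := by
        apply Subtype.ext
        show u = ⁅x, y⁆ ^ i * (s' : G)
        have e2 : (s' : G) = s := e'
        rw [e2]
        exact e.symm
      rw [h2]
      exact mul_mem (mem_sup_left ⟨i, rfl⟩) (mem_sup_right hs')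
    have htop2 := nongen htop
    intro u hu
    have : (⟨u, hu⟩ : commutator G) ∈ zpowers c' := by rw [htop2]; trivial
    obtain ⟨n, hn⟩ := this
    refine ⟨n, ?_⟩
    have := congrArg Subtype.val hn
    simpa [hc'] using this.symm
  set f1 := QuotientGroup.mk' P with hf1
  have hf1s : Function.Surjective f1 := QuotientGroup.mk'_surjective P
  have hQ1 := hG.quot P hPle
  have h31 : g3 (G ⧸ P) ≠ ⊥ := by
    intro h
    apply hng
    intro t ht
    have : f1 t ∈ g3 (G ⧸ P) := by rw [map_g3 f1 hf1s]; exact mem_map_of_mem f1 ht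
    rw [h, mem_bot] at this
    exact (QuotientGroup.eq_one_iff t).1 this
  have hexp1 : ∀ u ∈ commutator (G ⧸ P), u ^ p = 1 := by
    rw [map_comm' f1 hf1s]
    rintro _ ⟨u, hu, rfl⟩
    rw [← map_pow]
    apply (QuotientGroup.eq_one_iff _).2
    exact ⟨(⟨u, hu⟩ : commutator G) ^ p, pow_mem_frattini hpH _, rfl⟩
  obtain ⟨Q, _, f2, z, hf2s, -, hQ, hz⟩ := exists_small hQ1 h31
  have hexp2 : ∀ u ∈ commutator Q, u ^ p = 1 := by
    rw [map_comm' f2 hf2s]
    rintro _ ⟨u, hu, rfl⟩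
    rw [← map_pow, hexp1 u hu, map_one]
  rcases L3 hQ hz with ⟨h1, h2⟩ | ⟨_, u, hu, h1⟩
  · exact ⟨h1, Q, inferInstance, f2.comp f1, z, hf2s.comp hf1s, hQ, hz, h2⟩
  · exfalso
    apply hz.ne
    rw [h1]
    by_cases h2 : p = 2
    · subst h2
      rw [if_pos rfl, show 4 = 2 * 2 by norm_num, pow_mul, hexp2 u hu, one_pow]
    · rw [if_neg h2]; exact hexp2 u hu

/-- squares of commutator elements lie in the third term -/
theorem sq_mem_g3 (hG : Good 2 2 G)
    (hcyc : ¬ ∃ c ∈ commutator G, ∀ u ∈ commutator G, ∃ n : ℤ, u = c ^ n) :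
    ∀ u ∈ commutator G, u ^ 2 ∈ g3 G := by
  haveI := hG.fin
  haveI : Fact (Nat.Prime 2) := ⟨Nat.prime_two⟩
  obtain ⟨-, Q, _, f, z, hfs, hQ, hz, hexp⟩ := noncyclic_quot hG hcyc
  obtain ⟨t0, ht0, ht0z⟩ : ∃ t0 ∈ g3 G, f t0 = z := by
    have := hz.mem
    rw [map_g3 f hfs] at this
    exact this
  set N : Subgroup G := f.ker ⊓ g3 G with hN
  haveI hNn : N.Normal := inferInstance
  have hQ' := hG.quot N (inf_le_right.trans g3_le)
  set f' := QuotientGroup.mk' N with hf'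
  have hfs' : Function.Surjective f' := QuotientGroup.mk'_surjective N
  have key : ∀ h : G, f' h = 1 ↔ f h = 1 ∧ h ∈ g3 G := fun h =>
    (QuotientGroup.eq_one_iff h).trans (by rw [hN, mem_inf, MonoidHom.mem_ker])
  have hsm : Small3 2 (G ⧸ N) (f' t0) := by
    apply small_map f' hfs' _ ht0
    · intro h
      have := ((key _).1 h).1
      rw [ht0z] at this
      exact hz.ne this
    · rw [← map_pow, key]
      exact ⟨by rw [map_pow, ht0z, hz.pow], pow_mem ht0 2⟩
    · intro h hh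
      have h1 : f h ∈ g3 Q := by rw [map_g3 f hfs]; exact mem_map_of_mem f hh
      obtain ⟨k, hk⟩ := hz.gen _ h1
      refine ⟨k, ?_⟩
      rw [← map_zpow, ← mul_inv_eq_one, ← map_inv, ← map_mul, key]
      refine ⟨?_, mul_mem hh (inv_mem (zpow_mem ht0 k))⟩
      rw [map_mul, map_inv, map_zpow, ht0z, ← hk, mul_inv_cancel]
    · intro h hh
      rw [key]
      refine ⟨?_, g4_le hh⟩
      have h1 : f h ∈ g4 Q := by rw [map_g4 f hfs]; exact mem_map_of_mem f hh
      have h2 : g4 Q = ⊥ := bot_of_central hz.central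
      rw [h2, mem_bot] at h1
      exact h1
  rcases L3 hQ' hsm with ⟨_, h1⟩ | ⟨_, v, hv, h1⟩
  · intro u hu
    have h2 : f' u ∈ commutator (G ⧸ N) := by
      rw [map_comm' f' hfs']; exact mem_map_of_mem f' hu
    have h3 := h1 _ h2
    rw [← map_pow, key] at h3
    exact h3.2
  · exfalso
    rw [map_comm' f' hfs'] at hv
    obtain ⟨u, hu, rfl⟩ := hv
    rw [if_pos rfl, ← map_pow, ← mul_inv_eq_one, ← map_inv, ← map_mul, key] at h1
    have h2 := h1.1
    rw [map_mul, map_inv, map_pow, ht0z, mul_inv_eq_one] at h2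
    have h3 : f u ∈ commutator Q := by rw [map_comm' f hfs]; exact mem_map_of_mem f hu
    apply hz.ne
    rw [h2, show 4 = 2 * 2 by norm_num, pow_mul, hexp _ h3, one_pow]

/-- squares of commutator elements lie in the fourth term -/
theorem sq_mem_g4 (hG : Good 2 2 G)
    (hcyc : ¬ ∃ c ∈ commutator G, ∀ u ∈ commutator G, ∃ n : ℤ, u = c ^ n) :
    ∀ u ∈ commutator G, u ^ 2 ∈ g4 G := by
  haveI := hG.fin
  haveI : Fact (Nat.Prime 2) := ⟨Nat.prime_two⟩
  have hsq3 := sq_mem_g3 hG hcyc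
  have hQ := hG.quot (g4 G) (g4_le.trans g3_le)
  haveI := hQ.fin
  set f := QuotientGroup.mk' (g4 G) with hf
  have hfs : Function.Surjective f := QuotientGroup.mk'_surjective _
  have hcen : g3 (G ⧸ g4 G) ≤ center (G ⧸ g4 G) := by
    apply central_of_bot
    change g4 (G ⧸ g4 G) = ⊥
    rw [map_g4 f hfs, eq_bot_iff]
    rintro _ ⟨h, hh, rfl⟩
    rw [mem_bot]
    exact (QuotientGroup.eq_one_iff h).2 hh
  have hsq : ∀ u ∈ commutator (G ⧸ g4 G), u ^ 2 ∈ g3 (G ⧸ g4 G) := by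
    rw [map_comm' f hfs, map_g3 f hfs]
    rintro _ ⟨u, hu, rfl⟩
    exact ⟨u ^ 2, hsq3 u hu, map_pow f u 2⟩
  set T : Subgroup (G ⧸ g4 G) :=
    { carrier := {h | h ∈ center (G ⧸ g4 G) ∧ h ^ 2 = 1}
      mul_mem' := by
        rintro a b ⟨ha, ha2⟩ ⟨hb, hb2⟩
        refine ⟨mul_mem ha hb, ?_⟩
        have : Commute a b := (mem_center_iff.1 hb a)
        rw [this.mul_pow, ha2, hb2, mul_one]
      one_mem' := ⟨one_mem _, one_pow 2⟩
      inv_mem' := by
        rintro a ⟨ha, ha2⟩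
        exact ⟨inv_mem ha, by rw [inv_pow, ha2, inv_one]⟩ } with hT
  have hexp : g3 (G ⧸ g4 G) ≤ T := by
    unfold g3
    rw [commutator_le]
    intro u hu g _
    have h1 : ⁅u, g⁆ ∈ g3 (G ⧸ g4 G) := commutator_mem_commutator hu (mem_top g)
    refine ⟨hcen h1, ?_⟩
    have h2 := mem_center_iff.1 (hcen h1) u
    have h3 : ⁅u ^ 2, g⁆ = ⁅u, g⁆ ^ 2 := by
      have h4 : ⁅u ^ 2, g⁆ = (u * ⁅u, g⁆) * u⁻¹ * ⁅u, g⁆ := by
        simp only [commutatorElement_def, pow_two]; group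
      rw [h4, h2, mul_inv_cancel_right, pow_two]
    rw [← h3, commutatorElement_eq_one_iff_mul_comm]
    exact (mem_center_iff.1 (hcen (hsq u hu)) g).symm
  suffices hsuff : ∀ u ∈ commutator (G ⧸ g4 G), u ^ 2 = 1 by
    intro u hu
    have h1 : f u ∈ commutator (G ⧸ g4 G) := by rw [map_comm' f hfs]; exact mem_map_of_mem f hu
    have h2 := hsuff _ h1
    rw [← map_pow] at h2
    exact (QuotientGroup.eq_one_iff _).1 h2
  intro u hu
  by_contra hcon
  obtain ⟨N, hNn, hN1, hN2, hN3⟩ := avoid (p := 2) hcen (fun h hh => (hexp hh).2) (hsq u hu) hcon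
  have hQ2 := hQ.quot N (hN1.trans g3_le)
  set f2 := QuotientGroup.mk' N with hf2
  have hf2s : Function.Surjective f2 := QuotientGroup.mk'_surjective _
  have hsm : Small3 2 ((G ⧸ g4 G) ⧸ N) (f2 (u ^ 2)) := by
    apply small_map f2 hf2s _ (hsq u hu)
    · intro h
      exact hN2 ((QuotientGroup.eq_one_iff _).1 h)
    · rw [← map_pow, (hexp (hsq u hu)).2, map_one]
    · intro h hh
      obtain ⟨k, hk⟩ := hN3 h hh
      refine ⟨-k, ?_⟩
      have : f2 (h * (u ^ 2) ^ k) = 1 := (QuotientGroup.eq_one_iff _).2 hk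
      rw [map_mul, map_zpow] at this
      rw [zpow_neg]
      exact eq_inv_of_mul_eq_one_left this
    · intro h hh
      have h2 : g4 (G ⧸ g4 G) = ⊥ := bot_of_central hcen
      rw [h2, mem_bot] at hh
      rw [hh, map_one]
  have hu2 : f2 u ∈ commutator ((G ⧸ g4 G) ⧸ N) := by
    rw [map_comm' f2 hf2s]; exact mem_map_of_mem f2 hu
  rcases L3 hQ2 hsm with ⟨_, h1⟩ | ⟨_, v, hv, h1⟩
  · apply hsm.ne
    rw [map_pow]; exact h1 _ hu2
  · rw [map_comm' f2 hf2s] at hv
    obtain ⟨v, hv, rfl⟩ := hv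
    apply hsm.ne
    rw [h1, if_pos rfl, ← map_pow, show 4 = 2 * 2 by norm_num, pow_mul,
      (hexp (hsq v hv)).2, map_one]

theorem g4_bot (hG : Good 2 2 G)
    (hcyc : ¬ ∃ c ∈ commutator G, ∀ u ∈ commutator G, ∃ n : ℤ, u = c ^ n) : g4 G = ⊥ := by
  haveI := hG.fin
  haveI : Fact (Nat.Prime 2) := ⟨Nat.prime_two⟩
  by_contra hne
  have hsq := sq_mem_g4 hG hcyc
  obtain ⟨N, hNn, h1, h2, ⟨t, ht, htN⟩, h4, h5⟩ := reduce hG.pg (H := g4 G) inferInstance hne
  have hQ := hG.quot N (h2.trans (g4_le.trans g3_le))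
  set f := QuotientGroup.mk' N with hf
  have hfs : Function.Surjective f := QuotientGroup.mk'_surjective _
  refine L4 hQ (z := f t) ?_ ?_ ?_ ?_ ?_ ?_
  · apply central_of_bot
    change g5 (G ⧸ N) = ⊥
    rw [map_g5 f hfs, eq_bot_iff]
    rintro _ ⟨h, hh, rfl⟩
    rw [mem_bot]
    exact (QuotientGroup.eq_one_iff h).2 (h1 hh)
  · rw [map_g4 f hfs]; exact mem_map_of_mem f ht
  · intro h
    exact htN ((QuotientGroup.eq_one_iff _).1 h)
  · rw [← map_pow]
    exact (QuotientGroup.eq_one_iff _).2 (h5 t ht)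
  · rw [map_g4 f hfs]
    rintro _ ⟨h, hh, rfl⟩
    obtain ⟨k, hk⟩ := h4 t ht htN h hh
    refine ⟨-k, ?_⟩
    have : f (h * t ^ k) = 1 := (QuotientGroup.eq_one_iff _).2 hk
    rw [map_mul, map_zpow] at this
    rw [zpow_neg]
    exact eq_inv_of_mul_eq_one_left this
  · rw [map_comm' f hfs, map_g4 f hfs]
    rintro _ ⟨u, hu, rfl⟩
    exact ⟨u ^ 2, hsq u hu, map_pow f u 2⟩

/-- the forward direction for class at least three -/
theorem forward_two {p : ℕ} [hp : Fact p.Prime] (hG : Good p 2 G) :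
    ((∃ c ∈ commutator G, ∀ u ∈ commutator G, ∃ n : ℤ, u = c ^ n) ∧
      (p = 2 → ∀ t ∈ g3 G, ∃ u ∈ commutator G, t = u ^ 4)) ∨
    (p = 2 ∧ (∀ u ∈ commutator G, u ^ 2 = 1) ∧ g3 G ≤ center G) := by
  by_cases hcyc : ∃ c ∈ commutator G, ∀ u ∈ commutator G, ∃ n : ℤ, u = c ^ n
  · left
    refine ⟨hcyc, ?_⟩
    rintro rfl
    obtain ⟨c, hc, hcu⟩ := hcyc
    exact cyclic_two hG hc hcu
  · right
    obtain ⟨rfl, -⟩ := noncyclic_quot hG hcyc
    have h4 := g4_bot hG hcyc
    refine ⟨rfl, fun u hu => ?_, central_of_bot h4⟩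
    have := sq_mem_g4 hG hcyc u hu
    rw [h4, mem_bot] at this
    exact this

end

end Pool.Agent.TH79.CA
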