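import Pool.Agent.TH79.CA.Basic

/-!
# Groups with abelian derived subgroup, written additively
-/

namespace Pool.Agent.TH79.CA

open Subgroup
open scoped commutatorElement

universe u v

theorem brk_mem {G : Type*} [Group G] (a b : G) : ⁅a, b⁆ ∈ commutator G := by
  rw [commutator_def]
  exact commutator_mem_commutator (mem_top a) (mem_top b)

/-- The derived subgroup of `G`, assumed abelian, written additively as `M`, with the
conjugation action. -/
structure Fr (G : Type u) (M : Type v) [Group G] [AddCommGroup M] where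
  ι : M → G
  ι_add : ∀ a b, ι (a + b) = ι a * ι b
  inj : Function.Injective ι
  rng : ∀ g, g ∈ commutator G ↔ ∃ a, ι a = g
  act : G →* AddMonoid.End M
  act_spec : ∀ g a, g * ι a * g⁻¹ = ι (act g a)

theorem exists_frame (G : Type u) [Group G]
    (hab : ∀ a ∈ commutator G, ∀ b ∈ commutator G, a * b = b * a) :
    ∃ (M : Type u) (_ : AddCommGroup M), Nonempty (Fr G M) := by
  letI : CommGroup (commutator G) :=
    { (inferInstance : Group (commutator G)) with
      mul_comm := fun a b => Subtype.ext (hab a.1 a.2 b.1 b.2) }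
  refine ⟨Additive (commutator G), inferInstance, ⟨?_⟩⟩
  exact
    { ι := fun a => (a.toMul : G)
      ι_add := fun a b => rfl
      inj := fun a b h => Subtype.ext h
      rng := fun g => ⟨fun h => ⟨Additive.ofMul ⟨g, h⟩, rfl⟩, by rintro ⟨a, rfl⟩; exact a.toMul.2⟩
      act :=
        { toFun := fun g => MonoidHom.toAdditive (MulAut.conjNormal g).toMonoidHom
          map_one' := by
            ext a
            show (1 : G) * a.toMul * 1⁻¹ = a.toMul
            simp
          map_mul' := by
            intro g h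
            ext a
            show (g * h) * a.toMul * (g * h)⁻¹ = g * (h * a.toMul * h⁻¹) * g⁻¹
            group }
      act_spec := fun g a => rfl }

namespace Fr

variable {G : Type u} {M : Type v} [Group G] [AddCommGroup M] (F : Fr G M)

theorem ι_zero : F.ι 0 = 1 := by
  have := F.ι_add 0 0
  rw [add_zero] at this
  exact (mul_eq_left.1 this.symm)

theorem ι_neg (a : M) : F.ι (-a) = (F.ι a)⁻¹ := by
  rw [eq_inv_iff_mul_eq_one, ← F.ι_add, neg_add_cancel, F.ι_zero]

/-- `ι` as a homomorphism -/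
def ιh : Multiplicative M →* G where
  toFun a := F.ι a.toAdd
  map_one' := F.ι_zero
  map_mul' _ _ := F.ι_add _ _

theorem ι_zsmul (n : ℤ) (a : M) : F.ι (n • a) = F.ι a ^ n := by
  have := map_zpow F.ιh (Multiplicative.ofAdd a) n
  exact this

theorem ι_eq_one {a : M} : F.ι a = 1 ↔ a = 0 := by
  rw [← F.ι_zero]
  exact F.inj.eq_iff

theorem ι_mem (a : M) : F.ι a ∈ commutator G := (F.rng _).2 ⟨a, rfl⟩

theorem act_mul (g h : G) (a : M) : F.act (g * h) a = F.act g (F.act h a) := by
  rw [map_mul]; rfl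

theorem act_one (a : M) : F.act 1 a = a := by
  rw [map_one]; rfl

theorem act_inv_act (g : G) (a : M) : F.act g⁻¹ (F.act g a) = a := by
  rw [← F.act_mul, inv_mul_cancel, F.act_one]

theorem act_act_inv (g : G) (a : M) : F.act g (F.act g⁻¹ a) = a := by
  rw [← F.act_mul, mul_inv_cancel, F.act_one]

theorem act_ι (a b : M) : F.act (F.ι a) b = b := by
  apply F.inj
  rw [← F.act_spec, ← F.ι_add, ← F.ι_neg, ← F.ι_add]
  congr 1
  abel

theorem act_of_comm {g : G} (hg : g ∈ commutator G) (b : M) : F.act g b = b := by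
  obtain ⟨a, rfl⟩ := (F.rng g).1 hg
  exact F.act_ι a b

theorem act_comm (g h : G) (a : M) : F.act g (F.act h a) = F.act h (F.act g a) := by
  rw [← F.act_mul, ← F.act_mul]
  have h1 : g * h = h * g * ⁅g⁻¹, h⁻¹⁆ := by rw [commutatorElement_def]; group
  rw [h1, F.act_mul (h * g), F.act_of_comm (brk_mem _ _)]

theorem conj_ι (g : G) (a : M) : g * F.ι a = F.ι (F.act g a) * g := by
  rw [← F.act_spec]; group

theorem ι_conj (g : G) (a : M) : F.ι a * g = g * F.ι (F.act g⁻¹ a) := by
  rw [F.conj_ι, F.act_act_inv]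

theorem mem_comm {G : Type u} [Group G] (x g : G) : x⁻¹ * g * x * g⁻¹ ∈ commutator G := by
  have : x⁻¹ * g * x * g⁻¹ = ⁅x⁻¹, g⁆ := by
    rw [commutatorElement_def]; group
  rw [this]
  exact brk_mem _ _

/-- `δ x g` is `x⁻¹ (g x g⁻¹)`. -/
noncomputable def δ (x g : G) : M := ((F.rng _).1 (mem_comm x g)).choose

theorem δ_spec (x g : G) : F.ι (F.δ x g) = x⁻¹ * g * x * g⁻¹ :=
  ((F.rng _).1 (mem_comm x g)).choose_spec

theorem δ_conj (x g : G) : g * x * g⁻¹ = x * F.ι (F.δ x g) := by
  rw [F.δ_spec]; group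

theorem δ_eq {x g : G} {a : M} (h : x⁻¹ * g * x * g⁻¹ = F.ι a) : F.δ x g = a := by
  apply F.inj
  rw [F.δ_spec, h]

theorem δ_mul (x g h : G) : F.δ x (g * h) = F.δ x g + F.act g (F.δ x h) := by
  apply F.δ_eq
  rw [F.ι_add, ← F.act_spec, F.δ_spec, F.δ_spec]
  group

theorem δ_one (x : G) : F.δ x 1 = 0 := by
  apply F.δ_eq
  rw [F.ι_zero]; group

theorem δ_self (x : G) : F.δ x x = 0 := by
  apply F.δ_eq
  rw [F.ι_zero]; group

theorem δ_inv (x g : G) : F.δ x g⁻¹ = - F.act g⁻¹ (F.δ x g) := by
  have := F.δ_mul x g⁻¹ g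
  rw [inv_mul_cancel, δ_one] at this
  exact (neg_eq_of_add_eq_zero_left this.symm).symm

theorem δ_ι (x : G) (a : M) : F.δ x (F.ι a) = F.act x⁻¹ a - a := by
  apply F.δ_eq
  rw [sub_eq_add_neg, F.ι_add, F.ι_neg, ← F.act_spec]
  group

/-- `δ` with a modified first argument. -/
theorem δ_mul_left (x g : G) (a : M) : F.δ (x * F.ι a) g = -a + F.δ x g + F.act g a := by
  apply F.δ_eq
  rw [F.ι_add, F.ι_add, F.ι_neg, ← F.act_spec, F.δ_spec]
  group

/-- `δ` with a modified second argument. -/
theorem δ_mul_right (x g : G) (b : M) :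
    F.δ x (g * F.ι b) = F.δ x g + F.act g (F.act x⁻¹ b - b) := by
  rw [F.δ_mul, F.δ_ι]

/-- image of `δ` under a homomorphism -/
theorem map_δ (α : G →* G) (x g : G) : α (F.ι (F.δ x g)) = F.ι (F.δ (α x) (α g)) := by
  rw [F.δ_spec, F.δ_spec]; simp

/-- an element acted upon trivially by everything is central -/
theorem central_of_fixed {a : M} (h : ∀ g, F.act g a = a) (g : G) : g * F.ι a * g⁻¹ = F.ι a := by
  rw [F.act_spec, h]

theorem act_iff (g : G) (a : M) : F.act g a = a ↔ g * F.ι a = F.ι a * g := by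
  rw [F.conj_ι]
  constructor
  · intro h; rw [h]
  · intro h
    apply F.inj
    exact mul_right_cancel h

end Fr

/-- induction over a finite group generated by a set, only multiplicative closure -/
theorem closure_induct {G : Type*} [Group G] [Finite G] {S : Set G} (hS : Subgroup.closure S = ⊤)
    {P : G → Prop} (hm : ∀ g ∈ S, P g) (h1 : P 1) (hmul : ∀ g h, P g → P h → P (g * h)) (g : G) :
    P g := by
  let K : Submonoid G :=
    { carrier := {g | P g}
      mul_mem' := fun {a b} ha hb => hmul a b ha hb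
      one_mem' := h1 }
  have h2 : Submonoid.closure S ≤ K := Submonoid.closure_le.2 hm
  have h3 : g ∈ (Subgroup.closure S).toSubmonoid := by rw [hS]; trivial
  rw [Subgroup.closure_toSubmonoid_of_finite] at h3
  exact h2 h3

/-- pair version of the extension property -/
theorem EE.pair {G : Type*} [Group G] (h : EE G 2) {x y : G}
    (hxy : Subgroup.closure {x, y} = ⊤) {a b : G} (ha : a ∈ commutator G)
    (hb : b ∈ commutator G) :
    ∃ α : G ≃* G, (∀ g, IsConj g (α g)) ∧ α x = x * a ∧ α y = y * b := by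
  obtain ⟨α, h1, h2⟩ := h ![x, y] (by
    rw [← hxy]
    congr 1
    ext g
    simp [eq_comm, or_comm]) ![a, b] (by
    intro i
    fin_cases i
    · exact ha
    · exact hb)
  exact ⟨α, h1, by simpa using h2 0, by simpa using h2 1⟩

end Pool.Agent.TH79.CA
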