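import Pool.Agent.TH79.CA.ClassThree

/-!
# Three or more generators are impossible in class three
-/

namespace Pool.Agent.TH79.CA

open Subgroup
open scoped commutatorElement

universe u v

namespace Fr

variable {G : Type u} {M : Type v} [Group G] [AddCommGroup M] (F : Fr G M)

theorem track [Finite G] {d : ℕ} {x : Fin d → G} (hx : closure (Set.range x) = ⊤)
    (hfix : ∀ u g h, F.act h (F.act g u - u) = F.act g u - u) (j : Fin d) (w : G) :
    ∃ n : ℤ, ∀ (c : M) (α : G →* G), (∀ i, i ≠ j → α (x i) = x i) → α (x j) = x j * F.ι c →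
      ∃ v : M, (∀ g, F.act g v = v) ∧ α w = w * F.ι (n • c + v) := by
  refine closure_induct hx (P := fun w => ∃ n : ℤ, ∀ (c : M) (α : G →* G),
    (∀ i, i ≠ j → α (x i) = x i) → α (x j) = x j * F.ι c →
      ∃ v : M, (∀ g, F.act g v = v) ∧ α w = w * F.ι (n • c + v)) ?_ ?_ ?_ w
  · rintro _ ⟨i, rfl⟩
    by_cases hi : i = j
    · subst hi
      refine ⟨1, fun c α _ h2 => ⟨0, fun g => map_zero _, ?_⟩⟩
      rw [h2, one_smul, add_zero]
    · refine ⟨0, fun c α h1 _ => ⟨0, fun g => map_zero _, ?_⟩⟩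
      rw [h1 i hi, zero_smul, add_zero, F.ι_zero, mul_one]
  · refine ⟨0, fun c α _ _ => ⟨0, fun g => map_zero _, ?_⟩⟩
    rw [zero_smul, add_zero, F.ι_zero, mul_one, map_one]
  · rintro w w' ⟨n, hn⟩ ⟨n', hn'⟩
    refine ⟨n + n', fun c α h1 h2 => ?_⟩
    obtain ⟨v, hv, e⟩ := hn c α h1 h2
    obtain ⟨v', hv', e'⟩ := hn' c α h1 h2
    refine ⟨n • (F.act w'⁻¹ c - c) + v + v', ?_, ?_⟩
    · intro g
      rw [map_add, map_add, map_zsmul, hfix, hv, hv']
    · rw [map_mul, e, e']
      have h3 : F.ι (n • c + v) * w' = w' * F.ι (F.act w'⁻¹ (n • c + v)) := F.ι_conj _ _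
      rw [mul_assoc w, ← mul_assoc (F.ι (n • c + v)), h3, mul_assoc, ← F.ι_add, ← mul_assoc]
      congr 2
      rw [map_add, map_zsmul, hv]
      module

theorem camd {d : ℕ} (hE : EE G d) {x : Fin d → G} (hx : closure (Set.range x) = ⊤) (i : Fin d)
    (u : M) : ∃ g, F.δ (x i) g = u := by
  classical
  obtain ⟨α, h1, h2⟩ := hE x hx (fun j => if j = i then F.ι u else 1) (by
    intro j
    split_ifs
    · exact F.ι_mem u
    · exact one_mem _)
  obtain ⟨g, hg⟩ := isConj_iff.1 (h1 (x i))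
  refine ⟨g, F.δ_eq ?_⟩
  rw [h2, if_pos rfl] at hg
  rw [mul_assoc, mul_assoc, ← mul_assoc g, hg]
  group

theorem δ_pow_triv {x g : G} (hg : ∀ a, F.act g a = a) (n : ℤ) :
    F.δ x (g ^ n) = n • F.δ x g := by
  induction n using Int.induction_on with
  | zero => simp [F.δ_one]
  | succ n ih =>
    rw [add_comm, zpow_add, zpow_one, F.δ_mul, ih, hg]; module
  | pred n ih =>
    have h0 : ∀ a, F.act g⁻¹ a = a := fun a => by
      apply F.act_inj g
      rw [F.act_act_inv, hg]
    rw [show -(n : ℤ) - 1 = -1 + -(n : ℤ) by ring, zpow_add, zpow_neg_one, F.δ_mul, ih, h0,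
      F.δ_inv, h0]; module

theorem act_inv_triv {g : G} (hg : ∀ a, F.act g a = a) (a : M) : F.act g⁻¹ a = a := by
  apply F.act_inj g
  rw [F.act_act_inv, hg]

theorem act_zpow_triv {g : G} (hg : ∀ a, F.act g a = a) (n : ℤ) (a : M) :
    F.act (g ^ n) a = a := by
  induction n using Int.induction_on with
  | zero => simp
  | succ n ih => rw [zpow_add_one, F.act_mul, hg, ih]
  | pred n ih => rw [zpow_sub_one, F.act_mul, F.act_inv_triv hg, ih]

/-- for `d ≥ 3` every other generator can be corrected to centralize `M` -/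
theorem stepA [Finite G] {d : ℕ} (hd : 3 ≤ d) (hE : EE G d) {x : Fin d → G}
    (hx : closure (Set.range x) = ⊤)
    (hfix : ∀ u g h, F.act h (F.act g u - u) = F.act g u - u) {i0 j : Fin d} (hj : j ≠ i0) :
    ∃ n : ℤ, ∀ c, F.act (x j * (x i0) ^ n) c = c := by
  classical
  obtain ⟨j', hj'⟩ : ∃ j' : Fin d, j' ∉ ({i0, j} : Finset (Fin d)) := by
    by_contra hcon
    push Not at hcon
    have h1 : Finset.univ ⊆ ({i0, j} : Finset (Fin d)) := fun k _ => hcon k
    have h2 := Finset.card_le_card h1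
    rw [Finset.card_univ, Fintype.card_fin] at h2
    have h3 := Finset.card_le_two (a := i0) (b := j)
    omega
  simp only [Finset.mem_insert, Finset.mem_singleton, not_or] at hj'
  obtain ⟨hj1, hj2⟩ := hj'
  obtain ⟨w, hw⟩ := F.camd hE hx i0 (F.δ (x j') (x j))
  obtain ⟨n, hn⟩ := F.track hx hfix j' w
  refine ⟨n, fun c => ?_⟩
  obtain ⟨α, h1, h2⟩ := hE x hx (fun i => if i = j' then F.ι c else 1) (by
    intro j
    split_ifs
    · exact F.ι_mem c
    · exact one_mem _)
  have ha : ∀ i, i ≠ j' → (α : G →* G) (x i) = x i := by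
    intro i hi
    have := h2 i
    rw [if_neg hi, mul_one] at this
    exact this
  have hb : (α : G →* G) (x j') = x j' * F.ι c := by
    have := h2 j'
    rw [if_pos rfl] at this
    exact this
  obtain ⟨v, hv, e⟩ := hn c α ha hb
  have h3 : F.δ (x i0) (w * F.ι (n • c + v)) = F.δ (x j' * F.ι c) (x j) := by
    have := congrArg (α : G →* G) (congrArg F.ι hw)
    rw [F.map_δ, F.map_δ, ha i0 (Ne.symm hj1), hb, ha j (Ne.symm hj2), e] at this
    exact F.inj this
  rw [F.δ_mul_right, F.δ_mul_left, hw, map_add, map_zsmul, hv] at h3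
  have h4 : F.act (x j) c - c = n • (F.act (x i0)⁻¹ c - c) := by
    have h5 : n • F.act (x i0)⁻¹ c + v - (n • c + v) = n • (F.act (x i0)⁻¹ c - c) := by module
    rw [h5, map_zsmul, hfix] at h3
    have h6 : F.act (x j) c - c = (-c + F.δ (x j') (x j) + F.act (x j) c) - F.δ (x j') (x j) := by
      abel
    rw [h6, ← h3]; abel
  have h7 : F.act (x i0)⁻¹ c = c + (F.act (x i0)⁻¹ c - c) := by abel
  have h8 := F.act_pow (hfix c (x i0)⁻¹ (x i0)⁻¹) h7 (-n)
  have h9 : (x i0) ^ n = ((x i0)⁻¹) ^ (-n) := by rw [inv_zpow, zpow_neg, inv_inv]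
  rw [F.act_mul, h9, h8, map_add, map_zsmul, hfix]
  have h10 : F.act (x j) c = c + n • (F.act (x i0)⁻¹ c - c) := by rw [← h4]; abel
  rw [h10]; module

theorem no_three [Finite G] {p : ℕ} [hp : Fact p.Prime] {d : ℕ} (hd : 3 ≤ d) (hE : EE G d)
    {x : Fin d → G}
    (hx : closure (Set.range x) = ⊤) {z : M} (hpz : (p : ℤ) • z = 0)
    (hzf : ∀ g, F.act g z = z)
    (hs : ∀ u g, ∃ k : ℤ, F.act g u - u = k • z) (hne : ∃ u g, F.act g u ≠ u) : False := by
  classical
  have hfix : ∀ u g h, F.act h (F.act g u - u) = F.act g u - u := by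
    intro u g h
    obtain ⟨k, hk⟩ := hs u g
    rw [hk, map_zsmul, hzf]
  obtain ⟨i0, c0, hc0⟩ : ∃ i0, ∃ c0, F.act (x i0) c0 ≠ c0 := by
    by_contra hcon
    push Not at hcon
    obtain ⟨u, g, hug⟩ := hne
    apply hug
    refine closure_induct hx (P := fun g => F.act g u = u) ?_ ?_ ?_ g
    · rintro _ ⟨i, rfl⟩
      exact hcon i u
    · exact F.act_one _
    · intro g h hg hh
      rw [F.act_mul, hh, hg]
  have hA : ∀ j : Fin d, ∃ n : ℤ, j ≠ i0 → ∀ c, F.act (x j * (x i0) ^ n) c = c := by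
    intro j
    by_cases hj : j = i0
    · exact ⟨0, fun h => absurd hj h⟩
    · obtain ⟨n, hn⟩ := F.stepA hd hE hx hfix hj
      exact ⟨n, fun _ => hn⟩
  choose n hn using hA
  set x' : Fin d → G := fun j => if j = i0 then x i0 else x j * (x i0) ^ (n j) with hx'
  have hx'0 : x' i0 = x i0 := by simp [hx']
  have hx'j : ∀ j, j ≠ i0 → ∀ c, F.act (x' j) c = c := by
    intro j hj c
    have : x' j = x j * (x i0) ^ (n j) := by simp [hx', hj]
    rw [this]; exact hn j hj c
  have hgen : closure (Set.range x') = ⊤ := by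
    rw [eq_top_iff, ← hx, closure_le]
    rintro _ ⟨j, rfl⟩
    have h0 : x i0 ∈ closure (Set.range x') := subset_closure ⟨i0, hx'0⟩
    by_cases hj : j = i0
    · rw [hj]; exact h0
    · have h1 : x j * (x i0) ^ (n j) ∈ closure (Set.range x') :=
        subset_closure ⟨j, by simp [hx', hj]⟩
      have h2 := mul_mem h1 (inv_mem (zpow_mem h0 (n j)))
      rwa [mul_inv_cancel_right] at h2
  obtain ⟨j1, j2, hj1, hj2, hj12⟩ : ∃ j1 j2 : Fin d, j1 ≠ i0 ∧ j2 ≠ i0 ∧ j1 ≠ j2 := by
    have h1 : 1 < (Finset.univ.erase i0).card := by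
      rw [Finset.card_erase_of_mem (Finset.mem_univ i0), Finset.card_univ, Fintype.card_fin]
      omega
    obtain ⟨a, ha, b, hb, hab⟩ := Finset.one_lt_card.1 h1
    exact ⟨a, b, Finset.ne_of_mem_erase ha, Finset.ne_of_mem_erase hb, hab⟩
  obtain ⟨a1, ha1⟩ := hs (F.δ (x i0) (x' j1)) (x i0)
  obtain ⟨a2, ha2⟩ := hs (F.δ (x i0) (x' j2)) (x i0)
  obtain ⟨j, y, hj, hgy, hy, hU⟩ : ∃ (j : Fin d) (y : G), j ≠ i0 ∧
      closure (Set.range (Function.update x' j y)) = ⊤ ∧ (∀ c, F.act y c = c) ∧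
      F.act (x i0) (F.δ (x i0) y) = F.δ (x i0) y := by
    by_cases h1 : a1 • z = 0
    · refine ⟨j1, x' j1, hj1, ?_, hx'j j1 hj1, ?_⟩
      · rw [Function.update_eq_self]; exact hgen
      · rw [h1] at ha1; exact sub_eq_zero.1 ha1
    · have hpa : ¬ (p : ℤ) ∣ a1 := by
        rintro ⟨m, rfl⟩
        apply h1
        rw [mul_comm, mul_smul, hpz, smul_zero]
      have hco : IsCoprime a1 (p : ℤ) := by
        rw [Int.isCoprime_iff_gcd_eq_one, Int.gcd_comm]
        have := (Nat.Prime.coprime_iff_not_dvd hp.out (n := a1.natAbs)).2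
          (by rwa [← Int.natCast_dvd])
        rw [Int.gcd_eq_natAbs]
        simpa using this
      obtain ⟨a, b, hab⟩ := hco
      have hk : a2 • z + (-(a2 * a)) • (a1 • z) = 0 := by
        have h2 : (a * a1 + b * p) • z = z := by rw [hab, one_smul]
        rw [add_smul, mul_smul b, hpz, smul_zero, add_zero] at h2
        have h3 : (-(a2 * a)) • (a1 • z) = - (a2 • ((a * a1) • z)) := by module
        rw [h3, h2]; abel
      refine ⟨j2, x' j2 * (x' j1) ^ (-(a2 * a)), hj2, ?_, ?_, ?_⟩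
      · rw [eq_top_iff, ← hgen, closure_le]
        set y := x' j2 * (x' j1) ^ (-(a2 * a)) with hy
        have h0 : x' j1 ∈ closure (Set.range (Function.update x' j2 y)) :=
          subset_closure ⟨j1, by simp [hj12]⟩
        have h1 : y ∈ closure (Set.range (Function.update x' j2 y)) :=
          subset_closure ⟨j2, by simp⟩
        rintro _ ⟨i, rfl⟩
        by_cases hi : i = j2
        · rw [hi]
          have h2 := mul_mem h1 (inv_mem (zpow_mem h0 (-(a2 * a))))
          rw [hy, mul_inv_cancel_right] at h2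
          exact h2
        · exact subset_closure ⟨i, by simp [hi]⟩
      · intro c
        rw [F.act_mul, F.act_zpow_triv (hx'j j1 hj1), hx'j j2 hj2]
      · rw [F.δ_mul, hx'j j2 hj2, F.δ_pow_triv (hx'j j1 hj1), map_add, map_zsmul]
        have e1 : F.act (x i0) (F.δ (x i0) (x' j1)) = F.δ (x i0) (x' j1) + a1 • z := by
          rw [← ha1]; abel
        have e2 : F.act (x i0) (F.δ (x i0) (x' j2)) = F.δ (x i0) (x' j2) + a2 • z := by
          rw [← ha2]; abel
        rw [e1, e2, smul_add]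
        calc _ = F.δ (x i0) (x' j2) + (-(a2 * a)) • F.δ (x i0) (x' j1) +
              (a2 • z + (-(a2 * a)) • (a1 • z)) := by abel
          _ = _ := by rw [hk, add_zero]
  set x'' := Function.update x' j y with hx''
  have hi0 : x'' i0 = x i0 := by
    rw [hx'', Function.update_of_ne hj.symm, hx'0]
  have hUf : ∀ g, F.act g (F.δ (x i0) y) = F.δ (x i0) y := by
    intro g
    refine closure_induct hgy (P := fun g => F.act g (F.δ (x i0) y) = F.δ (x i0) y) ?_ ?_ ?_ g
    · rintro _ ⟨i, rfl⟩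
      by_cases hi : i = i0
      · rw [hi, hi0]; exact hU
      · by_cases hi2 : i = j
        · rw [hi2, hx'', Function.update_self]; exact hy _
        · rw [hx'', Function.update_of_ne hi2]; exact hx'j i hi _
    · exact F.act_one _
    · intro g h hg hh
      rw [F.act_mul, hh, hg]
  obtain ⟨α, h1, h2⟩ := hE x'' hgy (fun i => if i = j then F.ι c0 else 1) (by
    intro j
    split_ifs
    · exact F.ι_mem c0
    · exact one_mem _)
  have e0 : α (x i0) = x i0 := by
    have := h2 i0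
    rw [if_neg hj.symm, mul_one, hi0] at this
    exact this
  have e1 : α y = y * F.ι c0 := by
    have := h2 j
    rw [if_pos rfl, hx'', Function.update_self] at this
    exact this
  have e2 : α (F.ι (F.δ (x i0) y)) = F.ι (F.δ (x i0) y) := by
    obtain ⟨g, hg⟩ := isConj_iff.1 (h1 (F.ι (F.δ (x i0) y)))
    rw [← hg, F.act_spec, hUf]
  have e3 : F.δ (x i0) (y * F.ι c0) = F.δ (x i0) y := by
    apply F.inj
    have := F.map_δ (α : G →* G) (x i0) y
    change α (F.ι (F.δ (x i0) y)) = F.ι (F.δ (α (x i0)) (α y)) at this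
    rw [e0, e1, e2] at this
    exact this.symm
  rw [F.δ_mul_right, hy] at e3
  have e4 : F.act (x i0)⁻¹ c0 = c0 := by
    have := add_eq_left.1 e3
    exact sub_eq_zero.1 this
  apply hc0
  conv_lhs => rw [← e4]
  exact F.act_act_inv _ _

end Fr

end Pool.Agent.TH79.CA
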