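import Pool.Agent.TH79.CA.NoThree
import Pool.Agent.TH79.CA.ClassFour

/-!
# Reduction to small quotients; group-theoretic forms of the key lemmas
-/

namespace Pool.Agent.TH79.CA

open Subgroup
open scoped commutatorElement

universe u

/-- finite `p`-group generated by `d` elements with the extension property -/
structure Good (p d : ℕ) (G : Type u) [Group G] : Prop where
  fin : Finite G
  pg : IsPGroup p G
  ee : EE G d
  gen : ∃ x : Fin d → G, closure (Set.range x) = ⊤

section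

variable {G : Type u} [Group G]

theorem map_comm' {Q : Type u} [Group Q] (f : G →* Q) (hf : Function.Surjective f) :
    commutator Q = (commutator G).map f := by
  rw [commutator_def, commutator_def, Subgroup.map_commutator,
    Subgroup.map_top_of_surjective _ hf]

theorem map_g3 {Q : Type u} [Group Q] (f : G →* Q) (hf : Function.Surjective f) :
    g3 Q = (g3 G).map f := by
  unfold g3
  rw [Subgroup.map_commutator, Subgroup.map_top_of_surjective _ hf, map_comm' f hf]

theorem map_g4 {Q : Type u} [Group Q] (f : G →* Q) (hf : Function.Surjective f) :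
    g4 Q = (g4 G).map f := by
  unfold g4
  rw [Subgroup.map_commutator, Subgroup.map_top_of_surjective _ hf, map_g3 f hf]

theorem map_g5 {Q : Type u} [Group Q] (f : G →* Q) (hf : Function.Surjective f) :
    g5 Q = (g5 G).map f := by
  unfold g5
  rw [Subgroup.map_commutator, Subgroup.map_top_of_surjective _ hf, map_g4 f hf]

theorem g3_le : g3 G ≤ commutator G := by
  unfold g3
  exact commutator_le_left _ _

theorem g4_le : g4 G ≤ g3 G := by
  unfold g4
  exact commutator_le_left _ _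

theorem central_of_bot {H : Subgroup G} (h : ⁅H, (⊤ : Subgroup G)⁆ = ⊥) : H ≤ center G := by
  intro x hx
  rw [mem_center_iff]
  intro g
  have h1 : ⁅x, g⁆ ∈ ⁅H, (⊤ : Subgroup G)⁆ := commutator_mem_commutator hx (mem_top g)
  rw [h, mem_bot, commutatorElement_eq_one_iff_mul_comm] at h1
  exact h1.symm

theorem bot_of_central {H : Subgroup G} (h : H ≤ center G) : ⁅H, (⊤ : Subgroup G)⁆ = ⊥ := by
  rw [eq_bot_iff, commutator_le]
  intro x hx g _
  rw [mem_bot, commutatorElement_eq_one_iff_mul_comm]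
  exact (mem_center_iff.1 (h hx) g).symm

theorem Good.quot {p d : ℕ} [Fact p.Prime] (h : Good p d G) (N : Subgroup G) [N.Normal]
    (hN : N ≤ commutator G) : Good p d (G ⧸ N) := by
  haveI := h.fin
  refine ⟨inferInstance, h.pg.to_quotient N, EE_quotient h.pg h.ee N hN, ?_⟩
  obtain ⟨x, hx⟩ := h.gen
  refine ⟨fun i => QuotientGroup.mk' N (x i), ?_⟩
  have h1 : Set.range (fun i => QuotientGroup.mk' N (x i)) = QuotientGroup.mk' N '' Set.range x := by
    rw [← Set.range_comp]; rfl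
  rw [h1, ← MonoidHom.map_closure, hx,
    Subgroup.map_top_of_surjective _ (QuotientGroup.mk'_surjective N)]

theorem Good.pair {p : ℕ} (h : Good p 2 G) : ∃ x y : G, closure {x, y} = ⊤ := by
  obtain ⟨x, hx⟩ := h.gen
  refine ⟨x 0, x 1, ?_⟩
  rw [← hx]
  congr 1
  ext g
  constructor
  · rintro (rfl | rfl)
    · exact ⟨0, rfl⟩
    · exact ⟨1, rfl⟩
  · rintro ⟨i, rfl⟩
    fin_cases i
    · left; rfl
    · right; rfl

/-- nilpotency: `[H, G] ≠ H` for `H ≠ 1` -/
theorem comm_ne [Group.IsNilpotent G] {H : Subgroup G} (hH : H ≠ ⊥) :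
    ⁅H, (⊤ : Subgroup G)⁆ ≠ H := by
  intro h
  obtain ⟨n, hn⟩ := Subgroup.nilpotent_iff_lowerCentralSeries.1 (inferInstance : Group.IsNilpotent G)
  have h1 : ∀ n, H ≤ Subgroup.lowerCentralSeries (⊤ : Subgroup G) n := by
    intro n
    induction n with
    | zero => exact le_top
    | succ n ih =>
      rw [Subgroup.lowerCentralSeries_succ]
      conv_lhs => rw [← h]
      exact commutator_mono ih le_rfl
  apply hH
  rw [eq_bot_iff, ← hn]
  exact h1 n

/-- a maximal `G`-central section at the top of `H` -/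
theorem reduce {p : ℕ} [hp : Fact p.Prime] [Finite G] (hG : IsPGroup p G) {H : Subgroup G}
    (hn : H.Normal) (hH : H ≠ ⊥) :
    ∃ N : Subgroup G, N.Normal ∧ ⁅H, (⊤ : Subgroup G)⁆ ≤ N ∧ N ≤ H ∧
      (∃ t ∈ H, t ∉ N) ∧ (∀ t ∈ H, t ∉ N → ∀ h ∈ H, ∃ k : ℤ, h * t ^ k ∈ N) ∧
      ∀ h ∈ H, h ^ p ∈ N := by
  haveI := hG.isNilpotent
  have h1 : ⁅H, (⊤ : Subgroup G)⁆ < H :=
    lt_of_le_of_ne (commutator_le_left _ _) (comm_ne hH)
  obtain ⟨N, hN⟩ := (Set.toFinite {N : Subgroup G | ⁅H, (⊤ : Subgroup G)⁆ ≤ N ∧ N < H}).exists_maximal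
    ⟨⁅H, (⊤ : Subgroup G)⁆, le_rfl, h1⟩
  have hN1 : ⁅H, (⊤ : Subgroup G)⁆ ≤ N := hN.1.1
  have hN2 : N < H := hN.1.2
  have hNn : N.Normal := by
    constructor
    intro n hn g
    have h2 : ⁅g, n⁆ ∈ N := by
      apply hN1
      rw [commutator_comm]
      exact commutator_mem_commutator (mem_top g) (hN2.le hn)
    have h3 : g * n * g⁻¹ = ⁅g, n⁆ * n := by
      rw [commutatorElement_def]; group
    rw [h3]
    exact N.mul_mem h2 hn
  have hgen : ∀ t ∈ H, t ∉ N → ∀ h ∈ H, ∃ k : ℤ, h * t ^ k ∈ N := by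
    intro t ht htN h hh
    have h4 : H ≤ N ⊔ zpowers t := by
      by_contra hcon
      have h5 : N ⊔ zpowers t < H :=
        lt_of_le_of_ne (sup_le hN2.le ((zpowers_le).2 ht)) (fun e => hcon e.ge)
      have h6 := hN.2 (y := N ⊔ zpowers t) ⟨hN1.trans le_sup_left, h5⟩ le_sup_left
      exact htN (h6 (mem_sup_right (mem_zpowers t)))
    have h5 := h4 hh
    rw [mem_sup_of_normal_left] at h5
    obtain ⟨n, hn, _, ⟨k, rfl⟩, e⟩ := h5
    refine ⟨-k, ?_⟩
    rw [← e]
    simpa using hn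
  refine ⟨N, hNn, hN1, hN2.le, ?_, hgen, ?_⟩
  · obtain ⟨t, ht, htN⟩ := Set.exists_of_ssubset hN2
    exact ⟨t, ht, htN⟩
  · intro h hh
    by_contra hcon
    obtain ⟨k, hk⟩ := hgen _ (H.pow_mem hh p) hcon h hh
    have h5 : ¬ (p : ℤ) ∣ 1 + p * k := by
      intro h
      have h6 : (p : ℤ) ∣ 1 := by
        have := dvd_sub h (Dvd.intro k rfl : (p : ℤ) ∣ p * k)
        simpa using this
      have := Int.eq_one_of_dvd_one (by positivity) h6
      exact hp.out.one_lt.ne' (by exact_mod_cast this)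
    have h7 : h ∈ N := by
      apply pow_coprime_mem hG h5
      rw [zpow_add, zpow_one, zpow_mul, zpow_natCast]
      exact hk
    exact hcon (N.pow_mem h7 p)

/-- avoiding a given element in a central subgroup of exponent `p` -/
theorem avoid {p : ℕ} [hp : Fact p.Prime] [Finite G] {H : Subgroup G}
    (hc : H ≤ center G) (hH : ∀ h ∈ H, h ^ p = 1) {t : G} (ht : t ∈ H) (ht1 : t ≠ 1) :
    ∃ N : Subgroup G, N.Normal ∧ N ≤ H ∧ t ∉ N ∧ ∀ h ∈ H, ∃ k : ℤ, h * t ^ k ∈ N := by
  obtain ⟨N, hN⟩ := (Set.toFinite {N : Subgroup G | N ≤ H ∧ t ∉ N}).exists_maximal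
    ⟨⊥, bot_le, by simpa using ht1⟩
  have hN1 : N ≤ H := hN.1.1
  have hN2 : t ∉ N := hN.1.2
  have hNn : N.Normal := by
    constructor
    intro n hn g
    have := mem_center_iff.1 (hc (hN1 hn)) g
    rw [this, mul_inv_cancel_right]; exact hn
  refine ⟨N, hNn, hN1, hN2, ?_⟩
  intro h hh
  by_cases hhN : h ∈ N
  · exact ⟨0, by simpa using hhN⟩
  · have h4 : t ∈ N ⊔ zpowers h := by
      by_contra hcon
      have h6 := hN.2 (y := N ⊔ zpowers h) ⟨sup_le hN1 ((zpowers_le).2 hh), hcon⟩ le_sup_left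
      exact hhN (h6 (mem_sup_right (mem_zpowers h)))
    rw [mem_sup_of_normal_left] at h4
    obtain ⟨n, hn, _, ⟨j, rfl⟩, e⟩ := h4
    have hpj : ¬ (p : ℤ) ∣ j := by
      rintro ⟨m, rfl⟩
      apply hN2
      rw [← e]
      simp only [zpow_mul, zpow_natCast]
      rw [hH h hh, one_zpow, mul_one]
      exact hn
    have hco : IsCoprime j (p : ℤ) := by
      rw [Int.isCoprime_iff_gcd_eq_one, Int.gcd_comm]
      have := (Nat.Prime.coprime_iff_not_dvd hp.out (n := j.natAbs)).2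
        (by rwa [← Int.natCast_dvd])
      rw [Int.gcd_eq_natAbs]
      simpa using this
    obtain ⟨a, b, hab⟩ := hco
    refine ⟨-a, ?_⟩
    have h7 : h = (h ^ j) ^ a := by
      have : h ^ (a * j + b * p) = h := by rw [hab, zpow_one]
      rw [zpow_add, mul_comm b, zpow_mul h (p : ℤ), zpow_natCast, hH h hh, one_zpow, mul_one,
        mul_comm, zpow_mul] at this
      exact this.symm
    have h8 : h ^ j = n⁻¹ * t := by rw [← e]; simp
    have hcomm : Commute n⁻¹ t := ((mem_center_iff.1 (hc ht) n⁻¹))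
    rw [h7, h8, hcomm.mul_zpow, zpow_neg, mul_inv_cancel_right]
    exact N.zpow_mem (N.inv_mem hn) a

/-- if the two generators commute modulo `K` then `K` contains the derived subgroup -/
theorem comm_le_of_pair {x y : G} (hxy : closure {x, y} = ⊤) {K : Subgroup G} [K.Normal]
    (hK : ⁅x, y⁆ ∈ K) : commutator G ≤ K := by
  rw [← Subgroup.Normal.quotient_commutative_iff_commutator_le]
  have hπ : closure {QuotientGroup.mk' K x, QuotientGroup.mk' K y} = ⊤ := by
    have h1 : ({QuotientGroup.mk' K x, QuotientGroup.mk' K y} : Set (G ⧸ K)) =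
        QuotientGroup.mk' K '' {x, y} := by rw [Set.image_pair]
    rw [h1, ← MonoidHom.map_closure, hxy,
      Subgroup.map_top_of_surjective _ (QuotientGroup.mk'_surjective K)]
  have hc : QuotientGroup.mk' K x * QuotientGroup.mk' K y =
      QuotientGroup.mk' K y * QuotientGroup.mk' K x := by
    rw [← commutatorElement_eq_one_iff_mul_comm, ← map_commutatorElement]
    exact (QuotientGroup.eq_one_iff _).2 hK
  have hcen : ∀ q : G ⧸ K, q = QuotientGroup.mk' K x ∨ q = QuotientGroup.mk' K y →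
      q ∈ center (G ⧸ K) := by
    intro q hq
    rw [← centralizer_univ, ← coe_top, ← hπ, centralizer_closure]
    rw [mem_centralizer_iff]
    rintro r (rfl | rfl)
    · rcases hq with rfl | rfl
      · rfl
      · exact hc
    · rcases hq with rfl | rfl
      · exact hc.symm
      · rfl
  have htop : center (G ⧸ K) = ⊤ := by
    rw [eq_top_iff, ← hπ, closure_le]
    rintro q (rfl | rfl)
    · exact hcen _ (Or.inl rfl)
    · exact hcen _ (Or.inr rfl)
  refine ⟨⟨fun a b => ?_⟩⟩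
  have : a ∈ center (G ⧸ K) := by rw [htop]; trivial
  exact (mem_center_iff.1 this b).symm

/-- the derived subgroup is abelian in class at most four for two generators -/
theorem abelian_of_class_four {x y : G} (hxy : closure {x, y} = ⊤) (h4 : g4 G ≤ center G) :
    ∀ a ∈ commutator G, ∀ b ∈ commutator G, a * b = b * a := by
  have hg3 : ∀ v ∈ g3 G, ∀ w ∈ commutator G, v * w = w * v := by
    intro v hv w hw
    exact commute_of_central (fun g => h4 (commutator_mem_commutator hv (mem_top g))) hw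
  set K : Subgroup G := zpowers ⁅x, y⁆ ⊔ g3 G with hK
  have hKle : K ≤ commutator G := sup_le ((zpowers_le).2 (brk_mem x y)) g3_le
  haveI hKn : K.Normal := by
    constructor
    intro n hn g
    have h2 : ⁅g, n⁆ ∈ K := by
      apply (le_sup_right : g3 G ≤ K)
      unfold g3
      rw [commutator_comm]
      exact commutator_mem_commutator (mem_top g) (hKle hn)
    have h3 : g * n * g⁻¹ = ⁅g, n⁆ * n := by
      rw [commutatorElement_def]; group
    rw [h3]
    exact K.mul_mem h2 hn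
  have hcK : commutator G ≤ K := comm_le_of_pair hxy (mem_sup_left (mem_zpowers _))
  intro a ha b hb
  have ha' := hcK ha
  have hb' := hcK hb
  rw [hK, mem_sup_of_normal_right] at ha' hb'
  obtain ⟨_, ⟨i, rfl⟩, s, hs, rfl⟩ := ha'
  obtain ⟨_, ⟨j, rfl⟩, t, ht, rfl⟩ := hb'
  simp only at *
  have hc1 : ∀ n : ℤ, ⁅x, y⁆ ^ n ∈ commutator G := fun n => zpow_mem (brk_mem x y) n
  have e1 : Commute s (⁅x, y⁆ ^ j * t) := hg3 s hs _ hb
  have e2 : Commute (⁅x, y⁆ ^ i) t := (hg3 t ht _ (hc1 i)).symm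
  have e3 : Commute (⁅x, y⁆ ^ i) (⁅x, y⁆ ^ j) := (Commute.refl _).zpow_zpow _ _
  have e4 : Commute (⁅x, y⁆ ^ i) (⁅x, y⁆ ^ j * t) := e3.mul_right e2
  exact (e4.mul_left e1)

/-! ### Group-theoretic forms of the key lemmas -/

namespace Fr

variable {M : Type u} [AddCommGroup M] (F : Fr G M)

theorem ι_act_sub (u : M) (g : G) : F.ι (F.act g u - u) = ⁅g, F.ι u⁆ := by
  rw [sub_eq_add_neg, F.ι_add, F.ι_neg, ← F.act_spec, commutatorElement_def]

theorem exists_of_mem {t : G} (ht : t ∈ commutator G) : ∃ a, F.ι a = t := (F.rng t).1 ht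

theorem fixed_of_central {a : M} (h : F.ι a ∈ center G) (g : G) : F.act g a = a := by
  rw [F.act_iff]
  exact mem_center_iff.1 h g

theorem ι_act_sub_mem (u : M) (g : G) : F.ι (F.act g u - u) ∈ g3 G := by
  rw [F.ι_act_sub]
  unfold g3
  rw [commutator_comm]
  exact commutator_mem_commutator (mem_top g) (F.ι_mem u)

theorem ne_of (h : ∀ u g, F.act g u = u) : g3 G = ⊥ := by
  apply bot_of_central
  intro t ht
  obtain ⟨a, rfl⟩ := F.exists_of_mem ht
  rw [mem_center_iff]
  intro g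
  exact (F.act_iff g a).1 (h a g)

end Fr

/-- small section data in class three -/
structure Small3 (p : ℕ) (G : Type u) [Group G] (z : G) : Prop where
  central : g3 G ≤ center G
  mem : z ∈ g3 G
  ne : z ≠ 1
  pow : z ^ p = 1
  gen : ∀ t ∈ g3 G, ∃ k : ℤ, t = z ^ k

theorem L3 {p : ℕ} [Fact p.Prime] (hG : Good p 2 G) {z : G} (hs : Small3 p G z) :
    (p = 2 ∧ ∀ u ∈ commutator G, u ^ 2 = 1) ∨
      ((∃ c ∈ commutator G, ∀ u ∈ commutator G, ∃ n : ℤ, u = c ^ n) ∧
        ∃ u ∈ commutator G, z = u ^ (if p = 2 then 4 else p)) := by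
  haveI := hG.fin
  obtain ⟨x, y, hxy⟩ := hG.pair
  obtain ⟨M, _, ⟨F⟩⟩ := exists_frame G (abelian_of_class_three hs.central)
  obtain ⟨ζ, rfl⟩ := F.exists_of_mem (g3_le hs.mem)
  have hz : ζ ≠ 0 := fun h => hs.ne (F.ι_eq_one.2 h)
  have hpz : (p : ℤ) • ζ = 0 := by
    apply F.ι_eq_one.1
    rw [F.ι_zsmul, zpow_natCast]
    exact hs.pow
  have hzf : ∀ g, F.act g ζ = ζ := F.fixed_of_central (hs.central hs.mem)
  have hss : ∀ u g, ∃ k : ℤ, F.act g u - u = k • ζ := by
    intro u g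
    obtain ⟨k, hk⟩ := hs.gen _ (F.ι_act_sub_mem u g)
    refine ⟨k, F.inj ?_⟩
    rw [hk, F.ι_zsmul]
  have hne : ∃ u g, F.act g u ≠ u := by
    by_contra hcon
    push Not at hcon
    have := F.ne_of hcon
    have h1 := hs.mem
    rw [this, mem_bot] at h1
    exact hs.ne h1
  rcases F.L3_frame hG.pg hG.ee hxy hz hpz hzf hss hne with ⟨h1, h2⟩ | ⟨c, h1, u, h2⟩
  · left
    refine ⟨h1, fun v hv => ?_⟩
    obtain ⟨a, rfl⟩ := F.exists_of_mem hv
    have := h2 a
    rw [← zpow_natCast, ← F.ι_zsmul]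
    exact F.ι_eq_one.2 (by exact_mod_cast this)
  · right
    refine ⟨⟨F.ι c, F.ι_mem c, fun v hv => ?_⟩, F.ι u, F.ι_mem u, ?_⟩
    · obtain ⟨a, rfl⟩ := F.exists_of_mem hv
      obtain ⟨n, hn⟩ := h1 a
      exact ⟨n, by rw [hn, F.ι_zsmul]⟩
    · rw [← zpow_natCast, ← F.ι_zsmul, ← h2]

theorem noThree {p d : ℕ} [Fact p.Prime] (hd : 3 ≤ d) (hG : Good p d G) {z : G}
    (hs : Small3 p G z) : False := by
  haveI := hG.fin
  obtain ⟨x, hx⟩ := hG.gen
  obtain ⟨M, _, ⟨F⟩⟩ := exists_frame G (abelian_of_class_three hs.central)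
  obtain ⟨ζ, rfl⟩ := F.exists_of_mem (g3_le hs.mem)
  have hpz : (p : ℤ) • ζ = 0 := by
    apply F.ι_eq_one.1
    rw [F.ι_zsmul, zpow_natCast]
    exact hs.pow
  have hzf : ∀ g, F.act g ζ = ζ := F.fixed_of_central (hs.central hs.mem)
  have hss : ∀ u g, ∃ k : ℤ, F.act g u - u = k • ζ := by
    intro u g
    obtain ⟨k, hk⟩ := hs.gen _ (F.ι_act_sub_mem u g)
    refine ⟨k, F.inj ?_⟩
    rw [hk, F.ι_zsmul]
  have hne : ∃ u g, F.act g u ≠ u := by
    by_contra hcon
    push Not at hcon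
    have := F.ne_of hcon
    have h1 := hs.mem
    rw [this, mem_bot] at h1
    exact hs.ne h1
  exact F.no_three hd hG.ee hx hpz hzf hss hne

theorem L4 (hG : Good 2 2 G) {z : G} (hc : g4 G ≤ center G) (hz : z ∈ g4 G) (hz1 : z ≠ 1)
    (hz2 : z ^ 2 = 1) (hgen : ∀ t ∈ g4 G, ∃ k : ℤ, t = z ^ k)
    (hsq : ∀ u ∈ commutator G, u ^ 2 ∈ g4 G) : False := by
  haveI := hG.fin
  obtain ⟨x, y, hxy⟩ := hG.pair
  obtain ⟨M, _, ⟨F⟩⟩ := exists_frame G (abelian_of_class_four hxy hc)
  obtain ⟨w, rfl⟩ := F.exists_of_mem (g3_le (g4_le hz))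
  have hw : w ≠ 0 := fun h => hz1 (F.ι_eq_one.2 h)
  have h2w : (2 : ℤ) • w = 0 := by
    apply F.ι_eq_one.1
    rw [F.ι_zsmul]
    exact_mod_cast hz2
  have hwf : ∀ g, F.act g w = w := F.fixed_of_central (hc hz)
  have hg4 : ∀ a : M, F.ι a ∈ g3 G → ∀ g, F.ι (F.act g a - a) ∈ g4 G := by
    intro a ha g
    rw [F.ι_act_sub]
    unfold g4
    rw [commutator_comm]
    exact commutator_mem_commutator (mem_top g) ha
  have hcls : ∀ u g h, ∃ k : ℤ, F.β u g h = k • w := by
    intro u g h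
    obtain ⟨k, hk⟩ := hgen _ (hg4 _ (F.ι_act_sub_mem u g) h)
    refine ⟨k, F.inj ?_⟩
    rw [F.ι_zsmul, ← hk]; rfl
  refine F.L4_frame hG.pg hG.ee hxy hw h2w hwf hcls ?_ ?_
  · intro u
    obtain ⟨k, hk⟩ := hgen _ (hsq _ (F.ι_mem u))
    refine ⟨k, F.inj ?_⟩
    rw [F.ι_zsmul, F.ι_zsmul, ← hk]
    exact_mod_cast rfl
  · by_contra hcon
    push Not at hcon
    have h1 : g4 G = ⊥ := by
      apply bot_of_central
      unfold g3
      rw [commutator_le]
      intro t ht g _
      obtain ⟨a, rfl⟩ := F.exists_of_mem ht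
      have h2 : ⁅g, F.ι a⁆ ∈ center G := by
        rw [← F.ι_act_sub, mem_center_iff]
        intro h
        rw [← F.act_iff]
        have := hcon a g h
        unfold Fr.β at this
        exact sub_eq_zero.1 this
      rw [← commutatorElement_inv]
      exact inv_mem h2
    rw [h1, mem_bot] at hz
    exact hz1 hz

end

end Pool.Agent.TH79.CA
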